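import Pool.Agent.Lib.MP_3b2820_co.Sys

/-!
Accounting: from the denoised inequality to an inequality for leaves and centers.
-/

set_option autoImplicit false
set_option linter.unusedSectionVars false

open Finset

namespace Pool.Agent.Lib.MP_3b2820_co

section center
variable {X V : Type} [DecidableEq X] [DecidableEq V] {h : Finset V → ℝ}

lemma cnd_swap (ω : V) (A B : Finset V) :
    cnd h {ω} B - cnd h {ω} (A ∪ B) = cnd h A B - cnd h A ({ω} ∪ B) := by
  unfold cnd
  rw [Finset.union_left_comm A]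
  ring

lemma center_gain (hh : Poly h) (ω : V) (t : X → V) {S U : Finset X} (hU : U ⊆ S) (a : X → ℝ)
    (ha : ∀ y ∈ S, cnd h {t y} {ω} ≤ a y) :
    cnd h {ω} (S.image t) + h (S.image t) - h (U.image t) - ∑ y ∈ S \ U, a y
      ≤ cnd h {ω} (U.image t) := by
  have h1 := cnd_swap (h := h) ω (S.image t) (U.image t)
  have h2 : S.image t ∪ U.image t = S.image t :=
    Finset.union_eq_left.2 (Finset.image_subset_image hU)
  have h3 : cnd h (S.image t) ({ω} ∪ U.image t) ≤ ∑ y ∈ S \ U, a y := by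
    refine (hh.cover (S \ U) (fun y => {t y}) (fun _ => {ω}) (fun c hc => ?_)
      (fun _ _ => Finset.subset_union_left)).trans
      (Finset.sum_le_sum fun y hy => ha y (Finset.mem_sdiff.1 hy).1)
    obtain ⟨y, hy, rfl⟩ := Finset.mem_image.1 hc
    by_cases hy' : y ∈ U
    · exact Or.inl (Finset.mem_union_right _ (Finset.mem_image_of_mem t hy'))
    · exact Or.inr ⟨y, Finset.mem_sdiff.2 ⟨hy, hy'⟩, Finset.mem_singleton_self _⟩
  have h4 : cnd h (S.image t) (U.image t) = h (S.image t) - h (U.image t) := by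
    unfold cnd
    rw [h2]
  rw [h2] at h1
  linarith

lemma center_info (hh : Poly h) (ω : V) (t t' : X → V) {S S' : Finset X} (hS : S' ⊆ S)
    (a : X → ℝ) (ha : ∀ y ∈ S, cnd h {t' y} {ω} ≤ a y) :
    cnd h (S'.image t') (S.image t) - ∑ y ∈ S', a y
      ≤ cnd h {ω} (S.image t) - cnd h {ω} (S.image t' ∪ S.image t) := by
  have h1 := cnd_swap (h := h) ω (S'.image t') (S.image t)
  have h2 : cnd h {ω} (S.image t' ∪ S.image t) ≤ cnd h {ω} (S'.image t' ∪ S.image t) :=
    hh.cnd_le Finset.subset_union_left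
      (Finset.union_subset_union (Finset.image_subset_image hS) subset_rfl)
  have h3 : cnd h (S'.image t') ({ω} ∪ S.image t) ≤ ∑ y ∈ S', a y := by
    refine (hh.cover S' (fun y => {t' y}) (fun _ => {ω}) (fun c hc => ?_)
      (fun _ _ => Finset.subset_union_left)).trans
      (Finset.sum_le_sum fun y hy => ha y (hS hy))
    obtain ⟨y, hy, rfl⟩ := Finset.mem_image.1 hc
    exact Or.inr ⟨y, hy, Finset.mem_singleton_self _⟩
  linarith

lemma center_slack (hh : Poly h) (ω : V) (t t' : X → V) {S U : Finset X} (hU : U ⊆ S)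
    (a ν : X → ℝ) {L b b0 θ : ℝ} (ha : ∀ y ∈ S, cnd h {t y} {ω} ≤ a y)
    (hL : ∀ v, h {v} ≤ L) (hb : 0 ≤ b) (hθ : 0 ≤ θ) :
    (b0 + θ) * (cnd h {ω} (S.image t) - cnd h {ω} (S.image t' ∪ S.image t))
      + (b0 - θ) * ∑ y ∈ S, (a y - ν y) - b * ∑ y ∈ S \ U, (a y - ν y)
    ≤ b * cnd h {ω} (U.image t) + (b0 - b) * cnd h {ω} (S.image t) + b0 * ∑ y ∈ S, a y
      + θ * (1 + S.card) * L - (b0 + θ) * cnd h {ω} (S.image t' ∪ S.image t)
      - (b0 + θ) * ∑ y ∈ S, ν y
      - (b * ((h (S.image t) - ∑ y ∈ S, ν y) - (h (U.image t) - ∑ y ∈ U, ν y))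
        + θ * ((h (S.image t) - ∑ y ∈ S, ν y) + ∑ y ∈ S, (h {t y} - ν y))) := by
  have h1 := mul_le_mul_of_nonneg_left (center_gain hh ω t hU a ha) hb
  have h2 := center_gain hh ω t (Finset.empty_subset S) a ha
  rw [Finset.image_empty, hh.cnd_empty, hh.empty, Finset.sdiff_empty] at h2
  have h3 := mul_le_mul_of_nonneg_left (h2.trans (hL ω)) hθ
  have h4 : ∑ y ∈ S, h {t y} ≤ S.card * L := by
    have := Finset.sum_le_sum fun y (_ : y ∈ S) => hL (t y)
    rwa [Finset.sum_const, nsmul_eq_mul] at this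
  have h5 := mul_le_mul_of_nonneg_left h4 hθ
  have h6 := Finset.sum_sdiff (f := ν) hU
  simp only [Finset.sum_sub_distrib]
  rw [← h6]
  linarith

lemma slack_nonneg (hh : Poly h) (ω : V) (t t' : X → V) {S U : Finset X}
    (a ν : X → ℝ) {b b0 θ : ℝ} (ha : ∀ y ∈ S, cnd h {t' y} {ω} ≤ a y)
    (hν : ∀ y ∈ S, ∀ s ⊆ S, y ∉ s → ν y ≤ cnd h {t' y} (s.image t' ∪ S.image t))
    (hb : 0 ≤ b) (hθ : 0 ≤ θ) (hb0 : b + θ ≤ b0) :
    0 ≤ (b0 + θ) * (cnd h {ω} (S.image t) - cnd h {ω} (S.image t' ∪ S.image t))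
      + (b0 - θ) * ∑ y ∈ S, (a y - ν y) - b * ∑ y ∈ S \ U, (a y - ν y) := by
  classical
  let S' := S.filter fun y => a y < ν y
  have hS : S' ⊆ S := Finset.filter_subset _ _
  have h1 := center_info hh ω t t' hS a ha
  have h2 := Poly.sum_le_cnd (g := h) S' t' (S.image t) ν
    (fun y hy s hs hys => hν y (hS hy) s (hs.trans hS) hys)
  have h3 : ∑ y ∈ S', (ν y - a y) = ∑ y ∈ S, if a y < ν y then ν y - a y else 0 :=
    Finset.sum_filter _ _
  have h4 : ∑ y ∈ S \ U, (a y - ν y) = ∑ y ∈ S, if y ∉ U then a y - ν y else 0 := by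
    rw [← Finset.sum_filter, Finset.sdiff_eq_filter]
  have h5 : 0 ≤ ∑ y ∈ S, ((b0 + θ) * (if a y < ν y then ν y - a y else 0)
      + (b0 - θ) * (a y - ν y) - b * (if y ∉ U then a y - ν y else 0)) := by
    refine Finset.sum_nonneg fun y _ => ?_
    split_ifs with h1 h2 h2 <;> nlinarith
  rw [Finset.sum_sub_distrib, Finset.sum_add_distrib, ← Finset.mul_sum, ← Finset.mul_sum,
    ← Finset.mul_sum, ← h3, ← h4, Finset.sum_sub_distrib] at h5
  have h6 : ∑ y ∈ S', ν y - ∑ y ∈ S', a y
      ≤ cnd h {ω} (S.image t) - cnd h {ω} (S.image t' ∪ S.image t) := by linarith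
  have h7 := mul_le_mul_of_nonneg_left h6 (show 0 ≤ b0 + θ by linarith)
  linarith

end center

section enc
variable {X J : Type} [DecidableEq X] [DecidableEq J] [Fintype X] [Fintype J]

/-- All centers: the given ones and three more for each variable. -/
abbrev Cen (X J : Type) : Type := J ⊕ X × Fin 3

instance decCen : DecidableEq (Cen X J) := inferInstance

/-- The set of variables of a center. -/
def eS (T U : J → Finset X) : Cen X J → Finset X
  | .inl j => T j ∪ U j
  | .inr (y, _) => {y}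

/-- The conditioning set of a center. -/
def eU (U : J → Finset X) : Cen X J → Finset X
  | .inl j => U j
  | .inr (y, _) => {y}

/-- The weight of a center. -/
def eb (b : J → ℕ) : Cen X J → ℕ
  | .inl j => b j
  | .inr _ => 0

/-- Leaves: one for each incidence. -/
abbrev Leaf (T U : J → Finset X) : Type := {p : Cen X J × X // p.2 ∈ eS T U p.1}

instance decLeaf (T U : J → Finset X) : DecidableEq (Leaf T U) := inferInstance

/-- Vertices other than anchors. -/
abbrev Vt (T U : J → Finset X) : Type := Leaf T U ⊕ Cen X J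

instance decVt (T U : J → Finset X) : DecidableEq (Vt T U) := inferInstance

/-- Three distinguished twins. -/
def tw (T U : J → Finset X) (i : Fin 3) (y : X) : Vt T U :=
  Sum.inl ⟨(Sum.inr (y, i), y), Finset.mem_singleton_self y⟩

/-- Neighbours of the new vertex that copies a given vertex. -/
def nb (T U : J → Finset X) (b : J → ℕ) : Vt T U → ℕ → Finset (Vt T U)
  | .inl l, _ => {Sum.inr l.1.1}
  | .inr j, i => (if i < eb b j then eU U j else eS T U j).image (tw T U 0)

variable {T U : J → Finset X}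

lemma tw_inj {i i' : Fin 3} {y y' : X} : tw T U i y = tw T U i' y' ↔ i = i' ∧ y = y' := by
  simp only [tw, Sum.inl.injEq, Subtype.mk.injEq, Prod.mk.injEq, Sum.inr.injEq]
  tauto

lemma eU_subset (j : Cen X J) : eU U j ⊆ eS T U j := by
  rcases j with j | ⟨y, i⟩
  · exact Finset.subset_union_right
  · exact subset_rfl

lemma sum_leaf (φ : Cen X J → X → ℝ) :
    ∑ l : Leaf T U, φ l.1.1 l.1.2 = ∑ j, ∑ y ∈ eS T U j, φ j y := by
  rw [← Finset.sum_subtype (Finset.univ.filter fun p : Cen X J × X => p.2 ∈ eS T U p.1)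
    (by simp) (fun p => φ p.1 p.2), Finset.sum_filter, Fintype.sum_prod_type]
  refine Finset.sum_congr rfl fun j _ => ?_
  rw [← Finset.sum_filter]
  simp

/-- Twins are exchangeable. -/
def TwinSym (h : Finset (Vt T U) → ℝ) : Prop :=
  ∀ l l' : Leaf T U, l.1.2 = l'.1.2 → ∀ B : Finset (Vt T U), Sum.inl l ∉ B → Sum.inl l' ∉ B →
    h (insert (Sum.inl l) B) = h (insert (Sum.inl l') B)

/-- The noise of a variable. -/
def noise (h : Finset (Vt T U) → ℝ) (y : X) : ℝ :=
  cnd h {tw T U 2 y} (Finset.univ.image (tw T U 1) ∪ Finset.univ.image (tw T U 0))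

variable {h : Finset (Vt T U) → ℝ}

lemma noise_le (hh : Poly h) (hs : TwinSym h) (i : Fin 3) (hi : i = 0 ∨ i = 1) (y : X)
    {B : Finset (Vt T U)}
    (hB : B ⊆ Finset.univ.image (tw T U 1) ∪ Finset.univ.image (tw T U 0)) (hy : tw T U i y ∉ B) :
    noise h y ≤ cnd h {tw T U i y} B := by
  set C := Finset.univ.image (tw T U 1) ∪ Finset.univ.image (tw T U 0) with hC
  have m1 : tw T U i y ∈ C := by
    rcases hi with rfl | rfl <;> simp [hC]
  have m2 : tw T U 2 y ∉ C := by simp [hC, tw_inj]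
  have h1 : h (insert (tw T U 2 y) (C.erase (tw T U i y)))
      = h (insert (tw T U i y) (C.erase (tw T U i y))) :=
    hs ⟨(Sum.inr (y, 2), y), Finset.mem_singleton_self y⟩
      ⟨(Sum.inr (y, i), y), Finset.mem_singleton_self y⟩ rfl (C.erase (tw T U i y))
      (fun h => m2 (Finset.mem_of_mem_erase h)) (Finset.notMem_erase _ _)
  rw [Finset.insert_erase m1] at h1
  have h2 := hh.cnd_le (A := {tw T U i y}) (A' := {tw T U i y})
    (B := insert (tw T U 2 y) (C.erase (tw T U i y))) (B' := B) Finset.subset_union_left (by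
      intro c hc
      exact Finset.mem_insert_of_mem (Finset.mem_erase.2 ⟨fun h => hy (h ▸ hc), hB hc⟩))
  refine le_trans (le_of_eq ?_) h2
  unfold noise cnd
  rw [h1, ← hC, ← Finset.insert_eq, ← Finset.insert_eq, Finset.insert_comm, Finset.insert_erase m1]

lemma noise_first (hh : Poly h) (hs : TwinSym h) (y : X) (S : Finset X) (hy : y ∉ S) :
    noise h y ≤ cnd (fun A : Finset X => h (A.image (tw T U 0))) {y} S := by
  have := noise_le hh hs 0 (Or.inl rfl) y (B := S.image (tw T U 0))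
    ((Finset.image_subset_image (Finset.subset_univ _)).trans Finset.subset_union_right)
    (by simp [tw_inj, hy])
  simpa [cnd] using this

theorem accounting (hh : Poly h) (hs : TwinSym h) {L θ : ℝ} (hL : ∀ v, h {v} ≤ L) (b : J → ℕ)
    {b0 : ℕ} (hb : ∀ j, b j + 1 ≤ b0) (hb0 : 2 ≤ b0) (hθ : 0 ≤ θ) (hθ1 : θ ≤ 1)
    (key : 0 ≤ Wf T U b (fun A => h (A.image (tw T U 0)) - ∑ y ∈ A, noise h y)
      + θ * Df T U (fun A => h (A.image (tw T U 0)) - ∑ y ∈ A, noise h y)
      - b0 * (h (Finset.univ.image (tw T U 0)) - ∑ y, noise h y)) :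
    (b0 + θ) * h Finset.univ
      ≤ ∑ v, ∑ i ∈ Finset.range b0, cnd h {v} (nb T U b v i)
        + θ * Fintype.card (Vt T U) * L := by
  set ν := noise h with hν
  let a : Cen X J → X → ℝ := fun j y => cnd h {tw T U 0 y} {Sum.inr j}
  let μ : X → ℝ := fun y => cnd h {tw T U 1 y} {tw T U 0 y} - ν y
  let g : Cen X J → ℝ := fun j =>
    cnd h {Sum.inr j} ((eS T U j).image (tw T U 1) ∪ (eS T U j).image (tw T U 0))
  have hb0' : (2 : ℝ) ≤ b0 := by exact_mod_cast hb0
  have ha : ∀ (l : Leaf T U) j, cnd h {Sum.inl l} {Sum.inr j} = a j l.1.2 := by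
    intro l j
    have := hs l ⟨(Sum.inr (l.1.2, 0), l.1.2), Finset.mem_singleton_self _⟩ rfl {Sum.inr j}
      (by simp) (by simp)
    simp only [a, cnd, ← Finset.insert_eq]
    rw [this]
    rfl
  have hμ : ∀ y, 0 ≤ μ y := fun y => sub_nonneg.2 (noise_le hh hs 1 (Or.inr rfl) y
    (by simp) (by simp [tw_inj]))
  have heb : ∀ j : Cen X J, eb b j + 1 ≤ b0 := by
    rintro (j | j)
    · exact hb j
    · simp only [eb]
      omega
  -- the slack of each center
  let σ : Cen X J → ℝ := fun j => eb b j * cnd h {Sum.inr j} ((eU U j).image (tw T U 0))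
      + (b0 - eb b j) * cnd h {Sum.inr j} ((eS T U j).image (tw T U 0))
      + b0 * ∑ y ∈ eS T U j, a j y
      + θ * (1 + (eS T U j).card) * L - (b0 + θ) * g j
      - (b0 + θ) * ∑ y ∈ eS T U j, ν y
      - (eb b j * ((h ((eS T U j).image (tw T U 0)) - ∑ y ∈ eS T U j, ν y)
          - (h ((eU U j).image (tw T U 0)) - ∑ y ∈ eU U j, ν y))
        + θ * ((h ((eS T U j).image (tw T U 0)) - ∑ y ∈ eS T U j, ν y)
          + ∑ y ∈ eS T U j, (h {tw T U 0 y} - ν y)))
  have s0 := fun j => center_slack hh (Sum.inr j) (tw T U 0) (tw T U 1) 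
    (eU_subset (T := T) (U := U) j)
    (a j) ν (b := eb b j) (b0 := b0) (fun y _ => le_rfl) hL (Nat.cast_nonneg _) hθ
  have s1 : ∀ j, 0 ≤ σ j := by
    intro j
    refine le_trans (slack_nonneg hh (Sum.inr j) (tw T U 0) (tw T U 1) (a j) ν
      (fun y _ => (ha _ j).le) (fun y hy s hs' hys => ?_) (Nat.cast_nonneg _) hθ ?_) (s0 j)
    · refine noise_le hh hs 1 (Or.inr rfl) y (Finset.union_subset_union
        (Finset.image_subset_image (Finset.subset_univ _))
        (Finset.image_subset_image (Finset.subset_univ _))) (by simp [tw_inj, hys])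
    · have : ((eb b j + 1 : ℕ) : ℝ) ≤ b0 := by exact_mod_cast heb j
      push_cast at this
      linarith
  have s2 : ∀ y i, (b0 - θ) * μ y ≤ σ (Sum.inr (y, i)) := by
    intro y i
    refine le_trans ?_ (s0 (Sum.inr (y, i)))
    have c1 := center_info hh (Sum.inr (Sum.inr (y, i))) (tw T U 0) (tw T U 1) (S := {y})
      subset_rfl (a (Sum.inr (y, i))) (fun y _ => (ha _ _).le)
    have c2 := center_info hh (Sum.inr (Sum.inr (y, i))) (tw T U 0) (tw T U 1) (S := {y})
      (Finset.empty_subset _) (a (Sum.inr (y, i))) (fun y _ => (ha _ _).le)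
    simp only [eS, eb, Finset.image_singleton, Finset.sum_singleton, Finset.image_empty,
      Finset.sum_empty, cnd_empty_left, μ] at *
    have c3 := mul_le_mul_of_nonneg_left c1 (show 0 ≤ b0 - θ by linarith)
    have c4 := mul_le_mul_of_nonneg_left c2 (show 0 ≤ 2 * θ by linarith)
    push_cast
    linarith
  have s3 : (b0 + θ) * ∑ y, μ y ≤ ∑ j, σ j := by
    rw [Fintype.sum_sum_type, Fintype.sum_prod_type, Finset.mul_sum]
    have c1 : 0 ≤ ∑ j, σ (Sum.inl j) := Finset.sum_nonneg fun j _ => s1 _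
    have c2 : ∑ y, (b0 + θ) * μ y ≤ ∑ y, ∑ i, σ (Sum.inr (y, i)) := by
      refine Finset.sum_le_sum fun y _ => ?_
      rw [Fin.sum_univ_three]
      have := s2 y 0
      have := s2 y 1
      have := s2 y 2
      have := mul_nonneg (show 0 ≤ 2 * (b0 : ℝ) - 4 * θ by linarith) (hμ y)
      linarith
    linarith
  -- upper bound for the total
  let C := Finset.univ.image (tw T U 1) ∪ Finset.univ.image (tw T U 0)
  let Lf : Finset (Vt T U) := Finset.univ.image Sum.inl
  let ν' : Vt T U → ℝ := Sum.elim (fun l => ν l.1.2) (fun _ => 0)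
  have hC : C ⊆ Lf := by
    intro c hc
    rcases Finset.mem_union.1 hc with h | h <;>
      obtain ⟨y, -, rfl⟩ := Finset.mem_image.1 h <;> exact Finset.mem_image_of_mem _ (by simp)
  have u1 := hh.le_add_cnd (A := Finset.univ) (Finset.univ.image Sum.inr) Lf (by
    rintro (l | j) - <;> simp [Lf])
  have u2 : cnd h (Finset.univ.image Sum.inr) Lf ≤ ∑ j, g j := by
    refine hh.cover Finset.univ (fun j => {Sum.inr j}) _ (fun c hc => Or.inr ?_)
      (fun j _ => (Finset.union_subset_union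
        (Finset.image_subset_image (Finset.subset_univ _))
        (Finset.image_subset_image (Finset.subset_univ _))).trans hC)
    obtain ⟨j, hj, rfl⟩ := Finset.mem_image.1 hc
    exact ⟨j, hj, Finset.mem_singleton_self _⟩
  have u3 := hh.le_add_cnd (A := Lf) (Lf \ C) C (by rw [Finset.sdiff_union_of_subset hC])
  have u4 : cnd h (Lf \ C) C ≤ ∑ c ∈ Lf \ C, ν' c := by
    refine (hh.cover (Lf \ C) (fun c => {c}) (fun _ => C)
      (fun c hc => Or.inr ⟨c, hc, Finset.mem_singleton_self _⟩) (fun _ _ => subset_rfl)).trans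
      (Finset.sum_le_sum fun c hc => le_of_eq ?_)
    obtain ⟨hc1, hc2⟩ := Finset.mem_sdiff.1 hc
    obtain ⟨l, -, rfl⟩ := Finset.mem_image.1 hc1
    have m2 : tw T U 2 l.1.2 ∉ C := by simp [C, tw_inj]
    have := hs l ⟨(Sum.inr (l.1.2, 2), l.1.2), Finset.mem_singleton_self _⟩ rfl C hc2 m2
    simp only [ν', hν, noise, cnd, ← Finset.insert_eq, Sum.elim_inl]
    rw [this]
    rfl
  have u5 : h C - h (Finset.univ.image (tw T U 0)) ≤ ∑ y, (μ y + ν y) := by
    refine (hh.cover Finset.univ (fun y => {tw T U 1 y}) (fun y => {tw T U 0 y})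
      (A := Finset.univ.image (tw T U 1)) (B := Finset.univ.image (tw T U 0))
      (fun c hc => Or.inr ?_) (fun y _ => by simp)).trans (le_of_eq ?_)
    · obtain ⟨j, hj, rfl⟩ := Finset.mem_image.1 hc
      exact ⟨j, hj, Finset.mem_singleton_self _⟩
    · simp [μ]
  have u6 := Finset.sum_sdiff (f := ν') hC
  have u7 : ∑ c ∈ C, ν' c = ∑ y, ν y + ∑ y, ν y := by
    rw [Finset.sum_union (by simp [Finset.disjoint_left, tw_inj]),
      Finset.sum_image (fun a _ b _ h => (tw_inj.1 h).2),
      Finset.sum_image (fun a _ b _ h => (tw_inj.1 h).2)]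
    rfl
  have u8 : ∑ c ∈ Lf, ν' c = ∑ j, ∑ y ∈ eS T U j, ν y := by
    rw [Finset.sum_image (fun a _ b _ h => Sum.inl_injective h), ← sum_leaf (fun _ y => ν y)]
    rfl
  rw [Finset.sum_add_distrib] at u5
  have u9 : h Finset.univ ≤ h (Finset.univ.image (tw T U 0)) - ∑ y, ν y
      + ∑ j, ∑ y ∈ eS T U j, ν y + ∑ y, μ y + ∑ j, g j := by linarith
  have u10 := mul_le_mul_of_nonneg_left u9 (show 0 ≤ b0 + θ by linarith)
  -- the right side
  have r1 : ∑ v, ∑ i ∈ Finset.range b0, cnd h {v} (nb T U b v i)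
      = ∑ j, (b0 * ∑ y ∈ eS T U j, a j y
        + (eb b j * cnd h {Sum.inr j} ((eU U j).image (tw T U 0))
          + (b0 - eb b j) * cnd h {Sum.inr j} ((eS T U j).image (tw T U 0)))) := by
    rw [Fintype.sum_sum_type, Finset.sum_add_distrib]
    congr 1
    · simp only [nb, ha, Finset.sum_const, Finset.card_range, nsmul_eq_mul, Finset.mul_sum]
      exact sum_leaf (fun j y => (b0 : ℝ) * a j y)
    · refine Finset.sum_congr rfl fun j _ => ?_
      have hle : eb b j ≤ b0 := by have := heb j; omega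
      rw [← Finset.sum_range_add_sum_Ico _ hle]
      congr 1
      · rw [Finset.sum_congr rfl (g := fun _ => cnd h {Sum.inr j} ((eU U j).image (tw T U 0)))
          (fun i hi => by simp only [nb, if_pos (Finset.mem_range.1 hi)])]
        simp
      · rw [Finset.sum_congr rfl (g := fun _ => cnd h {Sum.inr j} ((eS T U j).image (tw T U 0)))
          (fun i hi => by
            simp only [nb, if_neg (not_lt.2 (Finset.mem_Ico.1 hi).1)])]
        simp [Nat.cast_sub hle]
  have r2 : (Fintype.card (Vt T U) : ℝ) = ∑ j : Cen X J, (1 + ((eS T U j).card : ℝ)) := by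
    have := sum_leaf (T := T) (U := U) (fun _ _ => 1)
    simp only [Finset.sum_const, Finset.card_univ, nsmul_eq_mul, mul_one] at this
    rw [Fintype.card_sum, Finset.sum_add_distrib, ← this]
    simp only [Finset.sum_const, Finset.card_univ, nsmul_eq_mul, mul_one]
    push_cast
    ring
  have r3 : Wf T U b (fun A => h (A.image (tw T U 0)) - ∑ y ∈ A, ν y)
      = ∑ j, eb b j * ((h ((eS T U j).image (tw T U 0)) - ∑ y ∈ eS T U j, ν y)
          - (h ((eU U j).image (tw T U 0)) - ∑ y ∈ eU U j, ν y)) := by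
    rw [Fintype.sum_sum_type]
    simp [Wf, eb, eS, eU, cnd]
  have r4 : Df T U (fun A => h (A.image (tw T U 0)) - ∑ y ∈ A, ν y)
      = ∑ j, ((h ((eS T U j).image (tw T U 0)) - ∑ y ∈ eS T U j, ν y)
          + ∑ y ∈ eS T U j, (h {tw T U 0 y} - ν y))
        - (h (Finset.univ.image (tw T U 0)) - ∑ y, ν y) := by
    rw [Fintype.sum_sum_type, Fintype.sum_prod_type]
    simp only [Df, eS, Finset.image_singleton, Finset.sum_singleton, Fin.sum_univ_three,
      Finset.sum_add_distrib]
    ring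
  rw [r3, r4] at key
  rw [r1, r2]
  simp only [σ, Finset.sum_add_distrib, Finset.sum_sub_distrib, ← Finset.mul_sum,
    ← Finset.sum_mul] at *
  linarith

end enc

end Pool.Agent.Lib.MP_3b2820_co
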