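import Pool.Agent.Lib.MP_3b2820_co.Key2

/-!
The error terms of the two level system and the step hypotheses.
-/

set_option autoImplicit false
set_option linter.unusedSectionVars false

open Finset

namespace Pool.Agent.Lib.MP_3b2820_co

lemma cnd_sub_modular {ι : Type} [DecidableEq ι] (h : Finset ι → ℝ) (ν : ι → ℝ) {T U : Finset ι}
    (hd : Disjoint T U) :
    cnd (fun A => h A - ∑ i ∈ A, ν i) T U = cnd h T U - ∑ i ∈ T, ν i := by
  simp only [cnd]
  rw [Finset.sum_union hd]
  ring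

lemma Poly.cnd_ge {ι : Type} [DecidableEq ι] {f : Finset ι → ℝ} (hf : Poly f)
    {S U : Finset ι} (X Y : Finset ι) (hU : U ⊆ Y) :
    f (X ∪ Y) - f Y - cnd f X (S ∪ Y) ≤ cnd f S U := by
  have h1 := hf.cnd_le (A := S) (A' := S) (B := Y) (B' := U) Finset.subset_union_left hU
  have h2 := cnd_union (g := f) S X Y
  have h3 := hf.mono (X ∪ Y) (S ∪ X ∪ Y) (by
    intro c hc
    simp only [Finset.mem_union] at *
    tauto)
  unfold cnd at *
  linarith

section base
variable {N R : Type} [DecidableEq N] [DecidableEq R] [Fintype N] [Fintype R]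
  (A B : R → Finset N) (up : R → N → Bool) (f : Finset (Bool × Yv N R) → ℝ)

/-- Value of a main variable. -/
def fm (e : Bool) (v : N) : ℝ := f {vx R e v}
/-- Next main variable given main variable and step syndrome. -/
def fd3 (e : Bool) (v : N) : ℝ := cnd f {vx R (!e) v} {vx R e v, vs R e v}
/-- Step syndrome given two main variables. -/
def fd4 (e : Bool) (v : N) : ℝ := cnd f {vs R e v} {vx R e v, vx R (!e) v}
/-- Right side given left side. -/
def fd1 (e : Bool) (r : R) : ℝ := cnd f (xs R e (B r)) (xs R e (A r) ∪ {vr N e r})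
/-- Left side given right side. -/
def fdb (e : Bool) (r : R) : ℝ := cnd f (xs R e (A r)) (xs R e (B r) ∪ {vr N e r})
/-- Relation syndrome given both sides. -/
def fd6 (e : Bool) (r : R) : ℝ := cnd f {vr N e r} (xs R e (A r ∪ B r))
/-- Commutation of relation and step. -/
def fdc (e : Bool) (r : R) : ℝ :=
  cnd f (ss R e (B r)) (ss R e (A r) ∪ {vr N e r, vr N (!e) r})
/-- First capacity term. -/
def cA (e : Bool) (r : R) : ℝ := cnd f (ss R e ((A r ∪ B r).filter fun v => up r v)) {vr N e r}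
/-- Second capacity term. -/
def cB (e : Bool) (r : R) : ℝ :=
  cnd f ({vr N e r} ∪ ss R e ((B r).filter fun v => up r v)) (ss R e ((A r).filter fun v => up r v))
/-- Sum of the dependency terms. -/
def fdAll : ℝ := ∑ e, (∑ v, fd3 f e v + ∑ v, fd4 f e v + ∑ r, fd1 A B f e r + ∑ r, fdb A B f e r
  + ∑ r, fd6 A B f e r + ∑ r, fdc A B f e r)
/-- Sum of the terms making syndromes functions of main variables. -/
def fd46 : ℝ := ∑ e, (∑ v, fd4 f e v + ∑ r, fd6 A B f e r)
/-- Dependence among main variables. -/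
def ind : ℝ := ∑ e, ∑ v, fm f e v + fd46 A B f - f Finset.univ
/-- First capacity excess. -/
def eA (e : Bool) (r : R) : ℝ :=
  cA A B up f e r - ∑ v ∈ (A r ∪ B r).filter (fun v => up r v), fm f (!e) v
/-- Second capacity excess. -/
def eB (e : Bool) (r : R) : ℝ :=
  cB A B up f e r - ∑ v ∈ B r, fm f e v - ∑ v ∈ (B r).filter (fun v => up r v), fm f (!e) v
/-- Basic error. -/
def err0 : ℝ := ind A B f + fdAll A B f
/-- Total error. -/
def err : ℝ := err0 A B f + ∑ e, ∑ r, (eA A B up f e r + 3 * err0 A B f)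
  + ∑ e, ∑ r, (eB A B up f e r + 6 * err0 A B f)

variable {A B up f}

lemma sum_bool_not (e : Bool) (φ : Bool → ℝ) : ∑ e', φ e' = φ e + φ (!e) := by
  cases e <;> simp [add_comm]

lemma fd_parts (hf : Poly f) (e : Bool) :
    (∀ E : Finset N, ∑ v ∈ E, fd3 f e v ≤ fdAll A B f) ∧
    (∀ E : Finset N, ∑ v ∈ E, fd4 f e v ≤ fdAll A B f) ∧
    (∀ r, fd1 A B f e r ≤ fdAll A B f) ∧ (∀ r, fdb A B f e r ≤ fdAll A B f) ∧
    (∀ E : Finset R, ∑ r ∈ E, fd6 A B f e r ≤ fdAll A B f) ∧
    (∀ r, fdc A B f e r ≤ fdAll A B f) ∧ fd46 A B f ≤ fdAll A B f ∧ 0 ≤ fdAll A B f := by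
  have n3 : ∀ e v, 0 ≤ fd3 f e v := fun _ _ => hf.cnd_nonneg _ _
  have n4 : ∀ e v, 0 ≤ fd4 f e v := fun _ _ => hf.cnd_nonneg _ _
  have n1 : ∀ e r, 0 ≤ fd1 A B f e r := fun _ _ => hf.cnd_nonneg _ _
  have nb : ∀ e r, 0 ≤ fdb A B f e r := fun _ _ => hf.cnd_nonneg _ _
  have n6 : ∀ e r, 0 ≤ fd6 A B f e r := fun _ _ => hf.cnd_nonneg _ _
  have nc : ∀ e r, 0 ≤ fdc A B f e r := fun _ _ => hf.cnd_nonneg _ _
  have s3 : ∀ e, 0 ≤ ∑ v, fd3 f e v := fun e => Finset.sum_nonneg fun v _ => n3 e v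
  have s4 : ∀ e, 0 ≤ ∑ v, fd4 f e v := fun e => Finset.sum_nonneg fun v _ => n4 e v
  have s1 : ∀ e, 0 ≤ ∑ r, fd1 A B f e r := fun e => Finset.sum_nonneg fun v _ => n1 e v
  have sb : ∀ e, 0 ≤ ∑ r, fdb A B f e r := fun e => Finset.sum_nonneg fun v _ => nb e v
  have s6 : ∀ e, 0 ≤ ∑ r, fd6 A B f e r := fun e => Finset.sum_nonneg fun v _ => n6 e v
  have sc : ∀ e, 0 ≤ ∑ r, fdc A B f e r := fun e => Finset.sum_nonneg fun v _ => nc e v
  have := s3 e; have := s4 e; have := s1 e; have := sb e; have := s6 e; have := sc e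
  have := s3 (!e); have := s4 (!e); have := s1 (!e); have := sb (!e); have := s6 (!e)
  have := sc (!e)
  unfold fdAll fd46
  rw [sum_bool_not e, sum_bool_not e]
  refine ⟨fun E => ?_, fun E => ?_, fun r => ?_, fun r => ?_, fun E => ?_, fun r => ?_,
    by linarith, by linarith⟩
  · have := Finset.sum_le_sum_of_subset_of_nonneg (Finset.subset_univ E) fun v _ _ => n3 e v
    linarith
  · have := Finset.sum_le_sum_of_subset_of_nonneg (Finset.subset_univ E) fun v _ _ => n4 e v
    linarith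
  · have := Finset.single_le_sum (fun r _ => n1 e r) (Finset.mem_univ r)
    linarith
  · have := Finset.single_le_sum (fun r _ => nb e r) (Finset.mem_univ r)
    linarith
  · have := Finset.sum_le_sum_of_subset_of_nonneg (Finset.subset_univ E) fun v _ _ => n6 e v
    linarith
  · have := Finset.single_le_sum (fun r _ => nc e r) (Finset.mem_univ r)
    linarith

lemma xs_le (hf : Poly f) (e : Bool) (E : Finset N) : f (xs R e E) ≤ ∑ v ∈ E, fm f e v := by
  refine (hf.le_sum _).trans (le_of_eq ?_)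
  rw [sum_xs]
  rfl

lemma ss_le (hf : Poly f) (e : Bool) (E : Finset N) {Y : Finset (Bool × Yv N R)}
    (h1 : xs R e E ⊆ Y) (h2 : xs R (!e) E ⊆ Y) : cnd f (ss R e E) Y ≤ ∑ v ∈ E, fd4 f e v := by
  refine hf.cover E (fun v => {vs R e v}) (fun v => {vx R e v, vx R (!e) v})
    (fun c hc => Or.inr ?_) (fun v hv c hc => ?_)
  · obtain ⟨v, hv, rfl⟩ := Finset.mem_image.1 hc
    exact ⟨v, hv, Finset.mem_singleton_self _⟩
  · simp only [Finset.mem_insert, Finset.mem_singleton] at hc
    rcases hc with rfl | rfl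
    · exact h1 (by simp [hv])
    · exact h2 (by simp [hv])

lemma xs_next_le (hf : Poly f) (e : Bool) (E : Finset N) {Y : Finset (Bool × Yv N R)}
    (h1 : xs R e E ⊆ Y) (h2 : ss R e E ⊆ Y) : cnd f (xs R (!e) E) Y ≤ ∑ v ∈ E, fd3 f e v := by
  refine hf.cover E (fun v => {vx R (!e) v}) (fun v => {vx R e v, vs R e v})
    (fun c hc => Or.inr ?_) (fun v hv c hc => ?_)
  · obtain ⟨v, hv, rfl⟩ := Finset.mem_image.1 hc
    exact ⟨v, hv, Finset.mem_singleton_self _⟩
  · simp only [Finset.mem_insert, Finset.mem_singleton] at hc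
    rcases hc with rfl | rfl
    · exact h1 (by simp [hv])
    · exact h2 (by simp [hv])

lemma lowb (hf : Poly f) (e : Bool) (E E' : Finset N) {T : Finset (Bool × Yv N R)}
    (h1 : xs R e E ⊆ T) (h2 : xs R (!e) E' ⊆ T) :
    ∑ v ∈ E, fm f e v + ∑ v ∈ E', fm f (!e) v - ind A B f ≤ f T := by
  let M : Finset (Bool × Yv N R) := xs R e Eᶜ ∪ xs R (!e) E'ᶜ
  let Sy : Bool → Finset (Bool × Yv N R) := fun e' =>
    ss R e' Finset.univ ∪ Finset.univ.image (vr N e')
  have hM : ∀ e' v, vx R e' v ∈ M ∪ T := by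
    intro e' v
    by_cases he : e' = e
    · subst he
      by_cases hv : v ∈ E
      · exact Finset.mem_union_right _ (h1 (by simp [hv]))
      · simp [M, hv]
    · have he' : e' = !e := by cases e <;> cases e' <;> simp_all
      subst he'
      by_cases hv : v ∈ E'
      · exact Finset.mem_union_right _ (h2 (by simp [hv]))
      · simp [M, hv]
  have hM' : ∀ e' E, xs R e' E ⊆ M ∪ T := by
    intro e' E c hc
    obtain ⟨v, -, rfl⟩ := Finset.mem_image.1 hc
    exact hM e' v
  have a1 := hf.le_add_cnd (A := Finset.univ) (M ∪ Finset.univ.biUnion Sy) T (by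
    rintro ⟨e', (v | r) | v⟩ -
    · have := hM e' v
      simp only [Finset.mem_union] at *
      tauto
    · cases e' <;> simp [Sy]
    · cases e' <;> simp [Sy])
  have a2 := cnd_union (g := f) M (Finset.univ.biUnion Sy) T
  have a3 : cnd f M T ≤ ∑ v ∈ Eᶜ, fm f e v + ∑ v ∈ E'ᶜ, fm f (!e) v :=
    (hf.cnd_union_le _ _ _).trans (add_le_add ((hf.cnd_le_val _ _).trans (xs_le hf _ _))
      ((hf.cnd_le_val _ _).trans (xs_le hf _ _)))
  have a4 : cnd f (Finset.univ.biUnion Sy) (M ∪ T) ≤ fd46 A B f := by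
    refine (hf.cnd_biUnion_le _ _ _).trans (Finset.sum_le_sum fun e' _ => ?_)
    refine (hf.cnd_union_le _ _ _).trans (add_le_add (ss_le hf _ _ (hM' _ _) (hM' _ _)) ?_)
    refine hf.cover Finset.univ (fun r => {vr N e' r}) (fun r => xs R e' (A r ∪ B r))
      (fun c hc => Or.inr ?_) (fun r _ => hM' _ _)
    obtain ⟨r, hr, rfl⟩ := Finset.mem_image.1 hc
    exact ⟨r, hr, Finset.mem_singleton_self _⟩
  have a5 := Finset.sum_add_sum_compl E (fm f e)
  have a6 := Finset.sum_add_sum_compl E' (fm f (!e))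
  unfold ind
  rw [sum_bool_not e]
  linarith

lemma ind_nonneg (hf : Poly f) : 0 ≤ ind A B f := by
  have := lowb (A := A) (B := B) hf true ∅ ∅ (T := ∅) (by simp [xs]) (by simp [xs])
  rw [hf.empty] at this
  simpa using this

lemma eA_ge (hf : Poly f) (e : Bool) (r : R) : -(3 * err0 A B f) ≤ eA A B up f e r := by
  obtain ⟨p3, -, -, -, p6, -, -, p0⟩ := fd_parts (A := A) (B := B) hf e
  set D1 := (A r ∪ B r).filter fun v => up r v
  let Y : Finset (Bool × Yv N R) := {vr N e r} ∪ xs R e (A r ∪ B r)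
  have a1 := hf.cnd_ge (S := ss R e D1) (U := {vr N e r}) (xs R (!e) D1) Y
    Finset.subset_union_left
  have a2 := xs_next_le hf e D1 (Y := ss R e D1 ∪ Y) (by
    intro c hc
    obtain ⟨v, hv, rfl⟩ := Finset.mem_image.1 hc
    have := (Finset.mem_filter.1 hv).1
    simp only [Finset.mem_union] at this
    simp [Y, this]) Finset.subset_union_left
  have a3 := lowb (A := A) (B := B) hf e (A r ∪ B r) D1 (T := xs R (!e) D1 ∪ Y)
    (Finset.subset_union_right.trans Finset.subset_union_right) Finset.subset_union_left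
  have a4 := xs_le hf e (A r ∪ B r)
  have a5 : fd6 A B f e r ≤ fdAll A B f := by simpa using p6 {r}
  have a6 : fd6 A B f e r = f Y - f (xs R e (A r ∪ B r)) := rfl
  have := p3 D1
  have := ind_nonneg (A := A) (B := B) hf
  unfold eA cA err0
  linarith

lemma eB1_ge (hf : Poly f) (hd : ∀ r, Disjoint (A r) (B r)) (e : Bool) (r : R) :
    -(3 * err0 A B f) ≤ cnd f {vr N e r} (ss R e ((A r).filter fun v => up r v))
      - ∑ v ∈ B r, fm f e v := by
  obtain ⟨-, p4, p1, -, -, -, -, p0⟩ := fd_parts (A := A) (B := B) hf e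
  set A1 := (A r).filter fun v => up r v
  let Y0 : Finset (Bool × Yv N R) := xs R e (A r) ∪ xs R (!e) A1
  let Y : Finset (Bool × Yv N R) := ss R e A1 ∪ Y0
  have a1 := hf.cnd_ge (S := {vr N e r}) (U := ss R e A1) (xs R e (B r)) Y
    Finset.subset_union_left
  have a2 : cnd f (xs R e (B r)) ({vr N e r} ∪ Y) ≤ fd1 A B f e r :=
    hf.cnd_le Finset.subset_union_left (by
      intro c hc
      simp only [Y, Y0, Finset.mem_union] at *
      tauto)
  have a3 := lowb (A := A) (B := B) hf e (A r ∪ B r) A1 (T := xs R e (B r) ∪ Y) (by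
    intro c hc
    obtain ⟨v, hv, rfl⟩ := Finset.mem_image.1 hc
    simp only [Finset.mem_union] at hv
    simp [Y, Y0]
    tauto) (by
      intro c hc
      simp only [Y, Y0, Finset.mem_union] at *
      tauto)
  have a4 : cnd f (ss R e A1) Y0 ≤ ∑ v ∈ A1, fd4 f e v :=
    ss_le hf e A1 ((Finset.image_subset_image (Finset.filter_subset _ _)).trans
      Finset.subset_union_left) Finset.subset_union_right
  have a5 : f Y0 ≤ ∑ v ∈ A r, fm f e v + ∑ v ∈ A1, fm f (!e) v := by
    rw [← hf.cnd_empty]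
    refine (hf.cnd_union_le _ _ _).trans ?_
    rw [hf.cnd_empty, hf.cnd_empty]
    exact add_le_add (xs_le hf _ _) (xs_le hf _ _)
  rw [Finset.sum_union (hd r)] at a3
  have := p4 A1
  have := p1 r
  have := ind_nonneg (A := A) (B := B) hf
  unfold err0
  have a6 : cnd f (ss R e A1) Y0 = f Y - f Y0 := rfl
  linarith

lemma eB2_ge (hf : Poly f) (hd : ∀ r, Disjoint (A r) (B r)) (e : Bool) (r : R) :
    -(3 * err0 A B f) ≤ cnd f (ss R e ((B r).filter fun v => up r v))
      (ss R e ((A r).filter fun v => up r v) ∪ {vr N e r})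
      - ∑ v ∈ (B r).filter (fun v => up r v), fm f (!e) v := by
  obtain ⟨p3, p4, -, -, p6, -, -, p0⟩ := fd_parts (A := A) (B := B) hf e
  set A1 := (A r).filter fun v => up r v
  set B1 := (B r).filter fun v => up r v
  have hA1 : A1 ⊆ A r ∪ B r := (Finset.filter_subset _ _).trans Finset.subset_union_left
  have hB1 : B1 ⊆ A r ∪ B r := (Finset.filter_subset _ _).trans Finset.subset_union_right
  let Y0 : Finset (Bool × Yv N R) := xs R e (A r ∪ B r) ∪ xs R (!e) A1
  let Y : Finset (Bool × Yv N R) := (ss R e A1 ∪ {vr N e r}) ∪ Y0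
  have a1 := hf.cnd_ge (S := ss R e B1) (U := ss R e A1 ∪ {vr N e r}) (xs R (!e) B1) Y
    Finset.subset_union_left
  have a2 := xs_next_le hf e B1 (Y := ss R e B1 ∪ Y)
    ((Finset.image_subset_image hB1).trans (Finset.subset_union_left.trans
      (Finset.subset_union_right.trans Finset.subset_union_right))) Finset.subset_union_left
  have a3 := lowb (A := A) (B := B) hf e (A r ∪ B r) (A1 ∪ B1) (T := xs R (!e) B1 ∪ Y)
    (Finset.subset_union_left.trans
      (Finset.subset_union_right.trans Finset.subset_union_right)) (by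
    intro c hc
    obtain ⟨v, hv, rfl⟩ := Finset.mem_image.1 hc
    simp only [Finset.mem_union] at hv
    simp [Y, Y0]
    tauto)
  have a4 : cnd f (ss R e A1) Y0 ≤ ∑ v ∈ A1, fd4 f e v :=
    ss_le hf e A1 ((Finset.image_subset_image hA1).trans
      Finset.subset_union_left) Finset.subset_union_right
  have a4' : cnd f {vr N e r} Y0 ≤ fd6 A B f e r :=
    hf.cnd_le Finset.subset_union_left Finset.subset_union_left
  have a4'' := hf.cnd_union_le (ss R e A1) {vr N e r} Y0
  have a5 : f Y0 ≤ ∑ v ∈ A r ∪ B r, fm f e v + ∑ v ∈ A1, fm f (!e) v := by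
    rw [← hf.cnd_empty]
    refine (hf.cnd_union_le _ _ _).trans ?_
    rw [hf.cnd_empty, hf.cnd_empty]
    exact add_le_add (xs_le hf _ _) (xs_le hf _ _)
  rw [Finset.sum_union (Finset.disjoint_filter_filter (hd r))] at a3
  have := p4 A1
  have := p3 B1
  have : fd6 A B f e r ≤ fdAll A B f := by simpa using p6 {r}
  have := ind_nonneg (A := A) (B := B) hf
  unfold err0
  have a6 : cnd f (ss R e A1 ∪ {vr N e r}) Y0 = f Y - f Y0 := rfl
  linarith

lemma eB_eq (e : Bool) (r : R) : eB A B up f e r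
    = (cnd f {vr N e r} (ss R e ((A r).filter fun v => up r v)) - ∑ v ∈ B r, fm f e v)
      + (cnd f (ss R e ((B r).filter fun v => up r v))
        (ss R e ((A r).filter fun v => up r v) ∪ {vr N e r})
        - ∑ v ∈ (B r).filter (fun v => up r v), fm f (!e) v) := by
  unfold eB cB
  rw [cnd_union, Finset.union_comm {vr N e r}]
  ring

lemma err_parts (hf : Poly f) (hd : ∀ r, Disjoint (A r) (B r)) :
    0 ≤ err0 A B f ∧ err0 A B f ≤ err A B up f ∧
    (∀ e r, eA A B up f e r + 3 * err0 A B f ≤ err A B up f) ∧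
    (∀ e r, eB A B up f e r + 6 * err0 A B f ≤ err A B up f) ∧
    0 ≤ ∑ e, ∑ r, (eA A B up f e r + 3 * err0 A B f) ∧
    0 ≤ ∑ e, ∑ r, (eB A B up f e r + 6 * err0 A B f) := by
  have h0 : 0 ≤ err0 A B f :=
    add_nonneg (ind_nonneg hf) (fd_parts (A := A) (B := B) hf true).2.2.2.2.2.2.2
  have a : ∀ e r, 0 ≤ eA A B up f e r + 3 * err0 A B f := fun e r => by
    have := eA_ge (A := A) (B := B) (up := up) hf e r
    linarith
  have b : ∀ e r, 0 ≤ eB A B up f e r + 6 * err0 A B f := fun e r => by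
    have := eB1_ge (up := up) hf hd e r
    have := eB2_ge (up := up) hf hd e r
    rw [eB_eq]
    linarith
  have a1 : ∀ e, 0 ≤ ∑ r, (eA A B up f e r + 3 * err0 A B f) :=
    fun e => Finset.sum_nonneg fun r _ => a e r
  have b1 : ∀ e, 0 ≤ ∑ r, (eB A B up f e r + 6 * err0 A B f) :=
    fun e => Finset.sum_nonneg fun r _ => b e r
  have a2 := Finset.sum_nonneg fun e (_ : e ∈ Finset.univ) => a1 e
  have b2 := Finset.sum_nonneg fun e (_ : e ∈ Finset.univ) => b1 e
  unfold err
  refine ⟨h0, by linarith, fun e r => ?_, fun e r => ?_, a2, b2⟩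
  · have := Finset.single_le_sum (fun r _ => a e r) (Finset.mem_univ r)
    have := Finset.single_le_sum (fun e _ => a1 e) (Finset.mem_univ e)
    linarith
  · have := Finset.single_le_sum (fun r _ => b e r) (Finset.mem_univ r)
    have := Finset.single_le_sum (fun e _ => b1 e) (Finset.mem_univ e)
    linarith

end base

end Pool.Agent.Lib.MP_3b2820_co
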