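import Pool.Agent.Lib.MP_3b2820_co.Base

/-!
From the two level system to the chain and back.
-/

set_option autoImplicit false
set_option linter.unusedSectionVars false

open Finset

namespace Pool.Agent.Lib.MP_3b2820_co

section base
variable {N R : Type} [DecidableEq N] [DecidableEq R] [Fintype N] [Fintype R]
  {A B : R → Finset N} {up : R → N → Bool}

lemma sum_lev {τ : Type} [DecidableEq τ] (t : τ) (φ : τ × Yv N R → ℝ) :
    ∑ c ∈ lev N t, φ c = ∑ v, φ (vx R t v) + ∑ r, φ (vr N t r) := by
  unfold lev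
  rw [Finset.sum_image fun a _ b _ h => by simpa using h, Fintype.sum_sum_type]

lemma sum_stp {τ : Type} [DecidableEq τ] (t : τ) (φ : τ × Yv N R → ℝ) :
    ∑ c ∈ stp (N ⊕ R) t, φ c = ∑ v, φ (vs R t v) := by
  unfold stp
  rw [Finset.sum_image fun a _ b _ h => by simpa using h]

theorem hyp_base {h : Finset (Bool × Yv N R) → ℝ} {ν : Bool × Yv N R → ℝ}
    (hf : Poly (fun S => h S - ∑ i ∈ S, ν i)) (hd : ∀ r, Disjoint (A r) (B r)) (e : Bool) :
    Hyp A B up h ν (err A B up (fun S => h S - ∑ i ∈ S, ν i)) e (!e) := by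
  set f : Finset (Bool × Yv N R) → ℝ := fun S => h S - ∑ i ∈ S, ν i with hfdef
  obtain ⟨p3, p4, p1, pb, p6, pc, -, p0⟩ := fd_parts (A := A) (B := B) hf e
  obtain ⟨q0, q1, qa, qb, -, -⟩ := err_parts (up := up) hf hd
  have hi := ind_nonneg (A := A) (B := B) hf
  have q2 : fdAll A B f ≤ err A B up f := by unfold err0 at q1; linarith
  have q3 : err0 A B f = ind A B f + fdAll A B f := rfl
  have hfx : ∀ e v, fx h ν e v = fm f e v := fun e v => by simp [fx, fm, hfdef]
  have hne : e ≠ !e := by cases e <;> simp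
  have cs : ∀ T U, Disjoint T U → cnd h T U = cnd f T U + ∑ i ∈ T, ν i := fun T U hTU => by
    rw [hfdef, cnd_sub_modular h ν hTU]
    ring
  have hdl : ∀ r v, v ∈ A r → v ∉ B r := fun r v hv => Finset.disjoint_left.1 (hd r) hv
  refine ⟨fun v => ?_, fun v => ?_, fun r => ?_, fun r => ?_, fun r => ?_, fun r => ?_,
    fun r => ?_, fun r => ?_, fun r => ?_, ?_, ?_⟩
  · rw [cs _ _ (by simp [hne.symm]), Finset.sum_singleton]
    have : fd3 f e v ≤ fdAll A B f := by simpa using p3 {v}
    unfold fd3 at this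
    linarith
  · rw [cs _ _ (by simp), Finset.sum_singleton]
    have : fd4 f e v ≤ fdAll A B f := by simpa using p4 {v}
    unfold fd4 at this
    linarith
  · rw [cs _ _ (by
      rw [Finset.disjoint_left]
      rintro ⟨t, (v | r') | v⟩ <;> simp
      intro _ h1 _ h2
      exact hdl r v h2 h1), sum_xs]
    have := p1 r
    unfold fd1 at this
    linarith
  · rw [cs _ _ (by
      rw [Finset.disjoint_left]
      rintro ⟨t, (v | r') | v⟩ <;> simp
      intro _ h1 _ h2
      exact hdl r v h1 h2), sum_xs]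
    have := pb r
    unfold fdb at this
    linarith
  · rw [cs _ _ (by simp), Finset.sum_singleton]
    have : fd6 A B f e r ≤ fdAll A B f := by simpa using p6 {r}
    unfold fd6 at this
    linarith
  · rw [cs _ _ (by
      rw [Finset.disjoint_left]
      rintro ⟨t, (v | r') | v⟩ <;> simp
      intro _ h1 _ h2
      exact hdl r v h2 h1), sum_ss]
    have := pc r
    unfold fdc at this
    linarith
  · rw [cs _ _ (by simp), sum_ss, Finset.sum_add_distrib]
    have := qa e r
    unfold eA cA at this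
    simp only [hfx]
    linarith
  · rw [cs _ _ (by simp), Finset.sum_singleton]
    have := qb e r
    have := eB2_ge (up := up) hf hd e r
    rw [eB_eq] at *
    simp only [hfx]
    linarith
  · rw [cs _ _ (by
      rw [Finset.disjoint_left]
      rintro ⟨t, (v | r') | v⟩ <;> simp
      intro _ h1 _ _ h2
      exact absurd h1 (hdl r v h2)), sum_ss, Finset.sum_add_distrib]
    have := qb e r
    have := eB1_ge (up := up) hf hd e r
    rw [eB_eq] at *
    simp only [hfx]
    linarith
  · have a1 := lowb (A := A) (B := B) hf e Finset.univ ∅ (T := lev N e) (by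
      rintro ⟨t, (v | r') | v⟩ <;> simp) (by simp [xs])
    have a2 : f (lev N e) = h (lev N e) - ∑ i ∈ lev N e, ν i := rfl
    rw [sum_lev] at a2
    rw [Fintype.sum_sum_type]
    simp only [wt_x, wt_r, ← hfx, fx, Finset.sum_sub_distrib, Finset.sum_empty] at *
    linarith
  · have a1 := lowb (A := A) (B := B) hf e Finset.univ Finset.univ (T := cop e (!e)) (by
      rintro ⟨t, (v | r') | v⟩ <;> simp [mem_cop]
      tauto) (by
      rintro ⟨t, (v | r') | v⟩ <;> simp [mem_cop]
      tauto)
    have a2 : f (lev N e) = h (lev N e) - ∑ i ∈ lev N e, ν i := rfl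
    have a3 : f (cop e (!e)) = h (cop e (!e)) - ∑ i ∈ cop e (!e), ν i := rfl
    have a4 : ∑ i ∈ cop e (!e), ν i
        = ∑ i ∈ lev N e, ν i + ∑ i ∈ lev N (!e), ν i + ∑ i ∈ stp (N ⊕ R) e, ν i := by
      unfold cop
      rw [Finset.sum_union, Finset.sum_union]
      · rw [Finset.disjoint_left]
        rintro ⟨t, (v | r') | v⟩ <;> simp
      · rw [Finset.disjoint_left]
        rintro ⟨t, (v | r') | v⟩ <;> simp
    have a5 := hf.le_add_cnd (A := lev N e) (Finset.univ.image (vr N e)) (xs R e Finset.univ) (by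
      rintro ⟨t, (v | r') | v⟩ <;> simp
      exact fun h => h.symm)
    have a6 := xs_le hf e Finset.univ
    have a7 : cnd f (Finset.univ.image (vr N e)) (xs R e Finset.univ) ≤ ∑ r, fd6 A B f e r := by
      refine hf.cover Finset.univ (fun r => {vr N e r}) (fun r => xs R e (A r ∪ B r))
        (fun c hc => Or.inr ?_) (fun r _ => Finset.image_subset_image (Finset.subset_univ _))
      obtain ⟨r, hr, rfl⟩ := Finset.mem_image.1 hc
      exact ⟨r, hr, Finset.mem_singleton_self _⟩
    have a8 := p6 Finset.univ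
    rw [sum_lev (!e), sum_stp] at a4
    rw [Fintype.sum_sum_type]
    simp only [wt_x, wt_r, wt_s, ← hfx, fx, Finset.sum_sub_distrib] at *
    linarith

lemma image_xs (e : Bool) (t : ℕ) (E : Finset N) :
    (xs R t E).image (proj e) = xs R (par e t) E := by
  unfold xs
  rw [Finset.image_image]
  rfl

lemma image_ss (e : Bool) (t : ℕ) (E : Finset N) :
    (ss R t E).image (proj e) = ss R (par e t) E := by
  unfold ss
  rw [Finset.image_image]
  rfl

lemma image_lev (e : Bool) (t : ℕ) :
    (lev N t : Finset (ℕ × Yv N R)).image (proj e) = lev N (par e t) := by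
  unfold lev
  rw [Finset.image_image]
  rfl

lemma image_stp (e : Bool) (t : ℕ) :
    (stp (N ⊕ R) t : Finset (ℕ × Yv N R)).image (proj e) = stp (N ⊕ R) (par e t) := by
  unfold stp
  rw [Finset.image_image]
  rfl

lemma proj_mk {β : Type} (e : Bool) (t : ℕ) (y : β) : proj e (t, y) = (par e t, y) := rfl

theorem hyp_chain {h : Finset (Bool × Yv N R) → ℝ} {ν : Bool × Yv N R → ℝ} {Δ : ℝ}
    {g : Finset (ℕ × Yv N R) → ℝ} (e : Bool) (t : ℕ)
    (hc : ∀ S ⊆ cop t (t + 1), g S = h (S.image (proj e)))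
    (H : Hyp A B up h ν Δ (par e t) (par e (t + 1))) :
    Hyp A B up g (fun c => ν (proj e c)) Δ t (t + 1) := by
  have cc : ∀ T U, T ⊆ cop t (t + 1) → U ⊆ cop t (t + 1) →
      cnd g T U = cnd h (T.image (proj e)) (U.image (proj e)) := by
    intro T U hT hU
    unfold cnd
    rw [hc _ (Finset.union_subset hT hU), hc _ hU, Finset.image_union]
  have g0 : ∀ v, g {vx R t v} = h {vx R (par e t) v} := fun v => by
    rw [hc _ (by simp [mem_cop]), Finset.image_singleton, proj_mk]
  have g1 : ∀ v, g {vx R (t + 1) v} = h {vx R (par e (t + 1)) v} := fun v => by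
    rw [hc _ (by simp [mem_cop]), Finset.image_singleton, proj_mk]
  have sx : ∀ E : Finset N, xs R t E ⊆ cop t (t + 1) := fun E c hc => by
    rw [mem_cop]
    exact Or.inl ((mem_xs _ _ _).1 hc).1
  have sss : ∀ E : Finset N, ss R t E ⊆ cop t (t + 1) := fun E c hc => by
    rw [mem_cop]
    exact Or.inl ((mem_ss _ _ _).1 hc).1
  have sr : ∀ r, ({vr N t r} : Finset (ℕ × Yv N R)) ⊆ cop t (t + 1) := fun r => by simp [mem_cop]
  refine ⟨fun v => ?_, fun v => ?_, fun r => ?_, fun r => ?_, fun r => ?_, fun r => ?_,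
    fun r => ?_, fun r => ?_, fun r => ?_, ?_, ?_⟩
  · rw [cc _ _ (by simp [mem_cop]) (by simp [mem_cop, Finset.insert_subset_iff])]
    simpa only [Finset.image_singleton, Finset.image_insert, proj_mk] using H.fd3 v
  · rw [cc _ _ (by simp [mem_cop]) (by simp [mem_cop, Finset.insert_subset_iff])]
    simpa only [Finset.image_singleton, Finset.image_insert, proj_mk] using H.fd4 v
  · rw [cc _ _ (sx _) (Finset.union_subset (sx _) (sr r))]
    simpa only [Finset.image_singleton, Finset.image_union, image_xs, proj_mk] using H.fd1 r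
  · rw [cc _ _ (sx _) (Finset.union_subset (sx _) (sr r))]
    simpa only [Finset.image_singleton, Finset.image_union, image_xs, proj_mk] using H.fdb r
  · rw [cc _ _ (sr r) (sx _)]
    simpa only [Finset.image_singleton, image_xs, proj_mk] using H.fd6 r
  · rw [cc _ _ (sss _) (Finset.union_subset (sss _)
      (by simp [mem_cop, Finset.insert_subset_iff]))]
    simpa only [Finset.image_singleton, Finset.image_union, Finset.image_insert, image_ss,
      proj_mk] using H.fdc r
  · rw [cc _ _ (sss _) (sr r)]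
    simpa only [Finset.image_singleton, image_ss, proj_mk, fx, g1] using H.ca r
  · rw [cc _ _ (sr r) (sss _)]
    simpa only [Finset.image_singleton, image_ss, proj_mk, fx, g0] using H.cb1 r
  · rw [cc _ _ (sss _) (Finset.union_subset (sss _) (sr r))]
    simpa only [Finset.image_singleton, Finset.image_union, image_ss, proj_mk, fx, g1]
      using H.cb2 r
  · rw [hc _ (Finset.subset_union_left.trans Finset.subset_union_left), image_lev]
    have := H.h0
    rw [Fintype.sum_sum_type] at *
    simpa only [wt_x, wt_r, g0, proj_mk] using this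
  · rw [hc (lev N t) (Finset.subset_union_left.trans Finset.subset_union_left), image_lev,
      hc _ subset_rfl]
    have := H.h1
    unfold cop at *
    rw [Finset.image_union, Finset.image_union, image_lev, image_lev, image_stp]
    rw [Fintype.sum_sum_type] at *
    simpa only [wt_x, wt_r, wt_s, g1, proj_mk] using this

theorem chain_out {Ω α ζ : Type} [Fintype Ω] {p : Ω → ℝ} (hp : IsProb p)
    (Y : Bool × Yv N R → Ω → α) (Z : Ω → ζ) (ν : Bool × Yv N R → ℝ)
    {f : Finset (Bool × Yv N R) → ℝ} (hfdef : f = fun S => cent p Y Z S - ∑ i ∈ S, ν i)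
    (hf : Poly f) (hd : ∀ r, Disjoint (A r) (B r)) {κ : ℝ}
    (hκ : 8 + 8 * (Fintype.card (Yv N R) : ℝ) ≤ κ) :
    ∃ Kb : ℝ, ∀ (e : Bool) (m : ℕ), 3 ≤ m → ∃ z : ℕ → N → ℝ,
      (∀ v, z 0 v = fm f e v) ∧
      (∀ n, n + 1 < m → ∀ r, ∑ a ∈ A r, z (n + (up r a).toNat) a
        ≤ ∑ b ∈ B r, z (n + (up r b).toNat) b + (n + 2) * κ * err A B up f) ∧
      (∀ k < m, ∀ v, |z k v| ≤ (k + 1) * Kb) ∧
      (∀ v, fm f e v + fm f (!e) v - z 1 v - κ * err A B up f ≤ f {vs R e v}) ∧
      (∀ r, ∑ v ∈ A r ∪ B r, fm f e v + ∑ v ∈ (A r ∪ B r).filter (fun v => up r v), fm f (!e) v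
        - ∑ a ∈ A r, z (up r a).toNat a - κ * err A B up f
        ≤ f ({vr N e r} ∪ ss R e ((A r ∪ B r).filter fun v => up r v))) ∧
      (∀ r, ∑ v ∈ A r ∪ B r, fm f e v - ∑ a ∈ A r, z (up r a).toNat a - κ * err A B up f
        ≤ f {vr N e r}) ∧
      (∀ r, ∑ v ∈ A r ∪ B r, fm f e v + ∑ v ∈ A r ∪ B r, fm f (!e) v
        - ∑ a ∈ A r, z (1 + (up r a).toNat) a - κ * err A B up f
        ≤ f (ss R e (A r ∪ B r) ∪ {vr N e r, vr N (!e) r})) := by
  set h := cent p Y Z with hh
  have hb : ∀ e, Hyp A B up h ν (err A B up f) e (!e) := fun e => by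
    rw [hfdef]
    exact hyp_base (hfdef ▸ hf) hd e
  set Δ := err A B up f with hΔdef
  have hΔ : 0 ≤ Δ := by
    obtain ⟨q0, q1, -⟩ := err_parts (up := up) hf hd
    linarith
  have hc0 : (0 : ℝ) ≤ Fintype.card (Yv N R) := Nat.cast_nonneg _
  have hfv : ∀ S, f S = h S - ∑ i ∈ S, ν i := fun S => by rw [hfdef]
  refine ⟨∑ y, (|f {y}| + |ν y|), fun e m hm3 => ?_⟩
  obtain ⟨g, hg, hc, hm⟩ := exists_chain hp Y Z e m
  set ν' : ℕ × Yv N R → ℝ := fun c => ν (proj e c) with hν'
  have H : ∀ t < m, Hyp A B up g ν' Δ t (t + 1) :=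
    fun t ht => hyp_chain e t (hc t ht) (hb (par e t))
  have g0 : ∀ t < m, ∀ v, fx g ν' t v = fm f (par e t) v := fun t ht v => by
    unfold fx fm
    rw [hc t ht _ (by simp [mem_cop]), Finset.image_singleton, hfv, Finset.sum_singleton]
    rfl
  have p0 : par e 0 = e := rfl
  have p1 : par e 1 = !e := rfl
  have kl0 : ∀ r, ∑ v ∈ A r ∪ B r, fm f e v
      + ∑ v ∈ (A r ∪ B r).filter (fun v => up r v), fm f (!e) v
      - ∑ a ∈ A r, zz g ν' (up r a).toNat a - 2 * (2 + 2 * Fintype.card (Yv N R)) * Δ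
      ≤ f ({vr N e r} ∪ ss R e ((A r ∪ B r).filter fun v => up r v)) := by
    intro r
    have a1 := key_low hg hΔ H hm r (hd r) (n := 0) (by omega)
    have a2 : hR N r 0 ∪ bS R (up r) 0 (A r ∪ B r)
        = {vr N 0 r} ∪ ss R 0 ((A r ∪ B r).filter fun v => up r v) := by
      ext ⟨t, (v | r') | v⟩ <;> simp
      cases up r v <;> simp
      tauto
    have a3 := sum_shift (A r ∪ B r) (up r) 1 (fun t v => fx g ν' t v)
    have a4 := sum_shift (A r ∪ B r) (up r) 0 (fun t v => ν' (vs R t v))
    rw [a2, hc 0 (by omega) _ (by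
      rintro ⟨t, (v | r') | v⟩ <;> simp [mem_cop]
      all_goals tauto), a4] at a1
    simp only [Nat.add_comm _ 1, Nat.zero_add] at a1
    rw [a3] at a1
    rw [hfv, Finset.sum_union (s₁ := {vr N e r}) (by simp), sum_ss, Finset.sum_singleton]
    simp only [Finset.image_union, Finset.image_singleton, image_ss, proj_mk, p0,
      Finset.sum_range_one, Finset.range_zero, Finset.sum_empty, Nat.add_zero,
      g0 0 (by omega), g0 1 (by omega), p1] at a1
    have b1 : ν' (vr N 0 r) = ν (vr N e r) := rfl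
    have b3 : ∑ v ∈ (A r ∪ B r).filter (fun v => up r v), ν' (vs R 0 v)
      = ∑ v ∈ (A r ∪ B r).filter (fun v => up r v), ν (vs R e v) := rfl
    push_cast at a1
    linarith
  refine ⟨zz g ν', fun v => ?_, fun n hn r => ?_, fun k hk v => ?_, fun v => ?_, fun r => ?_,
    fun r => ?_, fun r => ?_⟩
  · have a1 : hX R v 0 = {vx R 0 v} := by simp [hX]
    have a2 : hS R v 0 = ∅ := by simp [hS]
    rw [← p0, ← g0 0 (by omega) v]
    simp [zz, fx, a1, a2, hg.cnd_empty]
  · refine (key_rec hg hΔ H hm r (hd r) hn).trans ?_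
    have : (4 + 3 * (Fintype.card (Yv N R) : ℝ)) ≤ κ := by linarith
    have h2 : (0 : ℝ) ≤ n + 2 := by positivity
    gcongr
  · have b1 : ∀ y, |f {y}| + |ν y| ≤ ∑ y, (|f {y}| + |ν y|) := fun y =>
      Finset.single_le_sum (f := fun y => |f {y}| + |ν y|)
        (fun y _ => by positivity) (Finset.mem_univ y)
    have b2 : cnd g (hX R v k) (hS R v k) ≤ ∑ t ∈ Finset.range (k + 1), g {vx R t v} := by
      refine (hg.cnd_le_val _ _).trans ((hg.le_sum _).trans (le_of_eq ?_))
      exact Finset.sum_image fun a _ b _ h => by simpa using h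
    have b3 := hg.cnd_nonneg (hX R v k) (hS R v k)
    have b4 : ∑ t ∈ Finset.range (k + 1), fx g ν' t v
        ≤ ∑ t ∈ Finset.range (k + 1), ∑ y, (|f {y}| + |ν y|) := by
      refine Finset.sum_le_sum fun t ht => ?_
      rw [g0 t (by have := Finset.mem_range.1 ht; omega)]
      have := b1 (vx R (par e t) v)
      have := le_abs_self (f {vx R (par e t) v})
      have := abs_nonneg (ν (vx R (par e t) v))
      unfold fm
      linarith
    have b5 : ∑ t ∈ Finset.range (k + 1), ν' (vx R t v)
        ≤ ∑ t ∈ Finset.range (k + 1), ∑ y, (|f {y}| + |ν y|) := by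
      refine Finset.sum_le_sum fun t _ => ?_
      have := b1 (vx R (par e t) v)
      have := le_abs_self (ν (vx R (par e t) v))
      have := abs_nonneg (f {vx R (par e t) v})
      have : ν' (vx R t v) = ν (vx R (par e t) v) := rfl
      linarith
    rw [Finset.sum_const, Finset.card_range, nsmul_eq_mul] at b4 b5
    simp only [fx, Finset.sum_sub_distrib] at b4
    push_cast at b4 b5
    unfold zz
    rw [abs_le]
    constructor <;> linarith
  · have a1 := low hg hΔ H hm (k := 1) (by omega) (T := hX R v 1 ∪ hS R v 1) (by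
      rintro ⟨t, (v | r') | v⟩ <;> simp [mem_upTo]
      all_goals omega)
    have a2 : hX R v 1 = {vx R 0 v, vx R 1 v} := by
      simp [hX, Finset.range_add_one, Finset.pair_comm]
    have a3 : hS R v 1 = {vs R 0 v} := by simp [hS]
    have a4 : g {vs R 0 v} = h {vs R e v} := by
      rw [hc 0 (by omega) _ (by simp [mem_cop]), Finset.image_singleton]
      rfl
    have a5 := g0 0 (by omega) v
    have a6 := g0 1 (by omega) v
    have a7 : ν' (vs R 0 v) = ν (vs R e v) := rfl
    rw [Finset.sum_union (by rw [a2, a3]; simp)] at a1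
    rw [hfv, Finset.sum_singleton]
    unfold zz cnd
    rw [a3, a2] at a1 ⊢
    rw [Finset.sum_pair (by simp), Finset.sum_singleton] at a1
    simp only [wt_x, wt_s, fx, p0, p1] at a1 a5 a6
    rw [Finset.sum_range_succ, Finset.sum_range_one]
    have := mul_le_mul_of_nonneg_right hκ hΔ
    have := mul_nonneg hc0 hΔ
    push_cast at a1
    linarith
  · have := kl0 r
    have := mul_le_mul_of_nonneg_right hκ hΔ
    have := mul_nonneg hc0 hΔ
    linarith
  · have a1 := kl0 r
    have a2 := (err_parts (up := up) hf hd).2.2.1 e r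
    have a3 := (err_parts (up := up) hf hd).1
    unfold eA cA cnd at a2
    rw [Finset.union_comm _ {vr N e r}] at a2
    have := mul_le_mul_of_nonneg_right hκ hΔ
    have := mul_nonneg hc0 hΔ
    linarith
  · have a1 := key_low hg hΔ H hm r (hd r) (n := 1) (by omega)
    have a2 := hg.le_add_cnd (A := hR N r 1 ∪ bS R (up r) 1 (A r ∪ B r))
      (ss R 1 ((A r ∪ B r).filter fun v => up r v))
      (ss R 0 (A r ∪ B r) ∪ {vr N 0 r, vr N 1 r}) (by
        rintro ⟨t, (v | r') | v⟩ <;> simp
        · intro h1 h2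
          have : t = 0 ∨ t = 1 := by omega
          tauto
        · cases up r v <;> simp
          · tauto
          · intro h1 h2
            have : t = 0 ∨ t = 1 := by omega
            tauto)
    have a3 := (hg.cnd_le (A := ss R 1 ((A r ∪ B r).filter fun v => up r v))
      (B := ss R 0 (A r ∪ B r) ∪ {vr N 0 r, vr N 1 r}) Finset.subset_union_left
      (B' := {vr N 1 r}) (by simp)).trans ((H 1 (by omega)).ca r)
    have a4 := sum_shift (A r ∪ B r) (up r) 2 (fun t v => fx g ν' t v)
    have a5 := sum_shift (A r ∪ B r) (up r) 1 (fun t v => ν' (vs R t v))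
    have a6 : ∀ v, 1 + (up r v).toNat + 1 = 2 + (up r v).toNat := fun v => by omega
    simp only [a6] at a1
    rw [a4, a5] at a1
    rw [hc 0 (by omega) (ss R 0 (A r ∪ B r) ∪ {vr N 0 r, vr N 1 r}) (by
      rintro ⟨t, (v | r') | v⟩ <;> simp [mem_cop]
      all_goals tauto)] at a2
    rw [hfv, Finset.sum_union (s₁ := ss R e (A r ∪ B r)) (by simp), sum_ss,
      Finset.sum_pair (by cases e <;> simp)]
    simp only [Finset.image_union, Finset.image_singleton, Finset.image_insert, image_ss,
      proj_mk, p0, p1] at a2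
    simp only [Finset.sum_range_succ, Finset.range_zero, Finset.sum_empty, zero_add,
      g0 0 (by omega), g0 1 (by omega), p0, p1, Finset.sum_add_distrib] at a1 a3
    have b1 : ν' (vr N 0 r) = ν (vr N e r) := rfl
    have b2 : ν' (vr N 1 r) = ν (vr N (!e) r) := rfl
    have b3 : ∑ v ∈ A r ∪ B r, ν' (vs R 0 v) = ∑ v ∈ A r ∪ B r, ν (vs R e v) := rfl
    have := mul_le_mul_of_nonneg_right hκ hΔ
    have := mul_nonneg hc0 hΔ
    push_cast at a1
    linarith

end base

end Pool.Agent.Lib.MP_3b2820_co
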