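import Pool.Agent.Lib.MP_3b2820_co.Poly

/-!
A Markov chain of copies of a two level system, glued along the level variables.
-/

set_option autoImplicit false

open Finset

namespace Pool.Agent.Lib.MP_3b2820_co

section defs
variable {τ L N : Type} [DecidableEq τ] [DecidableEq L] [DecidableEq N] [Fintype L] [Fintype N]

/-- Level variables at time `t`. -/
def lev (N : Type) [DecidableEq N] (t : τ) : Finset (τ × (L ⊕ N)) :=
  Finset.univ.image fun l => (t, Sum.inl l)

/-- Step variables at time `t`. -/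
def stp (L : Type) [DecidableEq L] (t : τ) : Finset (τ × (L ⊕ N)) :=
  Finset.univ.image fun v => (t, Sum.inr v)

/-- The variables of one step. -/
def cop (t t' : τ) : Finset (τ × (L ⊕ N)) := lev N t ∪ lev N t' ∪ stp L t

/-- The variables of the first `n` steps. -/
def upTo (n : ℕ) : Finset (ℕ × (L ⊕ N)) := (Finset.range n ×ˢ Finset.univ) ∪ lev N n

omit [Fintype N] in
@[simp] lemma mem_lev (t : τ) (c : τ × (L ⊕ N)) :
    c ∈ (lev N t : Finset (τ × (L ⊕ N))) ↔ c.1 = t ∧ c.2.isLeft := by
  obtain ⟨a, b | b⟩ := c <;> simp [lev, eq_comm]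

omit [Fintype L] in
@[simp] lemma mem_stp (t : τ) (c : τ × (L ⊕ N)) :
    c ∈ (stp L t : Finset (τ × (L ⊕ N))) ↔ c.1 = t ∧ c.2.isRight := by
  obtain ⟨a, b | b⟩ := c <;> simp [stp, eq_comm]

lemma mem_cop (t t' : τ) (c : τ × (L ⊕ N)) :
    c ∈ (cop t t' : Finset (τ × (L ⊕ N))) ↔ c.1 = t ∨ (c.1 = t' ∧ c.2.isLeft) := by
  obtain ⟨a, b | b⟩ := c <;> simp [cop]

lemma mem_upTo (n : ℕ) (c : ℕ × (L ⊕ N)) :
    c ∈ (upTo n : Finset (ℕ × (L ⊕ N))) ↔ c.1 < n ∨ (c.1 = n ∧ c.2.isLeft) := by
  simp [upTo]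

end defs

/-- Parity of a time, starting from `e`. -/
def par (e : Bool) : ℕ → Bool
  | 0 => e
  | t + 1 => !par e t

/-- The base variable of a chain variable. -/
def proj {β : Type} (e : Bool) (c : ℕ × β) : Bool × β := (par e c.1, c.2)

section chain
variable {Ω α ζ L N : Type} [Fintype Ω] [DecidableEq L] [DecidableEq N] [Fintype L] [Fintype N]
  {p : Ω → ℝ}

lemma chain_aux (hp : IsProb p) (Y : Bool × (L ⊕ N) → Ω → α) (Z : Ω → ζ) (e : Bool) (n : ℕ) :
    ∃ (Ω' : Type) (_ : Fintype Ω') (p' : Ω' → ℝ) (Y' : ℕ × (L ⊕ N) → Ω' → α) (Z' : Ω' → ζ)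
      (π : Ω' → Ω), IsProb p' ∧ Push p' π p ∧ (∀ a, Z' a = Z (π a)) ∧
      (∀ l a, Y' (n, Sum.inl l) a = Y (par e n, Sum.inl l) (π a)) ∧
      (∀ t < n, ∀ A ⊆ cop t (t + 1), cent p' Y' Z' A = cent p Y Z (A.image (proj e))) ∧
      (∀ k < n, cent p' Y' Z' (upTo (k + 1)) + cent p' Y' Z' (lev N k)
        = cent p' Y' Z' (upTo k) + cent p' Y' Z' (cop k (k + 1))) := by
  classical
  induction n with
  | zero =>
    exact ⟨Ω, inferInstance, p, fun c => Y (proj e c), Z, fun a => a, hp, push_id,
      fun _ => rfl, fun _ _ => rfl, fun t ht => absurd ht (Nat.not_lt_zero t),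
      fun t ht => absurd ht (Nat.not_lt_zero t)⟩
  | succ n ih =>
    obtain ⟨Ω', _, p', Y', Z', π, hp', hπ, hZ, hY, hc, hm⟩ := ih
    let a₂ : Ω → ζ × (L → α) := fun b => (Z b, fun l => Y (par e n, Sum.inl l) b)
    let a₁ : Ω' → ζ × (L → α) := fun a => a₂ (π a)
    let μ : ζ × (L → α) → ℝ := fun c => ∑ b, if a₂ b = c then p b else 0
    have h₂ : Push p a₂ μ := fun c => by
      simp only [μ]
      refine Finset.sum_congr rfl fun b _ => ?_
      congr
    have h₁ : Push p' a₁ μ := hπ.comp h₂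
    have f1 := glue_push_fst (p₂ := p) hp' h₁ h₂
    have f2 := glue_push_snd (p₁ := p') hp h₁ h₂
    let Y'' : ℕ × (L ⊕ N) → Glue a₁ a₂ → α := fun c x =>
      if c ∈ (upTo n : Finset (ℕ × (L ⊕ N))) then Y' c x.1.1 else Y (proj e c) x.1.2
    let Z'' : Glue a₁ a₂ → ζ := fun x => Z x.1.2
    have hZ1 : ∀ x : Glue a₁ a₂, Z'' x = Z' x.1.1 := fun x => by
      rw [hZ]
      exact (congrArg Prod.fst x.2).symm
    have hY1 : ∀ c ∈ (upTo n : Finset (ℕ × (L ⊕ N))), ∀ x, Y'' c x = Y' c x.1.1 :=
      fun c hc x => if_pos hc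
    have hY2 : ∀ c ∈ (cop n (n + 1) : Finset (ℕ × (L ⊕ N))), ∀ x,
        Y'' c x = Y (proj e c) x.1.2 := by
      intro c hc x
      by_cases h : c ∈ (upTo n : Finset (ℕ × (L ⊕ N)))
      · rw [hY1 c h]
        rw [mem_cop] at hc
        rw [mem_upTo] at h
        obtain ⟨t, l | v⟩ := c
        · have ht : t = n := by
            simp at hc h
            omega
          subst ht
          rw [hY]
          exact congrFun (congrArg Prod.snd x.2) l
        · simp at hc h
          omega
      · exact if_neg h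
    have k1 : ∀ A ⊆ (upTo n : Finset (ℕ × (L ⊕ N))),
        cent (glueP p' p μ a₁ a₂) Y'' Z'' A = cent p' Y' Z' A := by
      intro A hA
      rw [cent_push f1 (fun c => c) A hZ1 (fun c hc => hY1 c (hA hc)), Finset.image_id']
    have k2 : ∀ A ⊆ (cop n (n + 1) : Finset (ℕ × (L ⊕ N))),
        cent (glueP p' p μ a₁ a₂) Y'' Z'' A = cent p Y Z (A.image (proj e)) := by
      intro A hA
      exact cent_push f2 (proj e) A (fun _ => rfl) (fun c hc => hY2 c (hA hc))
    have s1 : ∀ t < n, (cop t (t + 1) : Finset (ℕ × (L ⊕ N))) ⊆ upTo n := by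
      intro t ht c hc
      rw [mem_cop] at hc
      rw [mem_upTo]
      rcases hc with h | ⟨h, h'⟩
      · omega
      · by_cases h2 : c.1 = n
        · exact Or.inr ⟨h2, h'⟩
        · omega
    have s2 : ∀ k ≤ n, (upTo k : Finset (ℕ × (L ⊕ N))) ⊆ upTo n := by
      intro k hk c hc
      rw [mem_upTo] at *
      rcases hc with h | ⟨h, h'⟩
      · omega
      · by_cases h2 : c.1 = n
        · exact Or.inr ⟨h2, h'⟩
        · omega
    have s3 : ∀ k, (lev N k : Finset (ℕ × (L ⊕ N))) ⊆ upTo k :=
      fun k => Finset.subset_union_right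
    refine ⟨Glue a₁ a₂, inferInstance, glueP p' p μ a₁ a₂, Y'', Z'', fun x => x.1.2,
      glue_prob hp' hp h₁ h₂, f2, fun _ => rfl, fun l x => ?_, fun t ht A hA => ?_,
      fun k hk => ?_⟩
    · exact hY2 (n + 1, Sum.inl l) (by simp [mem_cop]) x
    · rcases Nat.lt_succ_iff_lt_or_eq.1 ht with h | h
      · rw [k1 A (hA.trans (s1 t h)), hc t h A hA]
      · subst h
        exact k2 A hA
    · rcases Nat.lt_succ_iff_lt_or_eq.1 hk with h | h
      · rw [k1 _ (s2 (k + 1) h), k1 _ ((s3 k).trans (s2 k h.le)), k1 _ (s2 k h.le),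
          k1 _ (s1 k h)]
        exact hm k h
      · subst h
        rw [k1 _ (s3 k), k1 _ subset_rfl, k2 _ subset_rfl]
        have e0 : entR (glueP p' p μ a₁ a₂) (agr Y'' Z'' ∅) = entR p (agr Y Z ∅) :=
          f2.entR_eq fun a b => by simp [agr_iff, Z'']
        have e1 : entR (glueP p' p μ a₁ a₂) (agr Y'' Z'' (upTo (k + 1)))
            = entR p' (agr Y' Z' (upTo k)) + entR p (agr Y Z ((cop k (k + 1)).image (proj e)))
              - entR p' (agr Y' Z' (lev N k)) := by
          have q : ∀ a b, agr Y' Z' (lev N k) a b ↔ a₁ a = a₁ b := by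
            intro a b
            simp only [agr_iff, a₁, a₂, Prod.mk.injEq, hZ, lev, Finset.forall_mem_image,
              Finset.mem_univ, forall_true_left, hY, funext_iff]
          refine glue_entR hp' hp h₁ h₂ (fun a b h => (q a b).1 (agr_anti Y' Z' (s3 k) h))
            (fun a b h => ?_) q (fun x y => ?_)
          · refine Prod.ext h.1 (funext fun l => h.2 _ ?_)
            exact Finset.mem_image.2 ⟨(k, Sum.inl l), by simp [mem_cop], rfl⟩
          · simp only [agr_iff, Finset.forall_mem_image]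
            constructor
            · rintro ⟨h1, h2⟩
              refine ⟨⟨by rw [← hZ1, ← hZ1]; exact h1, fun c hc => ?_⟩, h1, fun c hc => ?_⟩
              · rw [← hY1 c hc, ← hY1 c hc]
                refine h2 c ?_
                rw [mem_upTo] at *
                omega
              · rw [← hY2 c hc, ← hY2 c hc]
                refine h2 c ?_
                rw [mem_cop] at hc
                rw [mem_upTo]
                rcases hc with h | h
                · omega
                · exact Or.inr h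
            · rintro ⟨⟨_, h2⟩, h3, h4⟩
              refine ⟨h3, fun c hc => ?_⟩
              by_cases h : c ∈ (upTo k : Finset (ℕ × (L ⊕ N)))
              · rw [hY1 c h, hY1 c h]
                exact h2 c h
              · have h' : c ∈ (cop k (k + 1) : Finset (ℕ × (L ⊕ N))) := by
                  rw [mem_upTo] at *
                  rw [mem_cop]
                  rcases hc with h5 | h5
                  · left
                    omega
                  · exact Or.inr h5
                rw [hY2 c h', hY2 c h']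
                exact h4 h'
        unfold cent
        rw [e0, e1]
        ring

theorem exists_chain (hp : IsProb p) (Y : Bool × (L ⊕ N) → Ω → α) (Z : Ω → ζ) (e : Bool)
    (n : ℕ) : ∃ g : Finset (ℕ × (L ⊕ N)) → ℝ, Poly g ∧
      (∀ t < n, ∀ A ⊆ cop t (t + 1), g A = cent p Y Z (A.image (proj e))) ∧
      (∀ k < n, g (upTo (k + 1)) + g (lev N k) = g (upTo k) + g (cop k (k + 1))) := by
  obtain ⟨Ω', _, p', Y', Z', π, hp', -, -, -, hc, hm⟩ := chain_aux hp Y Z e n
  exact ⟨cent p' Y' Z', cent_poly hp' Y' Z', hc, hm⟩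

end chain

end Pool.Agent.Lib.MP_3b2820_co
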