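import Pool.Agent.Lib.MP_3b2820_co.Sys

/-!
The concrete system with eight nodes and eight relations.
-/

set_option autoImplicit false
set_option linter.unusedSectionVars false

open Finset

namespace Pool.Agent.Lib.MP_3b2820_co

/-- Eight nodes, and eight relations. -/
abbrev F8 : Type := Fin 4 ⊕ Fin 4

/-- Left sides. -/
def sA : F8 → Finset F8
  | .inl i => (Finset.univ.erase i).image Sum.inl
  | .inr i => {Sum.inr i}

/-- Right sides. -/
def sB : F8 → Finset F8
  | .inl i => {Sum.inl i, Sum.inr i}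
  | .inr i => {Sum.inl i}

/-- Shifts. -/
def sU : F8 → F8 → Bool
  | .inl i, .inl j => decide (j ≠ i)
  | .inl _, .inr _ => true
  | .inr _, .inl _ => true
  | .inr _, .inr _ => false

lemma s_disj : ∀ r, Disjoint (sA r) (sB r) := by decide

lemma sum_as_ite (E : Finset F8) (χ : F8 → ℝ) : ∑ v ∈ E, χ v = ∑ v, if v ∈ E then χ v else 0 := by
  rw [← Finset.sum_filter]
  simp

lemma tA1 (ψ : ℕ → F8 → ℝ) (k : ℕ) :
    ∑ i, ∑ a ∈ sA (.inl i), ψ (k + (sU (.inl i) a).toNat) a = 3 * ∑ i, ψ (k + 1) (.inl i) := by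
  simp only [sum_as_ite (sA _)]
  simp [Fintype.sum_sum_type, Fin.sum_univ_four, sA, sU]
  ring

lemma tA2 (ψ : ℕ → F8 → ℝ) (k : ℕ) :
    ∑ i, ∑ a ∈ sA (.inr i), ψ (k + (sU (.inr i) a).toNat) a = ∑ i, ψ k (.inr i) := by
  simp [sA, sU]

lemma tB1 (ψ : ℕ → F8 → ℝ) (k : ℕ) :
    ∑ i, ∑ a ∈ sB (.inl i), ψ (k + (sU (.inl i) a).toNat) a
      = ∑ i, ψ k (.inl i) + ∑ i, ψ (k + 1) (.inr i) := by
  simp [sB, sU, Finset.sum_add_distrib]

lemma tB2 (ψ : ℕ → F8 → ℝ) (k : ℕ) :
    ∑ i, ∑ a ∈ sB (.inr i), ψ (k + (sU (.inr i) a).toNat) a = ∑ i, ψ (k + 1) (.inl i) := by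
  simp [sB, sU]

lemma tA (ψ : ℕ → F8 → ℝ) (k : ℕ) :
    ∑ r, ∑ a ∈ sA r, ψ (k + (sU r a).toNat) a
      = 3 * ∑ i, ψ (k + 1) (.inl i) + ∑ i, ψ k (.inr i) := by
  rw [Fintype.sum_sum_type, tA1, tA2]

lemma tA0 (ψ : ℕ → F8 → ℝ) :
    ∑ r, ∑ a ∈ sA r, ψ (sU r a).toNat a = 3 * ∑ i, ψ 1 (.inl i) + ∑ i, ψ 0 (.inr i) := by
  simpa using tA ψ 0

lemma tD (χ : F8 → ℝ) :
    ∑ r, ∑ v ∈ sA r ∪ sB r, χ v = 5 * ∑ i, χ (.inl i) + 2 * ∑ i, χ (.inr i) := by
  simp only [sum_as_ite (sA _ ∪ sB _)]
  simp [Fintype.sum_sum_type, Fin.sum_univ_four, sA, sB]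
  ring

lemma tD1 (χ : F8 → ℝ) :
    ∑ r, ∑ v ∈ (sA r ∪ sB r).filter (fun v => sU r v), χ v
      = 4 * ∑ i, χ (.inl i) + ∑ i, χ (.inr i) := by
  simp only [sum_as_ite ((sA _ ∪ sB _).filter _)]
  simp [Fintype.sum_sum_type, Fin.sum_univ_four, sA, sB, sU]
  ring

lemma tB (χ : F8 → ℝ) : ∑ r, ∑ v ∈ sB r, χ v = 2 * ∑ i, χ (.inl i) + ∑ i, χ (.inr i) := by
  simp [Fintype.sum_sum_type, sB, Finset.sum_add_distrib]
  ring

lemma tB1' (χ : F8 → ℝ) :
    ∑ r, ∑ v ∈ (sB r).filter (fun v => sU r v), χ v = ∑ i, χ (.inl i) + ∑ i, χ (.inr i) := by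
  simp only [sum_as_ite ((sB _).filter _)]
  simp [Fintype.sum_sum_type, Fin.sum_univ_four, sB, sU]
  ring

/-- Total over the first four nodes. -/
def totP (z : Bool → ℕ → F8 → ℝ) (k : ℕ) : ℝ := ∑ e, ∑ i, z e k (.inl i)
/-- Total over the last four nodes. -/
def totQ (z : Bool → ℕ → F8 → ℝ) (k : ℕ) : ℝ := ∑ e, ∑ i, z e k (.inr i)

lemma nD_conc (z : Bool → ℕ → F8 → ℝ) : nD sA sB sU z
    = 268 * totP z 0 + 110 * totQ z 0 - 88 * totP z 1 - 18 * totQ z 1 - 6 * totP z 2 := by
  rw [nD_eq]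
  simp only [nσ, Finset.sum_sub_distrib, tD, tD1, tA, tA0]
  simp only [ns, totP, totQ, Fintype.sum_sum_type, Finset.sum_sub_distrib, Finset.sum_add_distrib,
    Fintype.sum_bool, Bool.not_true, Bool.not_false]
  ring

/-- Weights of the single main variables. -/
def sL (K : ℕ) : F8 → ℕ
  | .inl _ => 138 * K + 2
  | .inr _ => 142 * K + 1

lemma W_conc {f : Finset (Bool × Yv F8 F8) → ℝ} (hf : f ∅ = 0) (K : ℕ) :
    Wf (cT sA sB sU) (cU sA sB sU) (cW (sL K) (145 * K + 1) K) f - (145 * K + 2) * f Finset.univ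
      = - ∑ e, ∑ i, fm f e (.inr i) + 2 * (145 * K + 1) * fdAll sA sB f
        - (145 * K + 2) * fd46 sA sB f + (145 * K + 2) * ind sA sB f
        + K * (∑ e, ∑ r, eA sA sB sU f e r + ∑ e, ∑ r, eB sA sB sU f e r) := by
  rw [Wf_eq sA sB sU hf]
  unfold ind eA eB
  simp only [Finset.sum_sub_distrib, tD1, tB, tB1']
  have h1 : ∀ e, ∑ v, (sL K v : ℝ) * fm f e v = (138 * K + 2) * ∑ i, fm f e (.inl i)
      + (142 * K + 1) * ∑ i, fm f e (.inr i) := by
    intro e
    simp [Fintype.sum_sum_type, sL, Finset.mul_sum]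
  simp only [h1, Fintype.sum_sum_type (fun v => fm f _ v), Fintype.sum_bool, Bool.not_true,
    Bool.not_false]
  push_cast
  ring

/-- The small root of `x ^ 2 - 3 x + 1`. -/
noncomputable def lam : ℝ := (3 - Real.sqrt 5) / 2

lemma lam_sq : lam ^ 2 = 3 * lam - 1 := by
  have := Real.sq_sqrt (show (0 : ℝ) ≤ 5 by norm_num)
  unfold lam
  nlinarith

lemma lam_bounds : 1 / 3 < lam ∧ lam < 1 / 2 := by
  have h1 : 2 < Real.sqrt 5 := Real.lt_sqrt_of_sq_lt (by norm_num)
  have h2 : Real.sqrt 5 < 7 / 3 := (Real.sqrt_lt' (by norm_num)).2 (by norm_num)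
  unfold lam
  constructor <;> linarith

/-- The fractional part of the exponent. -/
noncomputable def theta : ℝ := lam / (291 - 51 * lam)

lemma theta_mul : theta * (291 - 51 * lam) = lam := by
  have := lam_bounds
  unfold theta
  rw [div_mul_cancel₀]
  linarith

lemma theta_bounds : 0 < theta ∧ theta < 1 / 200 := by
  have := lam_bounds
  unfold theta
  constructor
  · apply div_pos <;> linarith
  · rw [div_lt_iff₀ (by linarith)]
    linarith

lemma theta_irrational : Irrational theta := by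
  rintro ⟨q, hq⟩
  have h1 := theta_mul
  have h2 := theta_bounds
  have h5 : Irrational (Real.sqrt 5) := by
    have : Nat.Prime 5 := by norm_num
    exact_mod_cast this.irrational_sqrt
  apply h5
  refine ⟨3 - 2 * (291 * q / (1 + 51 * q)), ?_⟩
  have h3 : (1 + 51 * theta) ≠ 0 := by linarith
  have h4 : lam = 291 * theta / (1 + 51 * theta) := by
    rw [eq_div_iff h3]
    linarith
  push_cast
  rw [hq, ← h4]
  unfold lam
  ring

lemma seq_bound (a : ℕ → ℝ) (E : ℝ) (hE : 0 ≤ E) (m : ℕ)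
    (h : ∀ n, n + 2 < m → 3 * a (n + 1) ≤ a n + a (n + 2) + (n + 3) * E) (j : ℕ) :
    ∀ n, n + j + 1 < m → a (n + 1) - lam * a n
      ≤ lam ^ j * (a (n + j + 1) - lam * a (n + j)) + (n + 4) * E := by
  have hl := lam_bounds
  have hq := lam_sq
  induction j with
  | zero =>
    intro n _
    have : 0 ≤ ((n : ℝ) + 4) * E := by positivity
    simp
    linarith
  | succ j ih =>
    intro n hn
    have h1 := ih (n + 1) (by omega)
    have h2 := h n (by omega)
    have e1 : n + 1 + j = n + (j + 1) := by ring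
    rw [e1] at h1
    have h3 : a (n + 1) - lam * a n ≤ lam * ((a (n + 1 + 1) - lam * a (n + 1)) + (n + 3) * E) := by
      have : lam * (3 * a (n + 1)) ≤ lam * (a n + a (n + 2) + (n + 3) * E) :=
        mul_le_mul_of_nonneg_left h2 (by linarith)
      have e2 : lam * (lam * a (n + 1)) = (3 * lam - 1) * a (n + 1) := by rw [← hq]; ring
      nlinarith
    have h4 := mul_le_mul_of_nonneg_left h1 (show 0 ≤ lam by linarith)
    have h5 : lam * ((2 * n + 8) * E) ≤ 1 / 2 * ((2 * n + 8) * E) :=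
      mul_le_mul_of_nonneg_right hl.2.le (by positivity)
    push_cast at h4
    rw [pow_succ]
    nlinarith

theorem ub_conc {Ω α ζ : Type} [Fintype Ω] {p : Ω → ℝ} (hp : IsProb p)
    (Y : Bool × Yv F8 F8 → Ω → α) (Z : Ω → ζ) (ν : Bool × Yv F8 F8 → ℝ)
    {f : Finset (Bool × Yv F8 F8) → ℝ} (hfdef : f = fun S => cent p Y Z S - ∑ i ∈ S, ν i)
    (hf : Poly f) {K : ℕ} (hK : 4000000 ≤ K) :
    0 ≤ Wf (cT sA sB sU) (cU sA sB sU) (cW (sL K) (145 * K + 1) K) f
      + theta * Df (cT sA sB sU) (cU sA sB sU) f - (145 * K + 2) * f Finset.univ := by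
  obtain ⟨Kb, hKb⟩ := chain_out (A := sA) (B := sB) (up := sU) hp Y Z ν hfdef hf s_disj
    (κ := 200) (by simp; norm_num)
  obtain ⟨q0, q1, -, -, qa, qb⟩ := err_parts (A := sA) (B := sB) (up := sU) hf s_disj
  obtain ⟨-, -, -, -, -, -, p46, p0⟩ := fd_parts (A := sA) (B := sB) hf true
  have hi := ind_nonneg (A := sA) (B := sB) hf
  set Δ := err sA sB sU f with hΔdef
  have hΔ : 0 ≤ Δ := q0.trans q1
  have q3 : err0 sA sB f = ind sA sB f + fdAll sA sB f := rfl
  have hK' : (4000000 : ℝ) ≤ K := by exact_mod_cast hK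
  have hl := lam_bounds
  have hq := lam_sq
  have ht := theta_bounds
  have htm := theta_mul
  -- the penalty
  have w1 : - ∑ e, ∑ i, fm f e (.inr i) + K * Δ
      ≤ Wf (cT sA sB sU) (cU sA sB sU) (cW (sL K) (145 * K + 1) K) f
        - (145 * K + 2) * f Finset.univ := by
    rw [W_conc hf.empty, hΔdef]
    unfold err
    simp only [Finset.sum_add_distrib, Finset.sum_const, Finset.card_univ, Fintype.card_sum,
      Fintype.card_fin, Fintype.card_bool, nsmul_eq_mul, q3]
    push_cast
    have : (0 : ℝ) ≤ K := Nat.cast_nonneg K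
    nlinarith [mul_nonneg this (sub_nonneg.2 p46)]
  have main : ∀ j : ℕ, -(40 * |Kb| * ((j + 4) * lam ^ j))
      ≤ Wf (cT sA sB sU) (cU sA sB sU) (cW (sL K) (145 * K + 1) K) f
      + theta * Df (cT sA sB sU) (cU sA sB sU) f - (145 * K + 2) * f Finset.univ := by
    intro j
    choose z z0 zr zb zs zc zσ zm using fun e => hKb e (j + 4) (by omega)
    have d1 := Df_ge (cT sA sB sU) (cU sA sB sU) f (nφ sA sB sU z) (nψ sA sB sU z)
      (δ := 200 * Δ) (by positivity) (by
        rintro ⟨e, (v | r) | v⟩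
        · simp only [nφ, z0, fm]
          linarith
        · simp only [nφ, nσ, z0]
          exact zσ e r
        · simp only [nφ, ns, z0]
          exact zs e v) (by
        intro j
        rw [cT_union_cU]
        have l1 : ∀ e v, fm f e v + fm f (!e) v - 200 * Δ
            ≤ f {vx F8 e v, vx F8 (!e) v, vs F8 e v} := by
          intro e v
          have := lowb (A := sA) (B := sB) hf e {v} {v}
            (T := {vx F8 e v, vx F8 (!e) v, vs F8 e v}) (by simp [xs]) (by simp [xs])
          simp only [Finset.sum_singleton] at this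
          linarith
        have l2 : ∀ e r, ∑ v ∈ sA r ∪ sB r, fm f e v - 200 * Δ
            ≤ f ({vr F8 e r} ∪ xs F8 e (sA r ∪ sB r)) := by
          intro e r
          have := lowb (A := sA) (B := sB) hf e (sA r ∪ sB r) ∅
            (T := {vr F8 e r} ∪ xs F8 e (sA r ∪ sB r)) Finset.subset_union_right (by simp [xs])
          simp only [Finset.sum_empty] at this
          linarith
        obtain ⟨e, v⟩ | ⟨i, e, (v | v) | (r | r) | (r | r)⟩ | ⟨e, r | r⟩ := j
        all_goals simp only [cS, nψ, z0]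
        · unfold fm
          linarith
        exacts [l1 e v, l1 e v, l2 e r, l2 e r, l2 e r, zm e r, zc e r, zc e r])
    have d2 : ∑ j, (nψ sA sB sU z j + ∑ y ∈ cT sA sB sU j ∪ cU sA sB sU j, nφ sA sB sU z y)
      + 6 * ∑ y, nφ sA sB sU z y = nD sA sB sU z := rfl
    rw [d2, nD_conc] at d1
    simp only [Fintype.card_sum, Fintype.card_prod, Fintype.card_fin, Fintype.card_bool] at d1
    have d3 : f Finset.univ ≤ totP z 0 + totQ z 0 + Δ := by
      have hi' := hi
      unfold ind at hi'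
      simp only [totP, totQ, z0]
      simp only [Fintype.sum_sum_type (fun v => fm f _ v), Finset.sum_add_distrib] at hi'
      linarith
    have d4 : totQ z 0 = ∑ e, ∑ i, fm f e (.inr i) := by simp only [totQ, z0]
    have r1 : ∀ n, n + 1 < j + 4 →
        3 * totP z (n + 1) ≤ totP z n + totQ z (n + 1) + 8 * ((n + 2) * 200 * Δ) := by
      intro n hn
      have : ∀ e, 3 * ∑ i, z e (n + 1) (.inl i) ≤ ∑ i, z e n (.inl i)
          + ∑ i, z e (n + 1) (.inr i) + 4 * ((n + 2) * 200 * Δ) := by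
        intro e
        have := Finset.sum_le_sum fun (i : Fin 4) (_ : i ∈ Finset.univ) => zr e n hn (.inl i)
        rw [Finset.sum_add_distrib, tA1, tB1] at this
        simpa using this
      have h1 := this true
      have h2 := this false
      simp only [totP, totQ, Fintype.sum_bool]
      linarith
    have r2 : ∀ n, n + 1 < j + 4 → totQ z n ≤ totP z (n + 1) + 8 * ((n + 2) * 200 * Δ) := by
      intro n hn
      have : ∀ e, ∑ i, z e n (.inr i) ≤ ∑ i, z e (n + 1) (.inl i)
          + 4 * ((n + 2) * 200 * Δ) := by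
        intro e
        have := Finset.sum_le_sum fun (i : Fin 4) (_ : i ∈ Finset.univ) => zr e n hn (.inr i)
        rw [Finset.sum_add_distrib, tA2, tB2] at this
        simpa using this
      have h1 := this true
      have h2 := this false
      simp only [totP, totQ, Fintype.sum_bool]
      linarith
    have r3 : ∀ k < j + 4, |totP z k| ≤ 8 * ((j + 4) * |Kb|) := by
      intro k hk
      have b : ∀ e v, |z e k v| ≤ (j + 4) * |Kb| := by
        intro e v
        refine (zb e k hk v).trans ?_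
        have h1 : ((k : ℝ) + 1) ≤ j + 4 := by exact_mod_cast hk
        have h2 := le_abs_self Kb
        have h3 := abs_nonneg Kb
        have h4 : (0 : ℝ) ≤ k + 1 := by positivity
        nlinarith
      unfold totP
      refine (Finset.abs_sum_le_sum_abs _ _).trans ?_
      refine (Finset.sum_le_sum fun e _ => (Finset.abs_sum_le_sum_abs _ _).trans
        (Finset.sum_le_sum fun i _ => b e _)).trans (le_of_eq ?_)
      simp
      ring
    have sb := seq_bound (totP z) (3200 * Δ) (by positivity) (j + 4) (by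
      intro n hn
      have h1 := r1 n (by omega)
      have h2 := r2 (n + 1) (by omega)
      push_cast at h2
      have : n + 1 + 1 = n + 2 := rfl
      rw [this] at h2
      nlinarith) j
    have hpow : 0 ≤ lam ^ j := pow_nonneg (by linarith) j
    have tail : ∀ n ≤ 1, lam ^ j * (totP z (n + j + 1) - lam * totP z (n + j))
        ≤ 16 * |Kb| * ((j + 4) * lam ^ j) := by
      intro n hn
      have h1 := abs_le.1 (r3 (n + j + 1) (by omega))
      have h2 := abs_le.1 (r3 (n + j) (by omega))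
      have h3 : 0 ≤ 8 * (((j : ℝ) + 4) * |Kb|) := by positivity
      have h4 : totP z (n + j + 1) - lam * totP z (n + j) ≤ 16 * ((j + 4) * |Kb|) := by
        nlinarith
      have := mul_le_mul_of_nonneg_left h4 hpow
      linarith
    have u0 := (sb 0 (by omega)).trans (add_le_add (tail 0 (by omega)) le_rfl)
    have u1 := (sb 1 (by omega)).trans (add_le_add (tail 1 le_rfl) le_rfl)
    have v0 := r2 0 (by omega)
    have v1 := r2 1 (by omega)
    set ε := |Kb| * ((j + 4) * lam ^ j) with hε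
    have hε0 : 0 ≤ ε := by positivity
    have e1 : 16 * |Kb| * ((j + 4) * lam ^ j) = 16 * ε := by rw [hε]; ring
    have e2 : 40 * |Kb| * ((j + 4) * lam ^ j) = 40 * ε := by rw [hε]; ring
    rw [e1] at u0 u1
    rw [e2]
    push_cast at u0 u1 v0 v1 d1
    simp only [zero_add] at u0 v0
    set P0 := totP z 0
    set P1 := totP z 1
    set P2 := totP z 2
    set Q0 := totQ z 0
    set Q1 := totQ z 1
    set D := Df (cT sA sB sU) (cU sA sB sU) f
    have f1 : 267 * P0 + 109 * Q0 - 88 * P1 - 18 * Q1 - 6 * P2 - 2409601 * Δ ≤ D := by linarith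
    have f2 := mul_le_mul_of_nonneg_left f1 ht.1.le
    have f3 := mul_le_mul_of_nonneg_left v0 (show 0 ≤ 1 - 109 * theta by linarith)
    have f4 := mul_le_mul_of_nonneg_left v1 (show 0 ≤ 18 * theta by linarith)
    have f5 := mul_le_mul_of_nonneg_left u1 (show 0 ≤ 24 * theta by linarith)
    have f6 := mul_le_mul_of_nonneg_left u0
      (show 0 ≤ 1 - 21 * theta + 24 * theta * lam by nlinarith)
    have f7 : (lam * (1 - 21 * theta + 24 * theta * lam) - 267 * theta) * P0 = 0 := by
      have : lam * (1 - 21 * theta + 24 * theta * lam) - 267 * theta = 0 := by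
        have : theta * lam ^ 2 = theta * (3 * lam - 1) := by rw [hq]
        nlinarith
      rw [this, zero_mul]
    have g1 := mul_le_mul_of_nonneg_right ht.2.le hΔ
    have g2 := mul_le_mul_of_nonneg_right ht.2.le hε0
    have g3 := mul_nonneg ht.1.le hΔ
    have g4 := mul_nonneg ht.1.le hε0
    have g5 := mul_le_mul_of_nonneg_right hl.2.le g3
    have g6 := mul_le_mul_of_nonneg_right hl.2.le g4
    have g7 := mul_le_mul_of_nonneg_right hK' hΔ
    rw [← d4] at w1
    clear_value P0 P1 P2 Q0 Q1 D ε Δ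
    linarith
  have lim : Filter.Tendsto (fun j : ℕ => -(40 * |Kb| * (((j : ℝ) + 4) * lam ^ j))) Filter.atTop
      (nhds (-(40 * |Kb| * (0 + 4 * 0)))) := by
    refine Filter.Tendsto.neg (Filter.Tendsto.const_mul _ ?_)
    have t1 := tendsto_self_mul_const_pow_of_lt_one (r := lam) (by linarith) (by linarith)
    have t2 := (tendsto_pow_atTop_nhds_zero_of_lt_one (r := lam) (by linarith)
      (by linarith)).const_mul 4
    refine (t1.add t2).congr fun j => ?_
    ring
  simpa using le_of_tendsto' lim main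

end Pool.Agent.Lib.MP_3b2820_co
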