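import Pool.Agent.Lib.MP_3b2820_co.Model2
import Pool.Agent.Lib.MP_3b2820_co.Conc

/-!
Models of the concrete system built from even indexed Fibonacci numbers.
-/

set_option autoImplicit false
set_option linter.unusedSectionVars false

open Finset

namespace Pool.Agent.Lib.MP_3b2820_co

/-- Even indexed Fibonacci numbers. -/
def ef (n : ℕ) : ℕ := Nat.fib (2 * n)

lemma ef_rec (n : ℕ) : ef (n + 2) + ef n = 3 * ef (n + 1) := by
  unfold ef
  have e1 : 2 * (n + 2) = 2 * n + 2 + 2 := by ring
  have e2 : 2 * (n + 1) = 2 * n + 2 := by ring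
  rw [e1, e2, Nat.fib_add_two (n := 2 * n + 2), Nat.fib_add_two (n := 2 * n + 1),
    Nat.fib_add_two (n := 2 * n)]
  ring

lemma ef_succ (n : ℕ) : ef (n + 1) = ef n + Nat.fib (2 * n + 1) := by
  unfold ef
  have e2 : 2 * (n + 1) = 2 * n + 2 := by ring
  rw [e2, Nat.fib_add_two]

lemma ef_sum (n : ℕ) : ∑ i ∈ Finset.range (n + 1), ef i + 1 = Nat.fib (2 * n + 1) := by
  induction n with
  | zero => simp [ef]
  | succ n ih =>
    rw [Finset.sum_range_succ, add_right_comm, ih]
    have e1 : 2 * (n + 1) + 1 = 2 * n + 1 + 2 := by ring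
    rw [e1, Nat.fib_add_two]
    rfl

lemma ef_tri (n : ℕ) : ∑ i ∈ Finset.range n, ef i * (n - i) + n = ef n := by
  induction n with
  | zero => simp [ef]
  | succ n ih =>
    have e : ∑ i ∈ Finset.range (n + 1), ef i * (n + 1 - i)
        = ∑ i ∈ Finset.range (n + 1), ef i * (n - i) + ∑ i ∈ Finset.range (n + 1), ef i := by
      rw [← Finset.sum_add_distrib]
      refine Finset.sum_congr rfl fun i hi => ?_
      have := Finset.mem_range.1 hi
      have : n + 1 - i = n - i + 1 := by omega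
      rw [this]
      ring
    have h1 := ef_sum n
    have h2 := ef_succ n
    rw [e, Finset.sum_range_succ (fun i => ef i * (n - i))]
    simp only [Nat.sub_self, mul_zero, add_zero]
    omega

lemma ef_ge (n : ℕ) : n * (n + 1) ≤ 2 * ef n := by
  induction n with
  | zero => simp
  | succ n ih =>
    have h1 := Nat.le_fib_add_one (2 * n + 1)
    have h2 : 0 < Nat.fib (2 * n + 1) := Nat.fib_pos.2 (by omega)
    have h3 : n + 1 ≤ Nat.fib (2 * n + 1) := by omega
    rw [ef_succ]
    nlinarith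

lemma ef_lam (n : ℕ) : |(ef n : ℝ) - lam * ef (n + 1)| ≤ 1 := by
  have hl := lam_bounds
  have hq := lam_sq
  induction n with
  | zero =>
    have : ef 1 = 1 := by simp [ef]
    simp only [ef, mul_zero, Nat.fib_zero, zero_add, mul_one]
    rw [abs_le]
    norm_num
    constructor <;> linarith
  | succ n ih =>
    have h1 : (ef (n + 2) : ℝ) + ef n = 3 * ef (n + 1) := by exact_mod_cast ef_rec n
    have h2 : (ef (n + 1) : ℝ) - lam * ef (n + 1 + 1) = lam * (ef n - lam * ef (n + 1)) := by
      have : (ef (n + 1 + 1) : ℝ) = 3 * ef (n + 1) - ef n := by linarith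
      rw [this]
      linear_combination (ef (n + 1) : ℝ) * hq
    rw [h2, abs_mul, abs_of_pos (by linarith)]
    nlinarith [abs_nonneg ((ef n : ℝ) - lam * ef (n + 1))]

/-- Chains of the model. -/
abbrev Ch (W : ℕ) : Type := (k : Fin (W + 1)) × Fin (ef (W - k))

/-- Length of a chain. -/
def chLen (W : ℕ) (γ : Ch W) : ℕ := γ.1

/-- Offsets of the nodes. -/
def sτ : F8 → ℕ
  | .inl _ => 0
  | .inr _ => 1

lemma ch_count (W j : ℕ) : (Finset.univ.filter fun γ : Ch W => chLen W γ = j).card = ef (W - j) := by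
  rw [Finset.card_filter, Fintype.sum_sigma]
  have e : ∀ k : Fin (W + 1), (∑ c : Fin (ef (W - k)), if chLen W ⟨k, c⟩ = j then 1 else 0)
      = if (k : ℕ) = j then ef (W - k) else 0 := by
    intro k
    by_cases h : (k : ℕ) = j
    · simp [chLen, h]
    · simp [chLen, h]
  simp only [e]
  rw [Fin.sum_univ_eq_sum_range (fun k => if k = j then ef (W - k) else 0), Finset.sum_ite_eq']
  split_ifs with h
  · rfl
  · have : W - j = 0 := by
      simp only [Finset.mem_range] at h
      omega
    rw [this]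
    rfl

lemma ch_dim (n j : ℕ) : ∑ γ : Ch (n + j), ((chLen (n + j) γ - j : ℕ) : ℝ) = ef n - n := by
  have h : ∑ γ : Ch (n + j), (chLen (n + j) γ - j) = ∑ i ∈ Finset.range n, ef i * (n - i) := by
    rw [Fintype.sum_sigma]
    simp only [chLen, Finset.sum_const, Finset.card_univ, Fintype.card_fin, smul_eq_mul]
    rw [Fin.sum_univ_eq_sum_range (fun k => ef (n + j - k) * (k - j)),
      ← Finset.sum_range_reflect]
    symm
    refine (Finset.sum_subset (Finset.range_subset_range.2 (show n ≤ n + j + 1 by omega))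
      fun i _ hi => ?_).trans (Finset.sum_congr rfl fun i hi => ?_)
    · have : n - i = 0 := by
        simp only [Finset.mem_range] at hi
        omega
      rw [this, mul_zero]
    · have := Finset.mem_range.1 hi
      congr 1
      · congr 1
        omega
      · omega
  rw [← Nat.cast_sum, h, eq_sub_iff_add_eq, ← Nat.cast_add, ef_tri n]

lemma ch_match (W : ℕ) : ∃ src, Match sτ (chLen W) sA sB sU src := by
  refine exists_match fun r k _ => ?_
  simp only [ch_count]
  rcases r with i | i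
  · have h1 : ∑ a ∈ sA (.inl i), ef (W - (k + sτ a + (sU (.inl i) a).toNat))
        = 3 * ef (W - (k + 1)) := by
      simp only [sA]
      rw [Finset.sum_image (fun a _ b _ h => Sum.inl_injective h),
        Finset.sum_congr rfl (g := fun _ => ef (W - (k + 1))) (fun j hj => by
          simp [sτ, sU, (Finset.mem_erase.1 hj).1])]
      simp
    rw [h1]
    simp only [sB]
    rw [Finset.sum_pair (by simp)]
    simp only [sτ, sU, ne_eq, not_true_eq_false, decide_false, Bool.toNat_false, Bool.toNat_true,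
      add_zero]
    by_cases h : k + 2 ≤ W
    · obtain ⟨m, rfl⟩ := Nat.exists_eq_add_of_le h
      have := ef_rec m
      have e1 : k + 2 + m - (k + 1) = m + 1 := by omega
      have e2 : k + 2 + m - k = m + 2 := by omega
      have e3 : k + 2 + m - (k + 1 + 1) = m := by omega
      rw [e1, e2, e3]
      omega
    · have e1 : W - (k + 1) = 0 := by omega
      rw [e1]
      simp [ef]
  · simp [sA, sB, sτ, sU]

theorem lb_conc (K : ℕ) {θ : ℝ} (h0 : 0 ≤ θ) (hθ : θ < theta) (C : ℝ) :
    ∃ (Ω : Type) (_ : AddCommGroup Ω) (_ : Finite Ω) (L : Bool × Yv F8 F8 → AddSubgroup Ω),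
      (∀ ω, (∀ y, ω ∈ L y) → ω = 0) ∧
      Wf (cT sA sB sU) (cU sA sB sU) (cW (sL K) (145 * K + 1) K) (rk L)
        + θ * Df (cT sA sB sU) (cU sA sB sU) (rk L) + C < (145 * K + 2) * rk L Finset.univ := by
  have hl := lam_bounds
  have hq := lam_sq
  have ht := theta_bounds
  have htm := theta_mul
  have l2 : (1 : ℝ) / 2 < Real.log 2 := by have := Real.log_two_gt_d9; linarith
  set η := (theta - θ) * (291 - 51 * lam) with hη
  have hη0 : 0 < η := mul_pos (by linarith) (by linarith)
  obtain ⟨n, hn⟩ := exists_nat_gt ((|C| + 10) / η)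
  rw [div_lt_iff₀ hη0] at hn
  obtain ⟨src, hm⟩ := ch_match (n + 2)
  refine ⟨MG sτ (chLen (n + 2)), inferInstance, inferInstance, mK sτ (chLen (n + 2)) sA sB sU src,
    model_sep, ?_⟩
  set f := rk (mK sτ (chLen (n + 2)) sA sB sU src) with hf
  have z0 : ∀ i, mz sτ (chLen (n + 2)) 0 (.inl i) = (ef (n + 2) - (n + 2)) * Real.log 2 := by
    intro i
    have := ch_dim (n + 2) 0
    push_cast at this
    simp only [mz, sτ]
    rw [← this]
    rfl
  have z1 : ∀ i, mz sτ (chLen (n + 2)) 1 (.inl i) = (ef (n + 1) - (n + 1)) * Real.log 2 := by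
    intro i
    have := ch_dim (n + 1) 1
    push_cast at this
    simp only [mz, sτ]
    rw [← this]
    rfl
  have z2 : ∀ i, mz sτ (chLen (n + 2)) 2 (.inl i) = (ef n - n) * Real.log 2 := by
    intro i
    have := ch_dim n 2
    simp only [mz, sτ]
    rw [← this]
    rfl
  have y0 : ∀ i, mz sτ (chLen (n + 2)) 0 (.inr i) = (ef (n + 1) - (n + 1)) * Real.log 2 := by
    intro i
    rw [← z1 i]
    rfl
  have y1 : ∀ i, mz sτ (chLen (n + 2)) 1 (.inr i) = (ef n - n) * Real.log 2 := by
    intro i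
    rw [← z2 i]
    rfl
  have d1 := model_Df hm s_disj
  have d2 := model_univ (τ := sτ) (len := chLen (n + 2)) (A := sA) (B := sB) (up := sU)
    (src := src)
  have d3 := model_fd hm
  have d4 : ∑ e, ∑ v, (sL K v : ℝ) * fm f e v
      ≤ ∑ _e : Bool, ∑ v, (sL K v : ℝ) * mz sτ (chLen (n + 2)) 0 v :=
    Finset.sum_le_sum fun e _ => Finset.sum_le_sum fun v _ =>
      mul_le_mul_of_nonneg_left (model_fm e v) (Nat.cast_nonneg _)
  have d5 := Finset.sum_le_sum fun e (_ : e ∈ Finset.univ) =>
    Finset.sum_le_sum fun r (_ : r ∈ Finset.univ) => model_cA hm e r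
  have d6 := Finset.sum_le_sum fun e (_ : e ∈ Finset.univ) =>
    Finset.sum_le_sum fun r (_ : r ∈ Finset.univ) => model_cB hm e r
  have d7 : ∑ v, (sL K v : ℝ) * mz sτ (chLen (n + 2)) 0 v
      = (138 * K + 2) * (4 * ((ef (n + 2) - (n + 2)) * Real.log 2))
        + (142 * K + 1) * (4 * ((ef (n + 1) - (n + 1)) * Real.log 2)) := by
    simp only [Fintype.sum_sum_type, sL, z0, y0, Finset.sum_const, Finset.card_univ,
      Fintype.card_fin, nsmul_eq_mul]
    push_cast
    ring
  rw [d7] at d4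
  rw [nD_conc] at d1
  simp only [Finset.sum_add_distrib, tD1, tB, tB1'] at d5 d6
  rw [Wf_eq sA sB sU (rk_empty _)]
  rw [← hf] at d1 d2 d3 d5 d6 ⊢
  simp only [totP, totQ, Fintype.sum_sum_type (fun v => mz sτ (chLen (n + 2)) 0 v),
    z0, z1, z2, y0, y1, Finset.sum_const, Finset.card_univ, Fintype.card_fin, Fintype.card_bool,
    nsmul_eq_mul] at d1 d2 d4 d5 d6
  have hK : (0 : ℝ) ≤ K := Nat.cast_nonneg K
  have e1 := mul_le_mul_of_nonneg_left (add_le_add d5 d6) hK
  have e2 := mul_le_mul_of_nonneg_left d3 (show (0 : ℝ) ≤ 2 * (145 * K + 1) by positivity)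
  have e3 := mul_le_mul_of_nonneg_left d1 h0
  have a1 : (ef (n + 2) : ℝ) + ef n = 3 * ef (n + 1) := by exact_mod_cast ef_rec n
  have a2 := abs_le.1 (ef_lam (n + 1))
  have a3 : ((n : ℝ) + 2) * (n + 2 + 1) ≤ 2 * ef (n + 2) := by exact_mod_cast ef_ge (n + 2)
  have hn0 : (0 : ℝ) ≤ n := Nat.cast_nonneg n
  have hC := le_abs_self C
  have hC0 := abs_nonneg C
  have key : -((ef (n + 1) : ℝ) - (n + 1)) + θ * (267 * (ef (n + 2) - (n + 2))
      + 21 * (ef (n + 1) - (n + 1)) - 24 * (ef n - n)) < -|C| := by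
    have b1 : (ef n : ℝ) = 3 * ef (n + 1) - ef (n + 2) := by linarith
    have b0 : n + 1 + 1 = n + 2 := rfl
    rw [b0] at a2
    obtain ⟨u, hu⟩ : ∃ u : ℝ, (ef (n + 1) : ℝ) = lam * ef (n + 2) + u := ⟨_, (add_sub_cancel _ _).symm⟩
    have u1 : -1 ≤ u := by linarith
    have b2 : (θ * (291 - 51 * lam) - lam) * ef (n + 2) = -(η * ef (n + 2)) := by
      rw [hη]
      linear_combination (ef (n + 2) : ℝ) * htm
    have b3 := mul_le_mul_of_nonneg_left a3 hη0.le
    have b4 := mul_le_mul_of_nonneg_left u1 h0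
    have b5 := mul_nonneg h0 hn0
    have b6 := mul_le_mul_of_nonneg_right hn.le (show (0 : ℝ) ≤ n + 5 by positivity)
    have b7 := mul_nonneg hC0 hn0
    rw [b1, hu]
    nlinarith
  have key2 := mul_lt_mul_of_pos_right key (show 0 < 8 * Real.log 2 by linarith)
  have key3 := mul_le_mul_of_nonneg_left l2.le hC0
  push_cast at *
  rw [d2]
  linarith

end Pool.Agent.Lib.MP_3b2820_co
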