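import Mathlib

/-!
Graphons and homomorphism densities.
-/

set_option autoImplicit false

namespace Pool.Agent.Lib.MP_3b2820_co

/-- A graphon: a symmetric Lebesgue measurable function from the unit square to `[0, 1]`. -/
def IsGraphon (W : unitInterval → unitInterval → ℝ) : Prop :=
  AEMeasurable (Function.uncurry W) ∧ (∀ x y, W x y = W y x) ∧ ∀ x y, 0 ≤ W x y ∧ W x y ≤ 1

open Classical in
/-- The homomorphism density `t(F, W)`: the integral over the unit cube of the product of
`W (x i) (x j)` over the edges `i j` of `F`, each edge taken once with `i < j`. -/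
noncomputable def homDensity {k : ℕ} (F : SimpleGraph (Fin k))
    (W : unitInterval → unitInterval → ℝ) : ℝ :=
  ∫ x : Fin k → unitInterval,
    ∏ p ∈ Finset.univ.filter (fun p : Fin k × Fin k => p.1 < p.2 ∧ F.Adj p.1 p.2), W (x p.1) (x p.2)

end Pool.Agent.Lib.MP_3b2820_co
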