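import Pool.Agent.Lib.MP_3b2820_co.Poly

/-!
Homomorphism counts, one vertex extensions and their disjoint unions.
-/

set_option autoImplicit false
set_option linter.unusedSectionVars false

open Finset

namespace Pool.Agent.Lib.MP_3b2820_co

/-- Adjacency preserving maps. -/
def Hom {W α : Type} (F : SimpleGraph W) (T : SimpleGraph α) : Type :=
  {φ : W → α // ∀ u v, F.Adj u v → T.Adj (φ u) (φ v)}

instance homFinite {W α : Type} [Finite W] [Finite α] (F : SimpleGraph W) (T : SimpleGraph α) :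
    Finite (Hom F T) := by
  unfold Hom
  infer_instance

/-- Homomorphism density in a finite graph. -/
noncomputable def dens {W α : Type} (F : SimpleGraph W) (T : SimpleGraph α) : ℝ :=
  (Nat.card (Hom F T) : ℝ) / (Nat.card α : ℝ) ^ Nat.card W

/-- Adjacency of a graph with one new vertex. -/
def extAdj {V : Type} (G : SimpleGraph V) (N : Set V) : Option V → Option V → Prop
  | some u, some v => G.Adj u v
  | none, some v => v ∈ N
  | some u, none => u ∈ N
  | none, none => False

/-- A graph with one new vertex joined to a set. -/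
def extG {V : Type} (G : SimpleGraph V) (N : Set V) : SimpleGraph (Option V) where
  Adj := extAdj G N
  symm := ⟨by
    rintro (_ | u) (_ | v) h
    exacts [h, h, h, G.symm.symm _ _ h]⟩
  loopless := ⟨by
    rintro (_ | u) h
    exacts [h, G.loopless.irrefl _ h]⟩

/-- Disjoint union of graphs on the same vertex set. -/
def sumG {K W : Type} (F : K → SimpleGraph W) : SimpleGraph (K × W) where
  Adj a b := a.1 = b.1 ∧ (F a.1).Adj a.2 b.2
  symm := ⟨by
    rintro ⟨k, a⟩ ⟨k', b⟩ ⟨h1, h2⟩
    simp only at h1 h2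
    subst h1
    exact ⟨rfl, h2.symm⟩⟩
  loopless := ⟨fun a h => (F a.1).loopless.irrefl _ h.2⟩

lemma card_hom_sumG {K W α : Type} [Fintype K] (F : K → SimpleGraph W) (T : SimpleGraph α) :
    Nat.card (Hom (sumG F) T) = ∏ k, Nat.card (Hom (F k) T) := by
  rw [← Nat.card_pi]
  refine Nat.card_congr
    { toFun := fun φ k => ⟨fun w => φ.1 (k, w), fun u v h => φ.2 _ _ ⟨rfl, h⟩⟩
      invFun := fun ψ => ⟨fun a => (ψ a.1).1 a.2, ?_⟩
      left_inv := fun φ => rfl
      right_inv := fun ψ => rfl }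
  rintro ⟨k, a⟩ ⟨k', b⟩ ⟨h1, h2⟩
  simp only at h1 h2
  subst h1
  exact (ψ k).2 _ _ h2

lemma card_hom_le {W α : Type} [Finite W] [Finite α] (F : SimpleGraph W) (T : SimpleGraph α) :
    Nat.card (Hom F T) ≤ Nat.card α ^ Nat.card W := by
  rw [← Nat.card_fun]
  exact Nat.card_le_card_of_injective (fun φ : Hom F T => φ.1) Subtype.val_injective

lemma dens_nonneg {W α : Type} (F : SimpleGraph W) (T : SimpleGraph α) : 0 ≤ dens F T := by
  unfold dens
  positivity

lemma dens_le_one {W α : Type} [Finite W] [Finite α] (F : SimpleGraph W) (T : SimpleGraph α) :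
    dens F T ≤ 1 := by
  unfold dens
  refine div_le_one_of_le₀ ?_ (by positivity)
  exact_mod_cast card_hom_le F T

lemma dens_comap {W W' α : Type} (e : W' ≃ W) (F : SimpleGraph W) (T : SimpleGraph α) :
    dens (F.comap e) T = dens F T := by
  unfold dens
  rw [Nat.card_congr e]
  congr 2
  refine Nat.card_congr
    { toFun := fun φ => ⟨fun w => φ.1 (e.symm w), fun u v h => φ.2 _ _ (by simpa using h)⟩
      invFun := fun ψ => ⟨fun a => ψ.1 (e a), fun u v h => ψ.2 _ _ h⟩
      left_inv := fun φ => Subtype.ext (funext fun a => by simp)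
      right_inv := fun ψ => Subtype.ext (funext fun a => by simp) }

lemma copy_bound {Ω ι α ζ β : Type} [Fintype Ω] [Nonempty Ω] [DecidableEq ι] [Finite β]
    (Y : ι → Ω → α) (Z : Ω → ζ) (v : ι) (N : Finset ι)
    (X : (a b : Ω) → agr Y Z N a b → β)
    (hX : ∀ a b h a' b' h', X a b h = X a' b' h' → a = a' ∧ Y v b = Y v b') :
    Real.log (Fintype.card Ω) + cnd (cent (unif Ω) Y Z) {v} N ≤ Real.log (Nat.card β) := by
  classical
  have := Fintype.ofFinite β
  let a : Ω → ζ × (N → α) := fun ω => (Z ω, fun i => Y i ω)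
  have ha : ∀ x y, agr Y Z N x y ↔ a x = a y := by
    intro x y
    simp [agr_iff, a, funext_iff]
  let μ : ζ × (N → α) → ℝ := fun c => ∑ b, if a b = c then unif Ω b else 0
  have h₂ : Push (unif Ω) a μ := fun c => by
    simp only [μ]
    refine Finset.sum_congr rfl fun b _ => ?_
    congr
  let R : Setoid (Glue a a) :=
    { r := fun x y => x.1.1 = y.1.1 ∧ agr Y Z ({v} ∪ N) x.1.2 y.1.2
      iseqv := ⟨fun _ => ⟨rfl, (agr Y Z _).refl' _⟩, fun h => ⟨h.1.symm, (agr Y Z _).symm' h.2⟩,
        fun h h' => ⟨h.1.trans h'.1, (agr Y Z _).trans' h.2 h'.2⟩⟩ }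
  have h1 := glue_entR unif_prob unif_prob h₂ h₂ (R₁ := ⊥) (Q₁ := agr Y Z N)
    (R₂ := agr Y Z ({v} ∪ N)) (R := R) (fun x y h => by rw [show x = y from h])
    (fun x y h => (ha x y).1 (agr_anti Y Z Finset.subset_union_right h)) ha (fun x y => Iff.rfl)
  have h2 := entR_le_log_card (glue_prob unif_prob unif_prob h₂ h₂)
    (fun x : Glue a a => X x.1.1 x.1.2 ((ha _ _).2 x.2)) (R := R) (fun x y h => by
      obtain ⟨h3, h4⟩ := hX _ _ _ _ _ _ h
      have h5 : a x.1.2 = a y.1.2 := by rw [← x.2, ← y.2, h3]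
      have h6 := (ha _ _).2 h5
      refine ⟨h3, h6.1, fun i hi => ?_⟩
      rcases Finset.mem_union.1 hi with h | h
      · rw [Finset.mem_singleton.1 h]
        exact h4
      · exact h6.2 i h)
  rw [h1, entR_unif (fun a b h => h)] at h2
  rw [Nat.card_eq_fintype_card]
  unfold cnd cent
  linarith

lemma log_card_le {Ω ι α ζ : Type} [Fintype Ω] [Nonempty Ω] [Fintype ι] [Fintype ζ]
    (Y : ι → Ω → α) (Z : Ω → ζ) (hsep : ∀ a b, agr Y Z Finset.univ a b → a = b) :
    Real.log (Fintype.card Ω) ≤ cent (unif Ω) Y Z Finset.univ + Real.log (Fintype.card ζ) := by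
  have h1 := entR_le_log_card unif_prob Z (R := agr Y Z ∅) (fun a b h => ⟨h, by simp⟩)
  unfold cent
  rw [entR_unif hsep]
  linarith

lemma card_le_mul_of_fiber {A B Ω : Type} [Finite A] [Finite B] [AddCommGroup Ω] [Finite Ω]
    (res : A → B) (val : A → Ω) (K : AddSubgroup Ω)
    (h1 : ∀ a a', res a = res a' → val a - val a' ∈ K)
    (h2 : ∀ a a', res a = res a' → val a = val a' → a = a') :
    Nat.card A ≤ Nat.card B * Nat.card K := by
  classical
  rw [← Nat.card_prod]
  let s : A → A := fun a => Classical.choose (⟨a, rfl⟩ : ∃ a', res a' = res a)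
  have hs : ∀ a, res (s a) = res a := fun a =>
    Classical.choose_spec (⟨a, rfl⟩ : ∃ a', res a' = res a)
  have hs2 : ∀ a a', res a = res a' → s a = s a' := by
    intro a a' h
    simp only [s, h]
  refine Nat.card_le_card_of_injective
    (fun a => (res a, (⟨val a - val (s a), h1 _ _ (hs a).symm⟩ : K))) (fun a a' h => ?_)
  simp only [Prod.mk.injEq, Subtype.mk.injEq] at h
  refine h2 a a' h.1 ?_
  have := h.2
  rw [hs2 a a' h.1] at this
  exact sub_left_injective this

end Pool.Agent.Lib.MP_3b2820_co
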