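import Mathlib

/-!
A rigid anchor: the square of a cycle whose length is not divisible by three.
-/

set_option autoImplicit false
set_option linter.unusedSectionVars false

open Finset

namespace Pool.Agent.Lib.MP_3b2820_co

lemma zcast_inj {M : ℕ} {a b : ℤ} (h : (a : ZMod M) = b) (h1 : a - b < M) (h2 : b - a < M) :
    a = b := by
  have h3 := (ZMod.intCast_eq_intCast_iff_dvd_sub a b M).1 h
  have := Int.eq_zero_of_abs_lt_dvd h3 (abs_lt.2 ⟨by linarith, h2⟩)
  linarith

/-- Small steps. -/
def Small (d : ℤ) : Prop := d = 1 ∨ d = 2 ∨ d = -1 ∨ d = -2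

lemma wind_aux {m : ℕ} (ψ : ZMod (3 * m + 16) → ZMod (3 * m + 16)) (d : ZMod (3 * m + 16) → ℤ)
    (h1 : ∀ i, ψ (i + 1) = ψ i + d i) (h2 : ∀ i, d i = 1 ∨ d i = -2)
    (h3 : ∀ i, -1 ≤ d i + d (i + 1)) (i : ZMod (3 * m + 16)) : ψ i = ψ 0 + i := by
  have c : Fintype.card (ZMod (3 * m + 16)) = 3 * m + 16 := ZMod.card _
  have s1 : ∑ i, ψ (i + 1) = ∑ i, ψ i := Equiv.sum_comp (Equiv.addRight 1) ψ
  have s2 : ∑ i, d (i + 1) = ∑ i, d i := Equiv.sum_comp (Equiv.addRight 1) d
  simp only [h1, Finset.sum_add_distrib] at s1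
  have s3 : ((∑ i, d i : ℤ) : ZMod (3 * m + 16)) = 0 := by
    push_cast
    simpa using s1
  have s4 := (ZMod.intCast_zmod_eq_zero_iff_dvd _ _).1 s3
  have s5 : ∑ i : ZMod (3 * m + 16), (-1 : ℤ) ≤ ∑ i, (d i + d (i + 1)) :=
    Finset.sum_le_sum fun i _ => h3 i
  rw [Finset.sum_add_distrib, s2, Finset.sum_const, Finset.card_univ, c] at s5
  have s6 : (3 : ℤ) ∣ ∑ i, (1 - d i) :=
    Finset.dvd_sum fun i _ => by rcases h2 i with h | h <;> rw [h] <;> norm_num
  have s7 : ∀ i ∈ Finset.univ, 0 ≤ 1 - d i := fun i _ => by rcases h2 i with h | h <;> omega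
  have s8 := Finset.sum_nonneg s7
  have s9 : ∑ i, (1 - d i) = 3 * m + 16 - ∑ i, d i := by
    rw [Finset.sum_sub_distrib, Finset.sum_const, Finset.card_univ, c]
    simp
  have s10 : ∑ i, (1 - d i) = 0 := by
    obtain ⟨k, hk⟩ := s4
    rw [s9] at s6 s8 ⊢
    rw [hk] at s5 s6 s8 ⊢
    simp only [nsmul_eq_mul] at s5
    push_cast at s5 s6 s8 ⊢
    have k1 : k ≤ 1 := by nlinarith
    have k2 : -1 < k := by nlinarith
    have : k = 0 ∨ k = 1 := by omega
    rcases this with rfl | rfl <;> omega
  have s11 : ∀ i, d i = 1 := fun i => by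
    have := (Finset.sum_eq_zero_iff_of_nonneg s7).1 s10 i (Finset.mem_univ i)
    omega
  have s12 : ∀ n : ℕ, ψ n = ψ 0 + n := by
    intro n
    induction n with
    | zero => simp
    | succ n ih =>
      push_cast
      rw [h1, ih, s11]
      push_cast
      ring
  have := s12 i.val
  simpa using this

lemma wind {m : ℕ} (ψ : ZMod (3 * m + 16) → ZMod (3 * m + 16))
    (h1 : ∀ i, ∃ d, Small d ∧ ψ (i + 1) = ψ i + d)
    (h2 : ∀ i, ∃ d, Small d ∧ ψ (i + 1 + 1) = ψ i + d) :
    ∃ ε : ℤ, (ε = 1 ∨ ε = -1) ∧ ∀ i, ψ i = ψ 0 + ε * i := by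
  choose d hd h1 using h1
  have h3 : ∀ i, Small (d i + d (i + 1)) := by
    intro i
    obtain ⟨d', hd', h⟩ := h2 i
    rw [h1, h1, add_assoc, add_right_inj] at h
    have a1 := hd i
    have a2 := hd (i + 1)
    have : d i + d (i + 1) = d' := zcast_inj (M := 3 * m + 16) (by push_cast; exact h)
      (by unfold Small at *; push_cast; omega) (by unfold Small at *; push_cast; omega)
    rwa [this]
  have h4 : ∀ i, (d i = 1 ∨ d i = -2) ↔ (d 0 = 1 ∨ d 0 = -2) := by
    have : ∀ n : ℕ, (d n = 1 ∨ d n = -2) ↔ (d 0 = 1 ∨ d 0 = -2) := by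
      intro n
      induction n with
      | zero => simp
      | succ n ih =>
        rw [← ih]
        push_cast
        have a1 := hd n
        have a2 := hd (n + 1)
        have a3 := h3 n
        unfold Small at *
        omega
    intro i
    simpa using this i.val
  by_cases h0 : d 0 = 1 ∨ d 0 = -2
  · refine ⟨1, Or.inl rfl, fun i => ?_⟩
    have := wind_aux ψ d h1 (fun i => (h4 i).2 h0) (fun i => by
      have a1 := (h4 i).2 h0
      have a2 := (h4 (i + 1)).2 h0
      have a3 := h3 i
      unfold Small at *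
      omega) i
    simpa using this
  · refine ⟨-1, Or.inr rfl, fun i => ?_⟩
    have b : ∀ i, -d i = 1 ∨ -d i = -2 := fun i => by
      have a1 := hd i
      have a2 := mt (h4 i).1 h0
      unfold Small at *
      omega
    have := wind_aux (fun i => -ψ i) (fun i => -d i) (fun i => by
      simp only [h1]
      push_cast
      ring) b (fun i => by
      have a1 := b i
      have a2 := b (i + 1)
      have a3 := h3 i
      unfold Small at *
      omega) i
    push_cast
    linear_combination -this

section anchored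
variable {Ty : Type} [Fintype Ty] (Gn : SimpleGraph Ty) (side : Ty → Bool)

/-- An injective numbering. -/
noncomputable def code (t : Ty) : ℕ := (Fintype.equivFin Ty t).val

lemma code_lt (t : Ty) : code t < Fintype.card Ty := (Fintype.equivFin Ty t).isLt

lemma code_inj {t t' : Ty} (h : code t = code t') : t = t' :=
  (Fintype.equivFin Ty).injective (Fin.ext h)

/-- The anchors. -/
abbrev Anc (Ty : Type) [Fintype Ty] : Type := ZMod (3 * Fintype.card Ty + 16)

/-- First anchor of a type. -/
def an1 (t : Ty) : ℤ := if side t then -1 else 0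

/-- Second anchor of a type. -/
noncomputable def an2 (t : Ty) : ℤ := if side t then -6 - code t else 5 + code t

/-- Adjacency of the anchored graph. -/
def ancAdj : Anc Ty ⊕ Ty → Anc Ty ⊕ Ty → Prop
  | .inl i, .inl j => ∃ d : ℤ, Small d ∧ j = i + d
  | .inl i, .inr t => i = an1 side t ∨ i = an2 side t
  | .inr t, .inl i => i = an1 side t ∨ i = an2 side t
  | .inr t, .inr t' => Gn.Adj t t'

/-- The anchored graph. -/
def ancG : SimpleGraph (Anc Ty ⊕ Ty) where
  Adj := ancAdj Gn side
  symm := ⟨by
    rintro (i | t) (j | t') h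
    · obtain ⟨d, hd, rfl⟩ := h
      exact ⟨-d, by unfold Small at *; omega, by push_cast; ring⟩
    · exact h
    · exact h
    · exact Gn.symm.symm _ _ h⟩
  loopless := ⟨by
    rintro (i | t) h
    · obtain ⟨d, hd, h⟩ := h
      have h1 : ((0 : ℤ) : Anc Ty) = d := by
        push_cast
        linear_combination h
      have := zcast_inj h1 (by unfold Small at *; push_cast; omega)
        (by unfold Small at *; push_cast; omega)
      unfold Small at hd
      omega
    · exact Gn.loopless.irrefl _ h⟩

variable {Gn side}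

lemma an_cases (t : Ty) : (side t = true ∧ an1 side t = -1 ∧ an2 side t = -6 - code t) ∨
    (side t = false ∧ an1 side t = 0 ∧ an2 side t = 5 + code t) := by
  unfold an1 an2
  cases side t <;> simp

lemma tri_anchor (hside : ∀ t t', Gn.Adj t t' → side t ≠ side t') (t : Ty) (u v : Anc Ty ⊕ Ty)
    (h1 : (ancG Gn side).Adj (.inr t) u) (h2 : (ancG Gn side).Adj (.inr t) v)
    (h3 : (ancG Gn side).Adj u v) : False := by
  have mixed : ∀ (t t' : Ty) (i : Anc Ty), Gn.Adj t t' → (i = an1 side t ∨ i = an2 side t) →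
      (i = an1 side t' ∨ i = an2 side t') → False := by
    intro t t' i h a b
    have c1 := code_lt t
    have c2 := code_lt t'
    have c3 := hside t t' h
    have c4 := an_cases (side := side) t
    have c5 := an_cases (side := side) t'
    rcases a with a | a <;> rcases b with b | b <;>
    · have := zcast_inj (a.symm.trans b) (by push_cast; omega) (by push_cast; omega)
      rcases c4 with c4 | c4 <;> rcases c5 with c5 | c5 <;> simp_all <;> omega
  rcases u with i | t1 <;> rcases v with j | t2
  · obtain ⟨d, hd, h⟩ := h3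
    have c1 := code_lt t
    have c4 := an_cases (side := side) t
    unfold Small at hd
    rcases h1 with a | a <;> rcases h2 with b | b <;>
    · rw [a, b, ← Int.cast_add] at h
      have := zcast_inj h (by push_cast; omega) (by push_cast; omega)
      omega
  · exact mixed t t2 i h2 h1 h3
  · exact mixed t t1 j h1 h2 h3
  · have a1 := hside _ _ h1
    have a2 := hside _ _ h2
    have a3 := hside _ _ h3
    revert a1 a2 a3
    cases side t <;> cases side t1 <;> cases side t2 <;> simp

theorem rigid (hside : ∀ t t', Gn.Adj t t' → side t ≠ side t') (φ : Anc Ty → Anc Ty ⊕ Ty)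
    (hφ : ∀ i j, (ancG Gn side).Adj (.inl i) (.inl j) → (ancG Gn side).Adj (φ i) (φ j))
    (t : Ty) (w : Anc Ty ⊕ Ty) (h1 : (ancG Gn side).Adj w (φ (an1 side t)))
    (h2 : (ancG Gn side).Adj w (φ (an2 side t))) : w = .inr t := by
  have e1 : ∀ i, (ancG Gn side).Adj (φ i) (φ (i + 1)) :=
    fun i => hφ _ _ ⟨1, Or.inl rfl, by push_cast; ring⟩
  have e2 : ∀ i, (ancG Gn side).Adj (φ i) (φ (i + 1 + 1)) :=
    fun i => hφ _ _ ⟨2, Or.inr (Or.inl rfl), by push_cast; ring⟩
  have e3 : ∀ i, ∃ j, φ i = .inl j := by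
    intro i
    rcases h : φ i with j | t
    · exact ⟨j, rfl⟩
    · exact (tri_anchor hside t _ _ (h ▸ e1 i) (h ▸ e2 i) (e1 (i + 1))).elim
  choose ψ hψ using e3
  simp only [hψ] at e1 e2 h1 h2
  obtain ⟨ε, hε, hw⟩ := wind ψ e1 e2
  have c1 := code_lt t
  have c4 := an_cases (side := side) t
  have e4 : ψ (an2 side t) - ψ (an1 side t) = ((ε * (an2 side t - an1 side t) : ℤ) : Anc Ty) := by
    rw [hw (an1 side t), hw (an2 side t)]
    push_cast
    ring
  rcases w with k | t'
  · obtain ⟨d, hd, h⟩ := h1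
    obtain ⟨d', hd', h'⟩ := h2
    rw [h, h', add_sub_add_left_eq_sub, ← Int.cast_sub] at e4
    unfold Small at hd hd'
    rcases hε with rfl | rfl <;>
    · have := zcast_inj e4 (by push_cast; omega) (by push_cast; omega)
      omega
  · have c2 := code_lt t'
    have c5 := an_cases (side := side) t'
    refine congrArg _ (code_inj ?_)
    rcases h1 with a | a <;> rcases h2 with b | b <;> rcases hε with rfl | rfl <;>
    · rw [a, b, ← Int.cast_sub] at e4
      have := zcast_inj e4 (by push_cast; omega) (by push_cast; omega)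
      omega

end anchored

end Pool.Agent.Lib.MP_3b2820_co
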