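import Pool.Agent.Lib.MP_3b2820_co.Acct
import Pool.Agent.Lib.MP_3b2820_co.Rigid
import Pool.Agent.Lib.MP_3b2820_co.Homs

/-!
The two graphs that encode an entropy inequality, and the upper bound for the exponent.
-/

set_option autoImplicit false
set_option linter.unusedSectionVars false

open Finset

namespace Pool.Agent.Lib.MP_3b2820_co

section enc
variable {X J : Type} [DecidableEq X] [DecidableEq J] [Fintype X] [Fintype J]

/-- Types of vertices other than anchors. -/
abbrev Ty (X J : Type) : Type := X ⊕ Cen X J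

/-- Incidence between variables and centers. -/
def incAdj (T U : J → Finset X) : Ty X J → Ty X J → Prop
  | .inl y, .inr j => y ∈ eS T U j
  | .inr j, .inl y => y ∈ eS T U j
  | .inl _, .inl _ => False
  | .inr _, .inr _ => False

/-- The incidence graph. -/
def incG (T U : J → Finset X) : SimpleGraph (Ty X J) where
  Adj := incAdj T U
  symm := ⟨by rintro (a | a) (b | b) h <;> exact h⟩
  loopless := ⟨by rintro (a | a) h <;> exact h⟩

lemma inc_side (T U : J → Finset X) (t t' : Ty X J) (h : (incG T U).Adj t t') :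
    t.isRight ≠ t'.isRight := by
  rcases t with a | a <;> rcases t' with b | b
  · exact h.elim
  · simp
  · simp
  · exact h.elim

/-- The type of a vertex. -/
def typ (T U : J → Finset X) : Vt T U → Ty X J := Sum.map (fun l => l.1.2) id

/-- The graph of types. -/
def typG (T U : J → Finset X) : SimpleGraph (Anc (Ty X J) ⊕ Ty X J) :=
  ancG (incG T U) Sum.isRight

/-- The first graph. -/
def encG (T U : J → Finset X) : SimpleGraph (Anc (Ty X J) ⊕ Vt T U) :=
  (typG T U).comap (Sum.map id (typ T U))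

/-- Neighbours of a new vertex. -/
def nbS (T U : J → Finset X) (b : J → ℕ) (v : Vt T U) (i : ℕ) : Set (Anc (Ty X J) ⊕ Vt T U) :=
  {u | Sum.elim (fun a : Anc (Ty X J) => a = an1 Sum.isRight (typ T U v)
    ∨ a = an2 Sum.isRight (typ T U v)) (fun w => w ∈ nb T U b v i) u}

/-- The second graph. -/
def encH (T U : J → Finset X) (b : J → ℕ) (b0 : ℕ) :
    SimpleGraph ((Vt T U × Fin b0) × Option (Anc (Ty X J) ⊕ Vt T U)) :=
  sumG fun k => extG (encG T U) (nbS T U b k.1 k.2)

variable {T U : J → Finset X}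

lemma nbS_adj (b : J → ℕ) (v : Vt T U) (i : ℕ) (u : Anc (Ty X J) ⊕ Vt T U)
    (h : u ∈ nbS T U b v i) : (encG T U).Adj u (.inr v) := by
  rcases u with a | w
  · exact h
  · have h' : w ∈ nb T U b v i := h
    rcases v with l | j
    · rw [Finset.mem_singleton.1 h']
      exact l.2
    · obtain ⟨y, hy, rfl⟩ := Finset.mem_image.1 h'
      have : y ∈ eS T U j := by
        split_ifs at hy
        · exact eU_subset j hy
        · exact hy
      exact this

/-- The entropy inequality to be encoded. -/
def KeyIneq (T U : J → Finset X) (b : J → ℕ) (b0 : ℕ) (θ : ℝ) : Prop :=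
  ∀ (Ω α ζ : Type) [Fintype Ω] (p : Ω → ℝ) (Y : X → Ω → α) (Z : Ω → ζ) (ν : X → ℝ)
    (f : Finset X → ℝ), IsProb p → (f = fun S => cent p Y Z S - ∑ i ∈ S, ν i) → Poly f →
    0 ≤ Wf T U b f + θ * Df T U f - b0 * f Finset.univ

theorem enc_ub {b : J → ℕ} {b0 : ℕ} {θ : ℝ} (hb : ∀ j, b j + 1 ≤ b0) (hb0 : 2 ≤ b0)
    (hθ : 0 ≤ θ) (hθ1 : θ ≤ 1) (key : KeyIneq T U b b0 θ) {α : Type} [Fintype α] [Nonempty α]
    (Tg : SimpleGraph α) :
    dens (encG T U) Tg ^ ((Fintype.card (Vt T U) * b0 + b0 + θ : ℝ)) ≤ dens (encH T U b b0) Tg := by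
  classical
  have hb0' : (2 : ℝ) ≤ b0 := by exact_mod_cast hb0
  rcases isEmpty_or_nonempty (Hom (encG T U) Tg) with hE | hE
  · have : dens (encG T U) Tg = 0 := by simp [dens]
    rw [this, Real.zero_rpow (by positivity)]
    exact dens_nonneg _ _
  have := Fintype.ofFinite (Hom (encG T U) Tg)
  let Y : Vt T U → Hom (encG T U) Tg → α := fun v φ => φ.1 (.inr v)
  let Z : Hom (encG T U) Tg → (Anc (Ty X J) → α) := fun φ a => φ.1 (.inl a)
  set h := cent (unif (Hom (encG T U) Tg)) Y Z with hdef
  have hh : Poly h := cent_poly unif_prob Y Z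
  have hL : ∀ v, h {v} ≤ Real.log (Fintype.card α) := cent_single_le unif_prob Y Z
  have hs : TwinSym h := by
    intro l l' hl B h1 h2
    let sw : Vt T U ≃ Vt T U := Equiv.swap (.inl l) (.inl l')
    have ht : ∀ w, typ T U (sw w) = typ T U w := by
      intro w
      simp only [sw, Equiv.swap_apply_def]
      split_ifs with h3 h4
      · rw [h3]
        simp [typ, hl]
      · rw [h4]
        simp [typ, hl]
      · rfl
    have ht2 : ∀ u : Anc (Ty X J) ⊕ Vt T U,
        Sum.map id (typ T U) (Sum.map id sw u) = Sum.map id (typ T U) u := by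
      rintro (a | w)
      · rfl
      · simp [ht]
    have hsw : ∀ u : Anc (Ty X J) ⊕ Vt T U, Sum.map id sw (Sum.map id sw u) = u := by
      rintro (a | w)
      · rfl
      · simp [sw]
    let e0 : Hom (encG T U) Tg → Hom (encG T U) Tg := fun φ =>
      ⟨fun u => φ.1 (Sum.map id sw u), fun u v huv => φ.2 _ _ (by
        simp only [encG, SimpleGraph.comap_adj, ht2] at huv ⊢
        exact huv)⟩
    have he : Function.Involutive e0 := fun φ => Subtype.ext (funext fun u => by
      simp only [e0, hsw])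
    have := cent_push (push_unif_equiv he.toPerm) (Y := Y) (Z := Z) (Y' := Y) (Z' := Z) sw
      (insert (.inl l) B) (fun a => rfl) (fun i _ a => by
        simp only [Y]
        exact congrArg a.1 (hsw (.inr i)).symm)
    rw [hdef, this, Finset.image_insert]
    congr 2
    · simp [sw]
    · rw [Finset.image_congr (g := id), Finset.image_id]
      intro w hw
      exact Equiv.swap_apply_of_ne_of_ne (fun h => h1 (h ▸ hw)) (fun h => h2 (h ▸ hw))
  have k1 := key _ _ _ (unif (Hom (encG T U) Tg)) (fun y => Y (tw T U 0 y)) Z (noise h)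
    (fun A => h (A.image (tw T U 0)) - ∑ y ∈ A, noise h y) unif_prob
    (funext fun S => by rw [cent_push push_id (tw T U 0) S (fun _ => rfl) (fun _ _ _ => rfl)])
    ((hh.image (tw T U 0)).sub_modular (noise h) (noise_first hh hs))
  have k2 := accounting hh hs hL b hb hb0 hθ hθ1 k1
  have k3 := log_card_le Y Z (fun φ φ' hφ => Subtype.ext (funext fun u => by
    rcases u with a | w
    · exact congrFun hφ.1 a
    · exact hφ.2 w (Finset.mem_univ w)))
  let ext : (v : Vt T U) → (i : ℕ) → (φ φ' : Hom (encG T U) Tg) → agr Y Z (nb T U b v i) φ φ' →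
      Hom (extG (encG T U) (nbS T U b v i)) Tg := fun v i φ φ' hφ =>
    ⟨fun o => o.elim (φ'.1 (.inr v)) φ.1, by
      have : ∀ u ∈ nbS T U b v i, Tg.Adj (φ.1 u) (φ'.1 (.inr v)) := by
        intro u hu
        have h1 : φ.1 u = φ'.1 u := by
          rcases u with a | w
          · exact congrFun hφ.1 a
          · exact hφ.2 w hu
        rw [h1]
        exact φ'.2 _ _ (nbS_adj b v i u hu)
      rintro (_ | u) (_ | w) huw
      · exact huw.elim
      · exact (this w huw).symm
      · exact this u huw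
      · exact φ.2 _ _ huw⟩
  have k4 : ∀ v i, Real.log (Fintype.card (Hom (encG T U) Tg)) + cnd h {v} (nb T U b v i)
      ≤ Real.log (Nat.card (Hom (extG (encG T U) (nbS T U b v i)) Tg)) := by
    intro v i
    refine copy_bound Y Z v (nb T U b v i) (ext v i) fun φ φ' h1 ψ ψ' h2 h3 => ?_
    have h4 := congrArg Subtype.val h3
    exact ⟨Subtype.ext (funext fun u => congrFun h4 (some u)), congrFun h4 none⟩
  have k5 : ∀ v i, (0 : ℝ) < Nat.card (Hom (extG (encG T U) (nbS T U b v i)) Tg) := by
    intro v i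
    obtain ⟨φ⟩ := hE
    have : Nonempty (Hom (extG (encG T U) (nbS T U b v i)) Tg) :=
      ⟨ext v i φ φ ((agr Y Z _).refl' φ)⟩
    exact_mod_cast Nat.card_pos
  have n0 : (0 : ℝ) < Fintype.card α := by exact_mod_cast Fintype.card_pos
  have g0 : (0 : ℝ) < Fintype.card (Hom (encG T U) Tg) := by exact_mod_cast Fintype.card_pos
  have d1 : 0 < dens (encG T U) Tg := by
    unfold dens
    rw [Nat.card_eq_fintype_card, Nat.card_eq_fintype_card]
    positivity
  have p0 : (0 : ℝ) < ∏ k : Vt T U × Fin b0,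
      (Nat.card (Hom (extG (encG T U) (nbS T U b k.1 k.2)) Tg) : ℝ) :=
    Finset.prod_pos fun k _ => k5 _ _
  have d2 : 0 < dens (encH T U b b0) Tg := by
    unfold dens encH
    rw [card_hom_sumG, Nat.card_eq_fintype_card (α := α)]
    push_cast
    positivity
  rw [← Real.log_le_log_iff (Real.rpow_pos_of_pos d1 _) d2, Real.log_rpow d1]
  unfold dens encH
  rw [card_hom_sumG, Nat.card_eq_fintype_card (α := α), Nat.card_eq_fintype_card]
  push_cast
  rw [Real.log_div g0.ne' (by positivity), Real.log_div p0.ne' (by positivity), Real.log_pow,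
    Real.log_pow, Real.log_prod (fun k _ => (k5 _ _).ne')]
  have k6 := Finset.sum_le_sum fun (k : Vt T U × Fin b0) (_ : k ∈ Finset.univ) => k4 k.1 k.2
  rw [Finset.sum_add_distrib, Finset.sum_const, Fintype.sum_prod_type] at k6
  have k8 : ∀ v, ∑ i : Fin b0, cnd h {v} (nb T U b v i)
      = ∑ i ∈ Finset.range b0, cnd h {v} (nb T U b v i) :=
    fun v => Fin.sum_univ_eq_sum_range (fun i => cnd h {v} (nb T U b v i)) b0
  simp only [k8] at k6
  rw [Fintype.card_fun] at k3
  simp only [Nat.card_eq_fintype_card, Fintype.card_prod, Fintype.card_option, Fintype.card_fin,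
    Finset.card_univ, nsmul_eq_mul, Fintype.card_sum (α := Anc (Ty X J))] at k6 ⊢
  push_cast at k3 k6 ⊢
  rw [Real.log_pow] at k3
  have k7 := mul_le_mul_of_nonneg_left k3 (show (0 : ℝ) ≤ b0 + θ by linarith)
  rw [← hdef] at k7
  linarith

end enc

end Pool.Agent.Lib.MP_3b2820_co
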