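import Pool.Agent.Lib.MP_3b2820_co.Enc

/-!
The lower bound for the exponent from a family of subgroups.
-/

set_option autoImplicit false
set_option linter.unusedSectionVars false

open Finset

namespace Pool.Agent.Lib.MP_3b2820_co

section grp
variable {X Ω : Type} [AddCommGroup Ω]

/-- Intersection of the subgroups of a set of variables. -/
def KS (K : X → AddSubgroup Ω) (S : Finset X) : AddSubgroup Ω := ⨅ y ∈ S, K y

lemma mem_KS {K : X → AddSubgroup Ω} {S : Finset X} {ω : Ω} : ω ∈ KS K S ↔ ∀ y ∈ S, ω ∈ K y := by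
  simp [KS, AddSubgroup.mem_iInf]

/-- Logarithm of the index. -/
noncomputable def lgi (L : AddSubgroup Ω) : ℝ := Real.log (Nat.card Ω) - Real.log (Nat.card L)

/-- The rank function of a family of subgroups. -/
noncomputable def rk (K : X → AddSubgroup Ω) (S : Finset X) : ℝ := lgi (KS K S)

end grp

section enc
variable {X J : Type} [DecidableEq X] [DecidableEq J] [Fintype X] [Fintype J]
  {Ω : Type} [AddCommGroup Ω] [Finite Ω]

/-- Allowed differences along an edge. -/
def Kt (K : X → AddSubgroup Ω) :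
    Anc (Ty X J) ⊕ Ty X J → Anc (Ty X J) ⊕ Ty X J → AddSubgroup Ω
  | .inr (.inl y), .inr (.inr _) => K y
  | .inr (.inr _), .inr (.inl y) => K y
  | .inr (.inl _), .inr (.inl _) => ⊤
  | .inr (.inr _), .inr (.inr _) => ⊤
  | .inl _, _ => ⊤
  | .inr _, .inl _ => ⊤

lemma Kt_symm (K : X → AddSubgroup Ω) (t t' : Anc (Ty X J) ⊕ Ty X J) : Kt K t t' = Kt K t' t := by
  rcases t with a | a | a <;> rcases t' with b | b | b <;> rfl

/-- The target graph of a family of subgroups. -/
def modG (T U : J → Finset X) (K : X → AddSubgroup Ω) :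
    SimpleGraph ((Anc (Ty X J) ⊕ Ty X J) × Ω) where
  Adj a b := (typG T U).Adj a.1 b.1 ∧ a.2 - b.2 ∈ Kt K a.1 b.1
  symm := ⟨fun a b h => ⟨h.1.symm, by
    rw [Kt_symm, ← neg_sub]
    exact neg_mem h.2⟩⟩
  loopless := ⟨fun a h => (typG T U).loopless.irrefl _ h.1⟩

/-- The set of variables attached to a vertex. -/
def vS (T U : J → Finset X) : Vt T U → Finset X
  | .inl l => {l.1.2}
  | .inr j => eS T U j

/-- The set of variables seen by a new vertex. -/
def vN (T U : J → Finset X) (b : J → ℕ) : Vt T U → ℕ → Finset X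
  | .inl l, _ => {l.1.2}
  | .inr j, i => if i < eb b j then eU U j else eS T U j

variable {T U : J → Finset X} {K : X → AddSubgroup Ω}

lemma hom_lower (hK : ∀ ω, (∀ y, ω ∈ K y) → ω = 0) :
    Nat.card Ω ^ Fintype.card (Anc (Ty X J)) * Nat.card Ω * ∏ v, Nat.card (KS K (vS T U v))
      ≤ Nat.card (Hom (encG T U) (modG T U K)) := by
  rw [← Nat.card_pi, ← Nat.card_eq_fintype_card, ← Nat.card_fun, ← Nat.card_prod,
    ← Nat.card_prod]
  let F : ((Anc (Ty X J) → Ω) × Ω) × ((v : Vt T U) → KS K (vS T U v)) →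
      Hom (encG T U) (modG T U K) := fun x =>
    ⟨fun u => (Sum.map id (typ T U) u, Sum.elim x.1.1 (fun v => x.1.2 + x.2 v) u), by
      intro u w h
      refine ⟨h, ?_⟩
      rcases u with a | l | j <;> rcases w with a' | l' | j'
      any_goals exact AddSubgroup.mem_top _
      · simp only [Sum.elim_inr, add_sub_add_left_eq_sub]
        exact sub_mem (mem_KS.1 (x.2 (.inl l)).2 _ (Finset.mem_singleton_self _))
          (mem_KS.1 (x.2 (.inr j')).2 _ h)
      · simp only [Sum.elim_inr, add_sub_add_left_eq_sub]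
        exact sub_mem (mem_KS.1 (x.2 (.inr j)).2 _ h)
          (mem_KS.1 (x.2 (.inl l')).2 _ (Finset.mem_singleton_self _))⟩
  refine Nat.card_le_card_of_injective F fun x x' h => ?_
  have h1 : ∀ u, Sum.elim x.1.1 (fun v => x.1.2 + x.2 v) u
      = Sum.elim x'.1.1 (fun v => x'.1.2 + x'.2 v) u :=
    fun u => congrArg Prod.snd (congrFun (congrArg Subtype.val h) u)
  have h2 : x.1.2 = x'.1.2 := by
    rw [← sub_eq_zero]
    refine hK _ fun y => ?_
    have h3 : x.1.2 + x.2 (tw T U 0 y) = x'.1.2 + x'.2 (tw T U 0 y) := h1 (.inr (tw T U 0 y))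
    have h4 : x.1.2 - x'.1.2 = x'.2 (tw T U 0 y) - x.2 (tw T U 0 y) := by
      rw [sub_eq_sub_iff_add_eq_add, h3, add_comm]
    rw [h4]
    exact sub_mem (mem_KS.1 (x'.2 (tw T U 0 y)).2 _ (Finset.mem_singleton_self _))
      (mem_KS.1 (x.2 (tw T U 0 y)).2 _ (Finset.mem_singleton_self _))
  refine Prod.ext (Prod.ext (funext fun a => h1 (.inl a)) h2) (funext fun v => Subtype.ext ?_)
  have h3 : x.1.2 + x.2 v = x'.1.2 + x'.2 v := h1 (.inr v)
  rwa [h2, add_right_inj] at h3

lemma hom_upper (b : J → ℕ) (v : Vt T U) (i : ℕ) :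
    Nat.card (Hom (extG (encG T U) (nbS T U b v i)) (modG T U K))
      ≤ Nat.card (Hom (encG T U) (modG T U K)) * Nat.card (KS K (vN T U b v i)) := by
  have t1 : ∀ φ : Hom (extG (encG T U) (nbS T U b v i)) (modG T U K),
      (φ.1 none).1 = .inr (typ T U v) ∧ ∀ w, (φ.1 (some (.inr w))).1 = .inr (typ T U w) := by
    intro φ
    have r := rigid (inc_side T U) (fun a => (φ.1 (some (.inl a))).1)
      (fun a a' h => (φ.2 (some (.inl a)) (some (.inl a')) h).1)
    refine ⟨r _ _ (φ.2 none (some (.inl _)) (Or.inl rfl)).1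
      (φ.2 none (some (.inl _)) (Or.inr rfl)).1, fun w => ?_⟩
    exact r _ _ (φ.2 (some (.inr w)) (some (.inl _)) (Or.inl rfl)).1
      (φ.2 (some (.inr w)) (some (.inl _)) (Or.inr rfl)).1
  refine card_le_mul_of_fiber
    (fun φ : Hom (extG (encG T U) (nbS T U b v i)) (modG T U K) =>
      (⟨fun u => φ.1 (some u), fun u w h => φ.2 (some u) (some w) h⟩ :
        Hom (encG T U) (modG T U K)))
    (fun φ => (φ.1 none).2) _ (fun φ φ' h => ?_) (fun φ φ' h h' => ?_)
  · have h1 : ∀ u, φ.1 (some u) = φ'.1 (some u) := congrFun (congrArg Subtype.val h)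
    have h2 : ∀ w ∈ nb T U b v i, (φ.1 none).2 - (φ'.1 none).2
        ∈ Kt K (.inr (typ T U v)) (.inr (typ T U w)) := by
      intro w hw
      have a1 := (φ.2 none (some (.inr w)) hw).2
      have a2 := (φ'.2 none (some (.inr w)) hw).2
      rw [(t1 φ).1, (t1 φ).2] at a1
      rw [(t1 φ').1, (t1 φ').2, ← h1] at a2
      simpa using sub_mem a1 a2
    rw [mem_KS]
    rcases v with l | j
    · intro y hy
      rw [Finset.mem_singleton.1 hy]
      exact h2 _ (Finset.mem_singleton_self _)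
    · intro y hy
      exact h2 (tw T U 0 y) (Finset.mem_image_of_mem _ hy)
  · have h1 : ∀ u, φ.1 (some u) = φ'.1 (some u) := congrFun (congrArg Subtype.val h)
    refine Subtype.ext (funext ?_)
    rintro (_ | u)
    · exact Prod.ext ((t1 φ).1.trans (t1 φ').1.symm) h'
    · exact h1 u

theorem enc_lb (hK : ∀ ω, (∀ y, ω ∈ K y) → ω = 0) {b : J → ℕ} {b0 : ℕ} (hb : ∀ j, b j ≤ b0)
    {c θ : ℝ} (hθ : 0 ≤ θ) (hc : c ≤ Fintype.card (Vt T U) * b0 + b0 + θ)
    (h : dens (encG T U) (modG T U K) ^ c ≤ dens (encH T U b b0) (modG T U K)) :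
    b0 * rk K Finset.univ ≤ Wf T U b (rk K) + θ * Df T U (rk K)
      + (b0 + θ) * (Fintype.card (Anc (Ty X J) ⊕ Vt T U)
        * Real.log (Fintype.card (Anc (Ty X J) ⊕ Ty X J))) := by
  have w0 : (0 : ℝ) < Nat.card Ω := by exact_mod_cast Nat.card_pos
  have k0 : ∀ S, (0 : ℝ) < Nat.card (KS K S) := fun S => by exact_mod_cast Nat.card_pos
  have t0 : (1 : ℝ) ≤ Fintype.card (Anc (Ty X J) ⊕ Ty X J) := by
    exact_mod_cast Fintype.card_pos
  have t1 := Real.log_nonneg t0
  have l1 : (Nat.card Ω : ℝ) ^ Fintype.card (Anc (Ty X J)) * Nat.card Ω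
      * ∏ v, (Nat.card (KS K (vS T U v)) : ℝ) ≤ Nat.card (Hom (encG T U) (modG T U K)) := by
    exact_mod_cast hom_lower hK
  have p1 : 0 < ∏ v, (Nat.card (KS K (vS T U v)) : ℝ) := Finset.prod_pos fun _ _ => k0 _
  have g0 : (0 : ℝ) < Nat.card (Hom (encG T U) (modG T U K)) := lt_of_lt_of_le (by positivity) l1
  have l2 := Real.log_le_log (by positivity) l1
  rw [Real.log_mul (by positivity) p1.ne', Real.log_mul (by positivity) w0.ne', Real.log_pow,
    Real.log_prod (fun _ _ => (k0 _).ne')] at l2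
  have n1 : (Nat.card ((Anc (Ty X J) ⊕ Ty X J) × Ω) : ℝ)
      = Fintype.card (Anc (Ty X J) ⊕ Ty X J) * Nat.card Ω := by
    rw [Nat.card_prod, Nat.card_eq_fintype_card]
    push_cast
    rfl
  have n2 : (0 : ℝ) < Nat.card ((Anc (Ty X J) ⊕ Ty X J) × Ω) := by
    rw [n1]
    positivity
  have d1 : 0 < dens (encG T U) (modG T U K) := by
    unfold dens
    positivity
  have d2 := Real.log_nonpos d1.le (dens_le_one _ _)
  have u1 : (Nat.card (Hom (encH T U b b0) (modG T U K)) : ℝ) ≤ ∏ k : Vt T U × Fin b0,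
      ((Nat.card (Hom (encG T U) (modG T U K)) : ℝ) * Nat.card (KS K (vN T U b k.1 k.2))) := by
    unfold encH
    rw [card_hom_sumG, Nat.cast_prod]
    refine Finset.prod_le_prod (fun k _ => Nat.cast_nonneg _) fun k _ => ?_
    rw [← Nat.cast_mul, Nat.cast_le]
    exact hom_upper b k.1 k.2
  have u2 := h.trans (div_le_div_of_nonneg_right u1 (by positivity))
  have u3 := Real.log_le_log (Real.rpow_pos_of_pos d1 c) u2
  rw [Real.log_rpow d1, Real.log_div (Finset.prod_pos fun k _ => mul_pos g0 (k0 _)).ne'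
    (by positivity), Real.log_prod (fun k _ => (mul_pos g0 (k0 _)).ne'), Real.log_pow] at u3
  simp only [Real.log_mul g0.ne' (k0 _).ne'] at u3
  have u4 := mul_le_mul_of_nonpos_right hc d2
  have d3 : Real.log (dens (encG T U) (modG T U K))
      = Real.log (Nat.card (Hom (encG T U) (modG T U K)))
        - Nat.card (Anc (Ty X J) ⊕ Vt T U) * Real.log (Nat.card ((Anc (Ty X J) ⊕ Ty X J) × Ω)) := by
    unfold dens
    rw [Real.log_div g0.ne' (by positivity), Real.log_pow]
  rw [n1, Real.log_mul (by positivity) w0.ne'] at u3 d3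
  have lg : ∀ S, Real.log (Nat.card (KS K S)) = Real.log (Nat.card Ω) - rk K S := fun S => by
    unfold rk lgi
    ring
  have r0 : rk K Finset.univ = Real.log (Nat.card Ω) := by
    have : KS K Finset.univ = ⊥ := by
      rw [eq_bot_iff]
      intro ω hω
      exact hK ω fun y => mem_KS.1 hω y (Finset.mem_univ y)
    simp [rk, lgi, this]
  have r1 : ∑ v, rk K (vS T U v) = Df T U (rk K) + rk K Finset.univ := by
    rw [Fintype.sum_sum_type]
    simp only [vS]
    rw [sum_leaf (fun _ y => rk K {y}), Fintype.sum_sum_type, Fintype.sum_sum_type,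
      Fintype.sum_prod_type, Fintype.sum_prod_type]
    simp only [Df, eS, Finset.sum_singleton, Fin.sum_univ_three, Finset.sum_add_distrib]
    ring
  have r2 : ∑ k : Vt T U × Fin b0, rk K (vN T U b k.1 k.2)
      = b0 * ∑ v, rk K (vS T U v) - Wf T U b (rk K) := by
    have e1 : Wf T U b (rk K) = ∑ j, eb b j * (rk K (eS T U j) - rk K (eU U j)) := by
      rw [Fintype.sum_sum_type]
      simp [Wf, eb, eS, eU, cnd]
    rw [Fintype.sum_prod_type, Fintype.sum_sum_type, Fintype.sum_sum_type (fun v => rk K (vS T U v)),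
      e1, mul_add, add_sub_assoc, Finset.mul_sum, Finset.mul_sum, ← Finset.sum_sub_distrib]
    congr 1
    · simp [vN, vS]
    · refine Finset.sum_congr rfl fun j _ => ?_
      have hle : eb b j ≤ b0 := by
        rcases j with j | j
        · exact hb j
        · exact Nat.zero_le _
      rw [Fin.sum_univ_eq_sum_range (fun i => rk K (vN T U b (.inr j) i)),
        ← Finset.sum_range_add_sum_Ico _ hle,
        Finset.sum_congr rfl (g := fun _ => rk K (eU U j))
          (fun i hi => by simp only [vN, if_pos (Finset.mem_range.1 hi)]),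
        Finset.sum_congr (s₁ := Finset.Ico _ _) rfl (g := fun _ => rk K (eS T U j))
          (fun i hi => by simp only [vN, if_neg (not_lt.2 (Finset.mem_Ico.1 hi).1)])]
      simp [Nat.cast_sub hle, vS]
      ring
  simp only [lg, Finset.sum_add_distrib, Finset.sum_sub_distrib, Finset.sum_const, nsmul_eq_mul,
    Finset.card_univ] at u3 l2
  rw [r2, r1] at u3
  rw [r1] at l2
  rw [d3] at u3 u4
  simp only [Nat.card_eq_fintype_card, Fintype.card_prod, Fintype.card_option, Fintype.card_fin,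
    Fintype.card_sum (α := Anc (Ty X J)) (β := Vt T U)] at u3 u4 ⊢
  push_cast at u3 u4 ⊢
  have b1 : (0 : ℝ) ≤ b0 := Nat.cast_nonneg _
  have u5 := mul_le_mul_of_nonneg_left l2 (add_nonneg b1 hθ)
  have u6 : 0 ≤ (Fintype.card (Vt T U) : ℝ) * b0
      * Real.log (Fintype.card (Anc (Ty X J) ⊕ Ty X J)) := by positivity
  rw [r0] at *
  linarith

end enc

end Pool.Agent.Lib.MP_3b2820_co
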