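import Mathlib

/-!
Finite Shannon entropy of partitions of a finite weighted set, submodularity, and the
conditionally independent gluing of two weighted sets.
-/

set_option autoImplicit false

open Finset

namespace Pool.Agent.Lib.MP_3b2820_co

open Classical in
/-- Total weight of the class of a point. -/
noncomputable def mass {Ω : Type} [Fintype Ω] (p : Ω → ℝ) (R : Setoid Ω) (a : Ω) : ℝ :=
  ∑ b, if R b a then p b else 0

/-- Shannon entropy of a partition. -/
noncomputable def entR {Ω : Type} [Fintype Ω] (p : Ω → ℝ) (R : Setoid Ω) : ℝ :=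
  - ∑ a, p a * Real.log (mass p R a)

/-- Probability weights. -/
structure IsProb {Ω : Type} [Fintype Ω] (p : Ω → ℝ) : Prop where
  nonneg : ∀ a, 0 ≤ p a
  total : ∑ a, p a = 1

section basic
variable {Ω : Type} [Fintype Ω] {p : Ω → ℝ}

lemma mass_nonneg (hp : IsProb p) (R : Setoid Ω) (a : Ω) : 0 ≤ mass p R a := by
  unfold mass
  exact Finset.sum_nonneg fun b _ => by split_ifs; exacts [hp.nonneg b, le_rfl]

lemma le_mass (hp : IsProb p) (R : Setoid Ω) (a : Ω) : p a ≤ mass p R a := by
  classical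
  unfold mass
  have h := Finset.single_le_sum (f := fun b => if R b a then p b else 0) (s := Finset.univ)
    (fun b _ => by split_ifs; exacts [hp.nonneg b, le_rfl]) (Finset.mem_univ a)
  exact le_trans (le_of_eq (if_pos (R.refl' a)).symm) h

lemma mass_congr (R : Setoid Ω) {a b : Ω} (h : R a b) : mass p R a = mass p R b := by
  unfold mass
  refine Finset.sum_congr rfl fun c _ => ?_
  have : R c a ↔ R c b := ⟨fun h1 => R.trans' h1 h, fun h1 => R.trans' h1 (R.symm' h)⟩
  by_cases h1 : R c a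
  · rw [if_pos h1, if_pos (this.1 h1)]
  · rw [if_neg h1, if_neg (fun h2 => h1 (this.2 h2))]

lemma mass_mono (hp : IsProb p) {R Q : Setoid Ω} (h : R ≤ Q) (a : Ω) :
    mass p R a ≤ mass p Q a := by
  unfold mass
  refine Finset.sum_le_sum fun b _ => ?_
  by_cases h1 : R b a
  · have h2 : Q b a := h h1
    simp [h1, h2]
  · simp only [h1, if_false]
    split_ifs
    exacts [hp.nonneg b, le_rfl]

lemma entR_anti (hp : IsProb p) {R Q : Setoid Ω} (h : R ≤ Q) : entR p Q ≤ entR p R := by
  unfold entR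
  refine neg_le_neg (Finset.sum_le_sum fun a _ => ?_)
  rcases (hp.nonneg a).eq_or_lt with h0 | h0
  · simp [← h0]
  · exact mul_le_mul_of_nonneg_left
      (Real.log_le_log (h0.trans_le (le_mass hp R a)) (mass_mono hp h a)) h0.le

/-- Gibbs type inequality. -/
lemma sum_log_le (hp : IsProb p) (q : Ω → ℝ) (hq : ∀ a, 0 < p a → 0 < q a)
    (hs : ∑ a, p a * q a ≤ 1) : ∑ a, p a * Real.log (q a) ≤ 0 := by
  have h1 : ∑ a, p a * Real.log (q a) ≤ ∑ a, (p a * q a - p a) := by
    refine Finset.sum_le_sum fun a _ => ?_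
    rcases (hp.nonneg a).eq_or_lt with h0 | h0
    · simp [← h0]
    · have := Real.log_le_sub_one_of_pos (hq a h0)
      nlinarith
  rw [Finset.sum_sub_distrib, hp.total] at h1
  linarith

open Classical in
lemma sum_class_div_le (hp : IsProb p) (R : Setoid Ω) (P : Ω → Prop)
    (hP : ∀ a b, P a → P b → R a b) :
    ∑ a, (if P a then p a / mass p R a else 0) ≤ 1 := by
  by_cases hex : ∃ a, P a
  · obtain ⟨a0, ha0⟩ := hex
    have h1 : ∑ a, (if P a then p a / mass p R a else 0)
        ≤ ∑ a, (if R a a0 then p a else 0) / mass p R a0 := by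
      refine Finset.sum_le_sum fun a _ => ?_
      by_cases h : P a
      · have h2 := hP a a0 h ha0
        simp [h, h2, mass_congr R h2]
      · simp only [h, if_false]
        refine div_nonneg ?_ (mass_nonneg hp R a0)
        split_ifs
        exacts [hp.nonneg a, le_rfl]
    rw [← Finset.sum_div] at h1
    refine h1.trans ?_
    exact div_self_le_one (mass p R a0)
  · push Not at hex
    simp [hex]

theorem entR_submod (hp : IsProb p) {R R' Q : Setoid Ω} (h : R ≤ Q) (h' : R' ≤ Q) :
    entR p (R ⊓ R') + entR p Q ≤ entR p R + entR p R' := by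
  classical
  set q : Ω → ℝ := fun a => mass p R a * mass p R' a / (mass p (R ⊓ R') a * mass p Q a) with hq
  have hpos : ∀ (S : Setoid Ω) a, 0 < p a → 0 < mass p S a :=
    fun S a h0 => h0.trans_le (le_mass hp S a)
  have key : ∑ a, p a * Real.log (q a) ≤ 0 := by
    refine sum_log_le hp q (fun a h0 => ?_) ?_
    · exact div_pos (mul_pos (hpos _ _ h0) (hpos _ _ h0)) (mul_pos (hpos _ _ h0) (hpos _ _ h0))
    · have e1 : ∀ a, p a * q a = ∑ x, ∑ y, (p x * (if Q y x then p y else 0) / mass p Q x) *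
          (if R x a ∧ R' y a then p a / mass p (R ⊓ R') a else 0) := by
        intro a
        have : mass p R a * mass p R' a = ∑ x, ∑ y,
            (if R x a then p x else 0) * (if R' y a then p y else 0) := by
          unfold mass
          rw [Finset.sum_mul_sum]
        simp only [hq]
        rw [this, Finset.sum_div, Finset.mul_sum]
        refine Finset.sum_congr rfl fun x _ => ?_
        rw [Finset.sum_div, Finset.mul_sum]
        refine Finset.sum_congr rfl fun y _ => ?_
        by_cases h1 : R x a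
        · by_cases h2 : R' y a
          · have h3 : Q x a := h h1
            have h4 : Q y x := Q.trans' (h' h2) (Q.symm' h3)
            simp only [h1, h2, h4, if_true, and_self, mass_congr Q h3]
            ring
          · simp [h2]
        · simp [h1]
      simp only [e1]
      rw [Finset.sum_comm]
      have e2 : ∀ x, ∑ a, ∑ y, (p x * (if Q y x then p y else 0) / mass p Q x) *
          (if R x a ∧ R' y a then p a / mass p (R ⊓ R') a else 0) ≤ p x := by
        intro x
        rw [Finset.sum_comm]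
        have e3 : ∀ y, ∑ a, (p x * (if Q y x then p y else 0) / mass p Q x) *
            (if R x a ∧ R' y a then p a / mass p (R ⊓ R') a else 0)
            ≤ p x * (if Q y x then p y else 0) / mass p Q x := by
          intro y
          rw [← Finset.mul_sum]
          refine mul_le_of_le_one_right ?_ ?_
          · refine div_nonneg (mul_nonneg (hp.nonneg x) ?_) (mass_nonneg hp Q x)
            split_ifs
            exacts [hp.nonneg y, le_rfl]
          · have := sum_class_div_le hp (R ⊓ R') (fun a => R x a ∧ R' y a)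
              (fun a b ha hb => ⟨R.trans' (R.symm' ha.1) hb.1, R'.trans' (R'.symm' ha.2) hb.2⟩)
            refine le_trans (le_of_eq (Finset.sum_congr rfl fun a _ => ?_)) this
            congr
        refine (Finset.sum_le_sum fun y _ => e3 y).trans ?_
        rw [← Finset.sum_div, ← Finset.mul_sum, mul_div_assoc]
        exact mul_le_of_le_one_right (hp.nonneg x) (div_self_le_one (mass p Q x))
      exact (Finset.sum_le_sum fun x _ => e2 x).trans hp.total.le
  have e : ∑ a, p a * Real.log (q a) = ∑ a, (p a * Real.log (mass p R a)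
      + p a * Real.log (mass p R' a) - p a * Real.log (mass p (R ⊓ R') a)
      - p a * Real.log (mass p Q a)) := by
    refine Finset.sum_congr rfl fun a _ => ?_
    rcases (hp.nonneg a).eq_or_lt with h0 | h0
    · simp [← h0]
    · simp only [hq]
      rw [Real.log_div (mul_pos (hpos _ _ h0) (hpos _ _ h0)).ne'
        (mul_pos (hpos _ _ h0) (hpos _ _ h0)).ne', Real.log_mul (hpos _ _ h0).ne' (hpos _ _ h0).ne',
        Real.log_mul (hpos _ _ h0).ne' (hpos _ _ h0).ne']
      ring
  rw [e, Finset.sum_sub_distrib, Finset.sum_sub_distrib, Finset.sum_add_distrib] at key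
  unfold entR
  linarith

theorem entR_le_log_card (hp : IsProb p) {α : Type} [Fintype α] (X : Ω → α) {R : Setoid Ω}
    (hR : ∀ a b, X a = X b → R a b) : entR p R ≤ Real.log (Fintype.card α) := by
  classical
  have hne : Nonempty Ω := by
    by_contra hc
    rw [not_nonempty_iff] at hc
    have := hp.total
    simp at this
  have hn : (0 : ℝ) < Fintype.card α := by
    have : Nonempty α := hne.map X
    exact_mod_cast Fintype.card_pos
  have hpos : ∀ a, 0 < p a → 0 < mass p R a := fun a h0 => h0.trans_le (le_mass hp R a)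
  have key := sum_log_le hp (fun a => 1 / (mass p R a * Fintype.card α))
    (fun a h0 => one_div_pos.2 (mul_pos (hpos a h0) hn)) (by
      have e1 : ∀ a, p a * (1 / (mass p R a * Fintype.card α))
          = ∑ c : α, (if X a = c then p a / mass p R a else 0) / Fintype.card α := by
        intro a
        rw [← Finset.sum_div]
        simp only [Finset.sum_ite_eq, Finset.mem_univ, if_true]
        ring
      simp only [e1]
      rw [Finset.sum_comm]
      have e2 : ∀ c : α, ∑ a, (if X a = c then p a / mass p R a else 0) / Fintype.card α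
          ≤ 1 / (Fintype.card α : ℝ) := by
        intro c
        rw [← Finset.sum_div]
        refine div_le_div_of_nonneg_right ?_ hn.le
        have := sum_class_div_le hp R (fun a => X a = c) (fun a b ha hb => hR a b (ha.trans hb.symm))
        convert this
      refine (Finset.sum_le_sum fun c _ => e2 c).trans ?_
      simp only [Finset.sum_const, Finset.card_univ, nsmul_eq_mul]
      rw [mul_one_div, div_self hn.ne'])
  have e : ∑ a, p a * Real.log (1 / (mass p R a * Fintype.card α))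
      = ∑ a, (-(p a * Real.log (mass p R a)) - p a * Real.log (Fintype.card α)) := by
    refine Finset.sum_congr rfl fun a _ => ?_
    rcases (hp.nonneg a).eq_or_lt with h0 | h0
    · simp [← h0]
    · rw [one_div, Real.log_inv, Real.log_mul (hpos a h0).ne' hn.ne']
      ring
  rw [e, Finset.sum_sub_distrib, Finset.sum_neg_distrib, ← Finset.sum_mul, hp.total] at key
  unfold entR
  linarith

lemma entR_top (hp : IsProb p) : entR p ⊤ = 0 := by
  unfold entR mass
  simp [hp.total]

/-- The uniform weight. -/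
noncomputable def unif (Ω : Type) [Fintype Ω] : Ω → ℝ := fun _ => 1 / (Fintype.card Ω : ℝ)

lemma unif_prob [Nonempty Ω] : IsProb (unif Ω) := by
  have hn : (0 : ℝ) < Fintype.card Ω := by exact_mod_cast Fintype.card_pos
  refine ⟨fun a => by unfold unif; positivity, ?_⟩
  unfold unif
  simp only [Finset.sum_const, Finset.card_univ, nsmul_eq_mul]
  rw [mul_one_div, div_self hn.ne']

lemma entR_unif [Nonempty Ω] {R : Setoid Ω} (hR : ∀ a b, R a b → a = b) :
    entR (unif Ω) R = Real.log (Fintype.card Ω) := by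
  classical
  have hm : ∀ a, mass (unif Ω) R a = 1 / (Fintype.card Ω : ℝ) := by
    intro a
    unfold mass
    have : ∀ b, R b a ↔ b = a := fun b => ⟨hR b a, fun h => h ▸ R.refl' b⟩
    simp [this, unif]
  unfold entR
  simp only [hm]
  rw [← Finset.sum_mul, unif_prob.total, one_div, Real.log_inv]
  ring

end basic

open Classical in
/-- The map `π` pushes the weight `p` forward to `p'`. -/
def Push {Ω Ω' : Type} [Fintype Ω] (p : Ω → ℝ) (π : Ω → Ω') (p' : Ω' → ℝ) : Prop :=
  ∀ b, p' b = ∑ a, if π a = b then p a else 0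

section push
variable {Ω Ω' : Type} [Fintype Ω] [Fintype Ω'] {p : Ω → ℝ} {p' : Ω' → ℝ} {π : Ω → Ω'}

lemma Push.sum (h : Push p π p') (φ : Ω' → ℝ) : ∑ b, p' b * φ b = ∑ a, p a * φ (π a) := by
  classical
  have : ∀ b, p' b * φ b = ∑ a, if π a = b then p a * φ (π a) else 0 := by
    intro b
    rw [h b, Finset.sum_mul]
    refine Finset.sum_congr rfl fun a _ => ?_
    by_cases h1 : π a = b
    · simp [h1]
    · simp [h1]
  simp only [this]
  rw [Finset.sum_comm]
  simp

lemma Push.mass_eq (h : Push p π p') {R : Setoid Ω} {R' : Setoid Ω'}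
    (hR : ∀ a b, R a b ↔ R' (π a) (π b)) (a : Ω) : mass p R a = mass p' R' (π a) := by
  classical
  have := h.sum (fun b => if R' b (π a) then 1 else 0)
  unfold mass
  simp only [mul_ite, mul_one, mul_zero] at this
  simp only [hR]
  convert this.symm

theorem Push.entR_eq (h : Push p π p') {R : Setoid Ω} {R' : Setoid Ω'}
    (hR : ∀ a b, R a b ↔ R' (π a) (π b)) : entR p R = entR p' R' := by
  unfold entR
  rw [h.sum]
  simp only [h.mass_eq hR]

lemma Push.comp {Ω'' : Type} {p'' : Ω'' → ℝ} {π' : Ω' → Ω''} (h : Push p π p')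
    (h' : Push p' π' p'') : Push p (fun a => π' (π a)) p'' := by
  classical
  intro c
  have := h.sum (fun b => if π' b = c then 1 else 0)
  simp only [mul_ite, mul_one, mul_zero] at this
  rw [h' c]
  convert this

lemma push_id : Push p (fun a => a) p := by
  classical
  intro b
  rw [Finset.sum_eq_single b (fun c _ hc => if_neg hc) (by simp), if_pos rfl]

lemma push_unif_equiv (e : Ω ≃ Ω) : Push (unif Ω) e (unif Ω) := by
  classical
  intro b
  have : ∀ a, e a = b ↔ a = e.symm b := fun a => by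
    rw [Equiv.eq_symm_apply]
  simp [this, unif]

end push

section glue
variable {Ω₁ Ω₂ γ : Type} [Fintype Ω₁] [Fintype Ω₂]

/-- The fibre product of two sets over a common quotient. -/
def Glue (a₁ : Ω₁ → γ) (a₂ : Ω₂ → γ) : Type := {x : Ω₁ × Ω₂ // a₁ x.1 = a₂ x.2}

noncomputable instance glueFintype (a₁ : Ω₁ → γ) (a₂ : Ω₂ → γ) : Fintype (Glue a₁ a₂) := by
  classical
  unfold Glue
  infer_instance

/-- The conditionally independent weight on the fibre product. -/
noncomputable def glueP (p₁ : Ω₁ → ℝ) (p₂ : Ω₂ → ℝ) (μ : γ → ℝ) (a₁ : Ω₁ → γ) (a₂ : Ω₂ → γ) :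
    Glue a₁ a₂ → ℝ := fun x => p₁ x.1.1 * p₂ x.1.2 / μ (a₁ x.1.1)

open Classical in
lemma sum_glue (a₁ : Ω₁ → γ) (a₂ : Ω₂ → γ) (φ : Ω₁ × Ω₂ → ℝ) :
    ∑ x : Glue a₁ a₂, φ x.1 = ∑ a, ∑ b, if a₁ a = a₂ b then φ (a, b) else 0 := by
  rw [← Fintype.sum_prod_type' (fun a b => if a₁ a = a₂ b then φ (a, b) else 0)]
  rw [← Finset.sum_filter]
  symm
  refine Finset.sum_subtype _ (fun x => by simp) φ

variable {p₁ : Ω₁ → ℝ} {p₂ : Ω₂ → ℝ} {μ : γ → ℝ} {a₁ : Ω₁ → γ} {a₂ : Ω₂ → γ}

lemma Push.le {Ω Ω' : Type} [Fintype Ω] {p : Ω → ℝ} {p' : Ω' → ℝ} {π : Ω → Ω'}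
    (hp : IsProb p) (h : Push p π p') (a : Ω) : p a ≤ p' (π a) := by
  classical
  rw [h (π a)]
  have h := Finset.single_le_sum (f := fun b => if π b = π a then p b else 0) (s := Finset.univ)
    (fun b _ => by split_ifs; exacts [hp.nonneg b, le_rfl]) (Finset.mem_univ a)
  simp only [if_true] at h
  convert h

lemma glue_push_fst (hp₁ : IsProb p₁) (h₁ : Push p₁ a₁ μ) (h₂ : Push p₂ a₂ μ) :
    Push (glueP p₁ p₂ μ a₁ a₂) (fun x => x.1.1) p₁ := by
  classical
  intro a
  have := sum_glue a₁ a₂ (fun x => if x.1 = a then p₁ x.1 * p₂ x.2 / μ (a₁ x.1) else 0)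
  unfold glueP
  refine Eq.trans ?_ (by convert this.symm)
  rw [Finset.sum_eq_single a (fun b _ hb => by simp [hb]) (by simp)]
  have e : ∀ b, (if a₁ a = a₂ b then (p₁ a * p₂ b / μ (a₁ a)) else 0)
      = p₁ a / μ (a₁ a) * (if a₂ b = a₁ a then p₂ b else 0) := by
    intro b
    by_cases h : a₁ a = a₂ b
    · simp only [h, if_true]
      ring
    · have h' : ¬ a₂ b = a₁ a := fun h' => h h'.symm
      simp [h, h']
  simp only [if_true, e]
  rw [← Finset.mul_sum, ← h₂ (a₁ a)]
  rcases (hp₁.nonneg a).eq_or_lt with h0 | h0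
  · simp [← h0]
  · have := h0.trans_le (h₁.le hp₁ a)
    field_simp

lemma glue_push_snd (hp₂ : IsProb p₂) (h₁ : Push p₁ a₁ μ) (h₂ : Push p₂ a₂ μ) :
    Push (glueP p₁ p₂ μ a₁ a₂) (fun x => x.1.2) p₂ := by
  classical
  intro b
  have := sum_glue a₁ a₂ (fun x => if x.2 = b then p₁ x.1 * p₂ x.2 / μ (a₁ x.1) else 0)
  unfold glueP
  refine Eq.trans ?_ (by convert this.symm)
  rw [Finset.sum_comm, Finset.sum_eq_single b (fun c _ hc => by simp [hc]) (by simp)]
  have e : ∀ a, (if a₁ a = a₂ b then (p₁ a * p₂ b / μ (a₁ a)) else 0)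
      = p₂ b / μ (a₂ b) * (if a₁ a = a₂ b then p₁ a else 0) := by
    intro a
    by_cases h : a₁ a = a₂ b
    · simp only [h, if_true]
      ring
    · simp [h]
  simp only [if_true, e]
  rw [← Finset.mul_sum, ← h₁ (a₂ b)]
  rcases (hp₂.nonneg b).eq_or_lt with h0 | h0
  · simp [← h0]
  · have := h0.trans_le (h₂.le hp₂ b)
    field_simp

lemma glue_prob (hp₁ : IsProb p₁) (hp₂ : IsProb p₂) (h₁ : Push p₁ a₁ μ) (h₂ : Push p₂ a₂ μ) :
    IsProb (glueP p₁ p₂ μ a₁ a₂) := by
  refine ⟨fun x => div_nonneg (mul_nonneg (hp₁.nonneg _) (hp₂.nonneg _))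
    ((hp₁.nonneg _).trans (h₁.le hp₁ _)), ?_⟩
  have := (glue_push_fst (p₂ := p₂) hp₁ h₁ h₂).sum (fun _ => 1)
  simp only [mul_one] at this
  rw [← this, hp₁.total]

theorem glue_entR (hp₁ : IsProb p₁) (hp₂ : IsProb p₂) (h₁ : Push p₁ a₁ μ) (h₂ : Push p₂ a₂ μ)
    {R₁ Q₁ : Setoid Ω₁} {R₂ : Setoid Ω₂} {R : Setoid (Glue a₁ a₂)}
    (hR₁ : ∀ a b, R₁ a b → a₁ a = a₁ b) (hR₂ : ∀ a b, R₂ a b → a₂ a = a₂ b)
    (hQ : ∀ a b, Q₁ a b ↔ a₁ a = a₁ b)
    (hR : ∀ x y, R x y ↔ R₁ x.1.1 y.1.1 ∧ R₂ x.1.2 y.1.2) :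
    entR (glueP p₁ p₂ μ a₁ a₂) R = entR p₁ R₁ + entR p₂ R₂ - entR p₁ Q₁ := by
  classical
  have hμ : ∀ a, μ (a₁ a) = mass p₁ Q₁ a := by
    intro a
    rw [h₁ (a₁ a)]
    unfold mass
    simp only [hQ]
  have hm : ∀ y : Glue a₁ a₂, mass (glueP p₁ p₂ μ a₁ a₂) R y
      = mass p₁ R₁ y.1.1 * mass p₂ R₂ y.1.2 / mass p₁ Q₁ y.1.1 := by
    intro y
    have := sum_glue a₁ a₂
      (fun x => if R₁ x.1 y.1.1 ∧ R₂ x.2 y.1.2 then p₁ x.1 * p₂ x.2 / μ (a₁ x.1) else 0)
    rw [← hμ]
    unfold mass glueP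
    simp only [hR]
    refine Eq.trans (by convert this) ?_
    rw [Finset.sum_mul_sum, Finset.sum_div]
    refine Finset.sum_congr rfl fun a _ => ?_
    rw [Finset.sum_div]
    refine Finset.sum_congr rfl fun b _ => ?_
    by_cases h3 : R₁ a y.1.1
    · by_cases h4 : R₂ b y.1.2
      · have h5 := hR₁ _ _ h3
        have h6 := hR₂ _ _ h4
        have h7 : a₁ a = a₂ b := by rw [h5, h6]; exact y.2
        simp [h3, h4, h5, h6, y.2]
      · simp [h4]
    · simp [h3]
  have hg := glue_prob hp₁ hp₂ h₁ h₂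
  have f1 := glue_push_fst (p₂ := p₂) hp₁ h₁ h₂
  have f2 := glue_push_snd (p₁ := p₁) hp₂ h₁ h₂
  unfold entR
  rw [f1.sum, f1.sum, f2.sum]
  have e : ∀ y : Glue a₁ a₂, glueP p₁ p₂ μ a₁ a₂ y * Real.log (mass (glueP p₁ p₂ μ a₁ a₂) R y)
      = glueP p₁ p₂ μ a₁ a₂ y * Real.log (mass p₁ R₁ y.1.1)
        + glueP p₁ p₂ μ a₁ a₂ y * Real.log (mass p₂ R₂ y.1.2)
        - glueP p₁ p₂ μ a₁ a₂ y * Real.log (mass p₁ Q₁ y.1.1) := by
    intro y
    rcases (hg.nonneg y).eq_or_lt with h0 | h0
    · simp [← h0]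
    · have g1 : 0 < p₁ y.1.1 := h0.trans_le (f1.le hg y)
      have g2 : 0 < p₂ y.1.2 := h0.trans_le (f2.le hg y)
      have m1 := g1.trans_le (le_mass hp₁ R₁ _)
      have m2 := g2.trans_le (le_mass hp₂ R₂ _)
      have m3 := g1.trans_le (le_mass hp₁ Q₁ _)
      rw [hm, Real.log_div (mul_pos m1 m2).ne' m3.ne', Real.log_mul m1.ne' m2.ne']
      ring
  simp only [e]
  rw [Finset.sum_sub_distrib, Finset.sum_add_distrib]
  ring

end glue

end Pool.Agent.Lib.MP_3b2820_co
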