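import Pool.Agent.Lib.MP_3b2820_co.Homs
import Pool.Agent.Lib.MP_3b2820_co.Defs

/-!
Passing between finite graphs and graphons.
-/

set_option autoImplicit false
set_option linter.unusedSectionVars false

open Finset MeasureTheory ProbabilityTheory

namespace Pool.Agent.Lib.MP_3b2820_co

open Classical in
/-- Edges as increasing pairs. -/
noncomputable def edg {k : ℕ} (F : SimpleGraph (Fin k)) : Finset (Fin k × Fin k) :=
  Finset.univ.filter fun p => p.1 < p.2 ∧ F.Adj p.1 p.2

lemma mem_edg {k : ℕ} {F : SimpleGraph (Fin k)} {p : Fin k × Fin k} :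
    p ∈ edg F ↔ p.1 < p.2 ∧ F.Adj p.1 p.2 := by simp [edg]

lemma homDensity_eq {k : ℕ} (F : SimpleGraph (Fin k)) (W : unitInterval → unitInterval → ℝ) :
    homDensity F W = ∫ x : Fin k → unitInterval, ∏ p ∈ edg F, W (x p.1) (x p.2) := rfl

lemma hom_iff_edg {k : ℕ} {α : Type} (F : SimpleGraph (Fin k)) (T : SimpleGraph α)
    (φ : Fin k → α) :
    (∀ u v, F.Adj u v → T.Adj (φ u) (φ v)) ↔ ∀ p ∈ edg F, T.Adj (φ p.1) (φ p.2) := by
  refine ⟨fun h p hp => h _ _ (mem_edg.1 hp).2, fun h u v huv => ?_⟩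
  rcases lt_trichotomy u v with h1 | h1 | h1
  · exact h (u, v) (mem_edg.2 ⟨h1, huv⟩)
  · exact absurd h1 huv.ne
  · exact (h (v, u) (mem_edg.2 ⟨h1, huv.symm⟩)).symm

open Classical in
lemma dens_eq_sum {k : ℕ} {α : Type} [Fintype α] (F : SimpleGraph (Fin k)) (T : SimpleGraph α) :
    dens F T = (∑ φ : Fin k → α, ∏ p ∈ edg F, if T.Adj (φ p.1) (φ p.2) then (1 : ℝ) else 0)
      / (Fintype.card α : ℝ) ^ k := by
  unfold dens Hom
  rw [Nat.card_eq_fintype_card, Nat.card_eq_fintype_card, Nat.card_eq_fintype_card,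
    Fintype.card_fin, Fintype.card_subtype, Finset.card_filter]
  congr 1
  push_cast
  refine Finset.sum_congr rfl fun φ _ => ?_
  rw [Finset.prod_boole]
  by_cases h : ∀ u v, F.Adj u v → T.Adj (φ u) (φ v)
  · rw [if_pos h, if_pos ((hom_iff_edg F T φ).1 h)]
  · rw [if_neg h, if_neg (mt (hom_iff_edg F T φ).2 h)]

theorem exists_step_graphon {α : Type} [Fintype α] [Nonempty α] (T : SimpleGraph α) :
    ∃ W, IsGraphon W ∧ ∀ (k : ℕ) (F : SimpleGraph (Fin k)), homDensity F W = dens F T := by
  classical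
  let _ : MeasurableSpace α := ⊤
  let μ : Measure α := uniformOn Set.univ
  obtain ⟨π, hπ, hmap⟩ := Measure.exists_measurable_map_eq μ
  have hmp : MeasurePreserving π volume μ := ⟨hπ, hmap⟩
  refine ⟨fun x y => if T.Adj (π x) (π y) then 1 else 0, ⟨?_, fun x y => ?_, fun x y => ?_⟩,
    fun k F => ?_⟩
  · have h1 : Measurable fun p : α × α => if T.Adj p.1 p.2 then (1 : ℝ) else 0 :=
      Measurable.of_discrete
    exact (h1.comp (hπ.prodMap hπ)).aemeasurable
  · simp only [T.adj_comm]
  · simp only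
    split_ifs <;> norm_num
  · have h2 := measurePreserving_pi (fun _ : Fin k => volume) (fun _ => μ) (fun _ => hmp)
    let g : (Fin k → α) → ℝ := fun φ => ∏ p ∈ edg F, if T.Adj (φ p.1) (φ p.2) then (1 : ℝ) else 0
    have h3 : ∫ φ, g φ ∂(Measure.pi fun _ : Fin k => μ)
        = ∫ x : Fin k → unitInterval, g (fun i => π (x i)) := by
      rw [← h2.map_eq, integral_map h2.measurable.aemeasurable
        (Measurable.of_discrete).aestronglyMeasurable]
      rfl
    rw [homDensity_eq, dens_eq_sum]
    refine h3.symm.trans ?_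
    rw [integral_fintype Integrable.of_finite, Finset.sum_div]
    refine Finset.sum_congr rfl fun φ _ => ?_
    simp [μ, Measure.real, uniformOn_univ, g, div_eq_inv_mul]

lemma mp_comp {ι κ : Type} [Fintype ι] [Fintype κ] {φ : κ → ι} (hφ : Function.Injective φ) :
    MeasurePreserving (fun (x : ι → unitInterval) (j : κ) => x (φ j)) volume volume := by
  refine ⟨by fun_prop, ?_⟩
  have h1 := (iIndepFun_pi (μ := fun _ : ι => (volume : Measure unitInterval))
    (X := fun _ => id) (fun _ => aemeasurable_id)).precomp hφ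
  have h2 := (iIndepFun_iff_map_fun_eq_pi_map
    (fun j => (measurable_pi_apply (φ j)).aemeasurable)).1 h1
  refine h2.trans ?_
  congr 1
  funext j
  exact (measurePreserving_eval (fun _ : ι => (volume : Measure unitInterval)) (φ j)).map_eq

lemma mp_pair {ι : Type} [Fintype ι] {i j : ι} (h : i ≠ j) :
    MeasurePreserving (fun x : ι → unitInterval => (x i, x j)) volume volume := by
  refine ⟨by fun_prop, ?_⟩
  have h1 := (iIndepFun_pi (μ := fun _ : ι => (volume : Measure unitInterval))
    (X := fun _ => id) (fun _ => aemeasurable_id)).indepFun h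
  have h2 := (indepFun_iff_map_prod_eq_prod_map_map (measurable_pi_apply i).aemeasurable
    (measurable_pi_apply j).aemeasurable).1 h1
  refine h2.trans ?_
  have e := fun i => (measurePreserving_eval (fun _ : ι => (volume : Measure unitInterval)) i).map_eq
  exact congrArg₂ Measure.prod (e i) (e j)

lemma prod_aem {k : ℕ} (F : SimpleGraph (Fin k)) {W : unitInterval → unitInterval → ℝ}
    (hW : IsGraphon W) :
    AEMeasurable fun x : Fin k → unitInterval => ∏ p ∈ edg F, W (x p.1) (x p.2) :=
  Finset.aemeasurable_fun_prod _ fun _ hp =>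
    hW.1.comp_quasiMeasurePreserving (mp_pair (mem_edg.1 hp).1.ne).quasiMeasurePreserving

lemma prod_mem {k : ℕ} {β : Type} (F : SimpleGraph (Fin k)) {w : β → β → ℝ}
    (hw : ∀ x y, 0 ≤ w x y ∧ w x y ≤ 1) (x : Fin k → β) :
    0 ≤ ∏ p ∈ edg F, w (x p.1) (x p.2) ∧ ∏ p ∈ edg F, w (x p.1) (x p.2) ≤ 1 :=
  ⟨Finset.prod_nonneg fun _ _ => (hw _ _).1,
    Finset.prod_le_one (fun _ _ => (hw _ _).1) fun _ _ => (hw _ _).2⟩

lemma prod_int {k : ℕ} (F : SimpleGraph (Fin k)) {W : unitInterval → unitInterval → ℝ}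
    (hW : IsGraphon W) :
    Integrable fun x : Fin k → unitInterval => ∏ p ∈ edg F, W (x p.1) (x p.2) :=
  Integrable.of_bound (prod_aem F hW).aestronglyMeasurable 1 (Filter.Eventually.of_forall fun x => by
    rw [Real.norm_of_nonneg (prod_mem F hW.2.2 x).1]
    exact (prod_mem F hW.2.2 x).2)

lemma homDensity_mem {k : ℕ} (F : SimpleGraph (Fin k)) {W : unitInterval → unitInterval → ℝ}
    (hW : IsGraphon W) : 0 ≤ homDensity F W ∧ homDensity F W ≤ 1 := by
  rw [homDensity_eq]
  refine ⟨integral_nonneg fun x => (prod_mem F hW.2.2 x).1, ?_⟩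
  have := integral_mono (prod_int F hW) (integrable_const (1 : ℝ))
    fun x => (prod_mem F hW.2.2 x).2
  simpa using this

section sample
variable {n : ℕ}

/-- The graph of a sample of coin flips. -/
def coinG (ω : Fin n × Fin n → Bool) : SimpleGraph (Fin n) where
  Adj i j := i ≠ j ∧ ω (min i j, max i j) = true
  symm := ⟨fun i j h => ⟨h.1.symm, by rw [min_comm, max_comm]; exact h.2⟩⟩
  loopless := ⟨fun _ h => h.1 rfl⟩

/-- The weight of a sample of coin flips. -/
def coinP (w : Fin n → Fin n → ℝ) (ω : Fin n × Fin n → Bool) : ℝ :=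
  ∏ s, if ω s then w s.1 s.2 else 1 - w s.1 s.2

lemma coin_event (w : Fin n → Fin n → ℝ) (S : Finset (Fin n × Fin n)) :
    ∑ ω, coinP w ω * ∏ s ∈ S, (if ω s then (1 : ℝ) else 0) = ∏ s ∈ S, w s.1 s.2 := by
  have h := Finset.prod_univ_sum (fun _ : Fin n × Fin n => (Finset.univ : Finset Bool))
    (fun s b => (if b then w s.1 s.2 else 1 - w s.1 s.2)
      * if s ∈ S then (if b then (1 : ℝ) else 0) else 1)
  rw [Fintype.piFinset_univ] at h
  have e1 : ∀ ω : Fin n × Fin n → Bool, coinP w ω * ∏ s ∈ S, (if ω s then (1 : ℝ) else 0)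
      = ∏ s, ((if ω s then w s.1 s.2 else 1 - w s.1 s.2)
        * if s ∈ S then (if ω s then (1 : ℝ) else 0) else 1) := by
    intro ω
    rw [Finset.prod_mul_distrib, Finset.prod_ite_mem, Finset.univ_inter]
    rfl
  simp only [e1]
  rw [← h, ← Finset.univ_inter S, ← Finset.prod_ite_mem]
  refine Finset.prod_congr rfl fun s _ => ?_
  by_cases hs : s ∈ S <;> simp [hs]

lemma coin_prob {w : Fin n → Fin n → ℝ} (hw : ∀ x y, 0 ≤ w x y ∧ w x y ≤ 1) :
    IsProb (coinP w) := by
  refine ⟨fun ω => Finset.prod_nonneg fun s _ => ?_, by simpa using coin_event w ∅⟩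
  have := hw s.1 s.2
  split_ifs <;> linarith

open Classical in
lemma coin_hom {k : ℕ} (F : SimpleGraph (Fin k)) {w : Fin n → Fin n → ℝ}
    (hs : ∀ x y, w x y = w y x) {φ : Fin k → Fin n} (hφ : Function.Injective φ) :
    ∑ ω, coinP w ω * ∏ p ∈ edg F, (if (coinG ω).Adj (φ p.1) (φ p.2) then (1 : ℝ) else 0)
      = ∏ p ∈ edg F, w (φ p.1) (φ p.2) := by
  let o : Fin k × Fin k → Fin n × Fin n := fun p => (min (φ p.1) (φ p.2), max (φ p.1) (φ p.2))
  have ho : ∀ p ∈ edg F, ∀ q ∈ edg F, o p = o q → p = q := by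
    rintro ⟨a, b⟩ hp ⟨c, d⟩ hq h
    have h1 := (mem_edg.1 hp).1
    have h2 := (mem_edg.1 hq).1
    simp only [o, Prod.mk.injEq] at h h1 h2 ⊢
    have : (φ a = φ c ∧ φ b = φ d) ∨ (φ a = φ d ∧ φ b = φ c) := by
      rcases le_total (φ a) (φ b) with h3 | h3 <;> rcases le_total (φ c) (φ d) with h4 | h4 <;>
        simp only [min_eq_left, min_eq_right, max_eq_left, max_eq_right, h3, h4] at h <;> tauto
    rcases this with ⟨h3, h4⟩ | ⟨h3, h4⟩
    · exact ⟨hφ h3, hφ h4⟩
    · have := hφ h3
      have := hφ h4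
      omega
  have h := coin_event w ((edg F).image o)
  simp only [Finset.prod_image ho] at h
  refine Eq.trans (Finset.sum_congr rfl fun ω _ => ?_) (h.trans ?_)
  · congr 1
    refine Finset.prod_congr rfl fun p hp => if_congr ?_ rfl rfl
    exact ⟨fun h => h.2, fun h => ⟨fun h' => (mem_edg.1 hp).1.ne (hφ h'), h⟩⟩
  · refine Finset.prod_congr rfl fun p _ => ?_
    rcases le_total (φ p.1) (φ p.2) with h3 | h3
    · simp [o, h3]
    · simp [o, h3, hs (φ p.2)]

open Classical in
/-- Sum of the edge products over injective maps. -/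
noncomputable def injS {k : ℕ} (F : SimpleGraph (Fin k)) (w : Fin n → Fin n → ℝ) : ℝ :=
  ∑ φ ∈ Finset.univ.filter (fun φ : Fin k → Fin n => Function.Injective φ),
    ∏ p ∈ edg F, w (φ p.1) (φ p.2)

open Classical in
lemma card_inj (k : ℕ) :
    (Finset.univ.filter fun φ : Fin k → Fin n => Function.Injective φ).card = n.descFactorial k := by
  rw [← Fintype.card_subtype, Fintype.card_congr (Equiv.subtypeInjectiveEquivEmbedding _ _),
    Fintype.card_embedding_eq, Fintype.card_fin, Fintype.card_fin]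

lemma coin_dens {k : ℕ} (F : SimpleGraph (Fin k)) (hn : 0 < n) {w : Fin n → Fin n → ℝ}
    (hs : ∀ x y, w x y = w y x) (hw : ∀ x y, 0 ≤ w x y ∧ w x y ≤ 1) :
    injS F w / (n : ℝ) ^ k ≤ ∑ ω, coinP w ω * dens F (coinG ω) ∧
    ∑ ω, coinP w ω * dens F (coinG ω)
      ≤ injS F w / (n : ℝ) ^ k + (1 - (n.descFactorial k : ℝ) / (n : ℝ) ^ k) := by
  classical
  have hp := coin_prob hw
  have n0 : (0 : ℝ) < (n : ℝ) ^ k := by positivity
  let E : (Fin k → Fin n) → ℝ := fun φ =>
    ∑ ω, coinP w ω * ∏ p ∈ edg F, (if (coinG ω).Adj (φ p.1) (φ p.2) then (1 : ℝ) else 0)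
  have e1 : ∑ ω, coinP w ω * dens F (coinG ω) = (∑ φ, E φ) / (n : ℝ) ^ k := by
    simp only [dens_eq_sum, Fintype.card_fin, E, ← mul_div_assoc, Finset.mul_sum]
    rw [← Finset.sum_div, Finset.sum_comm]
  have e2 : ∀ φ, 0 ≤ E φ ∧ E φ ≤ 1 := by
    intro φ
    have b := fun ω => prod_mem F (w := fun i j => if (coinG ω).Adj i j then (1 : ℝ) else 0)
      (fun i j => by split_ifs <;> norm_num) φ
    refine ⟨Finset.sum_nonneg fun ω _ => mul_nonneg (hp.nonneg ω) (b ω).1, ?_⟩
    rw [← hp.total]
    exact Finset.sum_le_sum fun ω _ => mul_le_of_le_one_right (hp.nonneg ω) (b ω).2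
  have e3 := Finset.sum_filter_add_sum_filter_not Finset.univ
    (fun φ : Fin k → Fin n => Function.Injective φ) E
  have e4 : ∑ φ ∈ Finset.univ.filter (fun φ : Fin k → Fin n => Function.Injective φ), E φ
      = injS F w := by
    unfold injS
    refine Finset.sum_congr (by congr) fun φ hφ => ?_
    have := coin_hom F hs (Finset.mem_filter.1 hφ).2
    simp only [E]
    convert this
  have e5 := Finset.sum_nonneg fun φ
    (_ : φ ∈ Finset.univ.filter fun φ : Fin k → Fin n => ¬ Function.Injective φ) => (e2 φ).1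
  have e6 := Finset.sum_le_sum fun φ
    (_ : φ ∈ Finset.univ.filter fun φ : Fin k → Fin n => ¬ Function.Injective φ) => (e2 φ).2
  have e7 := Finset.card_filter_add_card_filter_not (s := Finset.univ)
    (fun φ : Fin k → Fin n => Function.Injective φ)
  have e8 : (Finset.univ.filter fun φ : Fin k → Fin n => Function.Injective φ).card
      = n.descFactorial k := by convert card_inj k
  rw [e8, Finset.card_univ, Fintype.card_fun, Fintype.card_fin, Fintype.card_fin] at e7
  have e9 : (n.descFactorial k : ℝ) + (Finset.univ.filter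
      fun φ : Fin k → Fin n => ¬ Function.Injective φ).card = (n : ℝ) ^ k := by exact_mod_cast e7
  rw [Finset.sum_const, nsmul_eq_mul, mul_one] at e6
  rw [e1]
  constructor
  · exact div_le_div_of_nonneg_right (by linarith) n0.le
  · rw [div_le_iff₀ n0, add_mul, sub_mul, div_mul_cancel₀ _ n0.ne', div_mul_cancel₀ _ n0.ne']
    linarith

lemma int_injS {k : ℕ} (F : SimpleGraph (Fin k)) {W : unitInterval → unitInterval → ℝ}
    (hW : IsGraphon W) :
    Integrable (fun x : Fin n → unitInterval => injS F fun i j => W (x i) (x j)) ∧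
    ∫ x : Fin n → unitInterval, injS F (fun i j => W (x i) (x j))
      = n.descFactorial k * homDensity F W := by
  classical
  have i1 : ∀ φ ∈ Finset.univ.filter (fun φ : Fin k → Fin n => Function.Injective φ),
      Integrable fun x : Fin n → unitInterval => ∏ p ∈ edg F, W (x (φ p.1)) (x (φ p.2)) :=
    fun φ hφ => (mp_comp (Finset.mem_filter.1 hφ).2).integrable_comp_of_integrable (prod_int F hW)
  have i2 : ∀ φ ∈ Finset.univ.filter (fun φ : Fin k → Fin n => Function.Injective φ),
      ∫ x : Fin n → unitInterval, ∏ p ∈ edg F, W (x (φ p.1)) (x (φ p.2)) = homDensity F W := by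
    intro φ hφ
    have h := mp_comp (Finset.mem_filter.1 hφ).2
    rw [homDensity_eq, ← h.map_eq, integral_map h.measurable.aemeasurable
      (by rw [h.map_eq]; exact (prod_aem F hW).aestronglyMeasurable)]
  unfold injS
  refine ⟨by convert integrable_finsetSum _ i1, ?_⟩
  have := integral_finsetSum _ i1
  rw [Finset.sum_congr rfl i2, Finset.sum_const, nsmul_eq_mul] at this
  have e8 : (Finset.univ.filter fun φ : Fin k → Fin n => Function.Injective φ).card
      = n.descFactorial k := by convert card_inj k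
  rw [e8] at this
  convert this

end sample

lemma tangent {a y c : ℝ} (ha : 0 < a) (hy : 0 ≤ y) (hc : 1 ≤ c) :
    a ^ c + c * a ^ c / a * (y - a) ≤ y ^ c := by
  have h := one_add_mul_self_le_rpow_one_add (s := y / a - 1)
    (by have := div_nonneg hy ha.le; linarith) hc
  rw [add_sub_cancel, Real.div_rpow hy ha.le, le_div_iff₀ (Real.rpow_pos_of_pos ha c)] at h
  refine le_trans (le_of_eq ?_) h
  field_simp

theorem graphon_of_finite {k l : ℕ} (G : SimpleGraph (Fin k)) (H : SimpleGraph (Fin l)) {c : ℝ}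
    (hc : 1 ≤ c) (h : ∀ (n : ℕ), 0 < n → ∀ T : SimpleGraph (Fin n), dens G T ^ c ≤ dens H T)
    {W : unitInterval → unitInterval → ℝ} (hW : IsGraphon W) :
    homDensity G W ^ c ≤ homDensity H W := by
  obtain ⟨a0, a1⟩ := homDensity_mem G hW
  obtain ⟨b0, b1⟩ := homDensity_mem H hW
  rcases a0.eq_or_lt with ha | ha
  · rw [← ha, Real.zero_rpow (by linarith)]
    exact b0
  set a := homDensity G W
  set s := c * a ^ c / a with hs
  have hs0 : 0 ≤ s := by positivity
  have main : ∀ n : ℕ, 0 < n → a ^ c + s * ((n.descFactorial k : ℝ) / (n : ℝ) ^ k * a - a)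
      ≤ (n.descFactorial l : ℝ) / (n : ℝ) ^ l * homDensity H W
        + (1 - (n.descFactorial l : ℝ) / (n : ℝ) ^ l) := by
    intro n hn
    have p1 : ∀ x : Fin n → unitInterval,
        a ^ c + s * (injS G (fun i j => W (x i) (x j)) / (n : ℝ) ^ k - a)
        ≤ injS H (fun i j => W (x i) (x j)) / (n : ℝ) ^ l
          + (1 - (n.descFactorial l : ℝ) / (n : ℝ) ^ l) := by
      intro x
      have hp := coin_prob (w := fun i j => W (x i) (x j)) (fun i j => hW.2.2 _ _)
      have q1 := (coin_dens G hn (w := fun i j => W (x i) (x j)) (fun i j => hW.2.1 _ _)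
        (fun i j => hW.2.2 _ _)).1
      have q2 := (coin_dens H hn (w := fun i j => W (x i) (x j)) (fun i j => hW.2.1 _ _)
        (fun i j => hW.2.2 _ _)).2
      have q3 := Finset.sum_le_sum fun ω (_ : ω ∈ Finset.univ) => mul_le_mul_of_nonneg_left
        ((tangent ha (dens_nonneg G (coinG ω)) hc).trans (h n hn (coinG ω))) (hp.nonneg ω)
      have q4 : ∀ ω, coinP (fun i j => W (x i) (x j)) ω
          * (a ^ c + c * a ^ c / a * (dens G (coinG ω) - a))
          = coinP (fun i j => W (x i) (x j)) ω * (a ^ c - s * a)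
            + s * (coinP (fun i j => W (x i) (x j)) ω * dens G (coinG ω)) := fun ω => by
        rw [hs]
        ring
      simp only [q4] at q3
      rw [Finset.sum_add_distrib, ← Finset.sum_mul, ← Finset.mul_sum, hp.total] at q3
      have := mul_le_mul_of_nonneg_left q1 hs0
      linarith
    obtain ⟨i1, i2⟩ := int_injS (n := n) G hW
    obtain ⟨i3, i4⟩ := int_injS (n := n) H hW
    have j1 : Integrable (fun x : Fin n → unitInterval =>
        s * (injS G (fun i j => W (x i) (x j)) / (n : ℝ) ^ k - a)) :=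
      ((i1.div_const ((n : ℝ) ^ k)).sub (integrable_const a)).const_mul s
    have p2 := integral_mono ((integrable_const (a ^ c)).add j1)
      ((i3.div_const ((n : ℝ) ^ l)).add (integrable_const _)) p1
    simp only [Pi.add_apply] at p2
    rw [integral_add (integrable_const _) j1, integral_const_mul,
      integral_sub (i1.div_const _) (integrable_const a),
      integral_add (i3.div_const _) (integrable_const _), integral_div, integral_div, i2, i4] at p2
    simp only [integral_const, probReal_univ, smul_eq_mul, one_mul] at p2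
    rw [div_mul_eq_mul_div (n.descFactorial k : ℝ), div_mul_eq_mul_div (n.descFactorial l : ℝ)]
    exact p2
  have lim : ∀ m : ℕ, Filter.Tendsto (fun n : ℕ => (n.descFactorial m : ℝ) / (n : ℝ) ^ m)
      Filter.atTop (nhds 1) := fun m =>
    (Asymptotics.isEquivalent_iff_tendsto_one ((Filter.eventually_gt_atTop 0).mono
      fun n hn => by positivity)).1 (isEquivalent_descFactorial m)
  have l1 := ((((lim k).mul_const a).sub_const a).const_mul s).const_add (a ^ c)
  have l2 := ((lim l).mul_const (homDensity H W)).add ((lim l).const_sub 1)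
  have := le_of_tendsto_of_tendsto l1 l2 ((Filter.eventually_gt_atTop 0).mono main)
  simpa using this

end Pool.Agent.Lib.MP_3b2820_co
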