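import Pool.Agent.Lib.MP_3b2820_co.Chain

/-!
The recursion satisfied by the conditional entropies along the chain.
-/

set_option autoImplicit false
set_option linter.unusedSectionVars false

open Finset

namespace Pool.Agent.Lib.MP_3b2820_co

/-- Kinds of variables: main variable of a node, syndrome of a relation, step syndrome. -/
abbrev Yv (N R : Type) : Type := (N ⊕ R) ⊕ N

section defs
variable {τ N R : Type} [DecidableEq τ] [DecidableEq N] [DecidableEq R]

/-- Main variable. -/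
abbrev vx (R : Type) (t : τ) (v : N) : τ × Yv N R := (t, Sum.inl (Sum.inl v))
/-- Step syndrome. -/
abbrev vs (R : Type) (t : τ) (v : N) : τ × Yv N R := (t, Sum.inr v)
/-- Relation syndrome. -/
abbrev vr (N : Type) (t : τ) (r : R) : τ × Yv N R := (t, Sum.inl (Sum.inr r))

/-- Main variables of a set of nodes. -/
def xs (R : Type) [DecidableEq R] (t : τ) (E : Finset N) : Finset (τ × Yv N R) :=
  E.image (vx R t)
/-- Step syndromes of a set of nodes. -/
def ss (R : Type) [DecidableEq R] (t : τ) (E : Finset N) : Finset (τ × Yv N R) :=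
  E.image (vs R t)

@[simp] lemma mem_xs (t : τ) (E : Finset N) (c : τ × Yv N R) :
    c ∈ xs R t E ↔ c.1 = t ∧ ∃ v ∈ E, c.2 = Sum.inl (Sum.inl v) := by
  obtain ⟨a, b⟩ := c
  simp only [xs, Finset.mem_image, Prod.mk.injEq]
  constructor
  · rintro ⟨v, hv, rfl, rfl⟩
    exact ⟨rfl, v, hv, rfl⟩
  · rintro ⟨rfl, v, hv, rfl⟩
    exact ⟨v, hv, rfl, rfl⟩

@[simp] lemma mem_ss (t : τ) (E : Finset N) (c : τ × Yv N R) :
    c ∈ ss R t E ↔ c.1 = t ∧ ∃ v ∈ E, c.2 = Sum.inr v := by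
  obtain ⟨a, b⟩ := c
  simp only [ss, Finset.mem_image, Prod.mk.injEq]
  constructor
  · rintro ⟨v, hv, rfl, rfl⟩
    exact ⟨rfl, v, hv, rfl⟩
  · rintro ⟨rfl, v, hv, rfl⟩
    exact ⟨v, hv, rfl, rfl⟩

lemma sum_xs (t : τ) (E : Finset N) (φ : τ × Yv N R → ℝ) :
    ∑ c ∈ xs R t E, φ c = ∑ v ∈ E, φ (vx R t v) :=
  Finset.sum_image fun a _ b _ h => by simpa using h

lemma sum_ss (t : τ) (E : Finset N) (φ : τ × Yv N R → ℝ) :
    ∑ c ∈ ss R t E, φ c = ∑ v ∈ E, φ (vs R t v) :=
  Finset.sum_image fun a _ b _ h => by simpa using h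

/-- Nominal weight of a variable. -/
def wt (g : Finset (τ × Yv N R) → ℝ) (ν : τ × Yv N R → ℝ) (c : τ × Yv N R) : ℝ :=
  Sum.elim (Sum.elim (fun _ => g {c}) (fun _ => ν c)) (fun _ => ν c) c.2

@[simp] lemma wt_x (g : Finset (τ × Yv N R) → ℝ) (ν : τ × Yv N R → ℝ) (t : τ) (v : N) :
    wt g ν (t, Sum.inl (Sum.inl v)) = g {vx R t v} := rfl
@[simp] lemma wt_r (g : Finset (τ × Yv N R) → ℝ) (ν : τ × Yv N R → ℝ) (t : τ) (r : R) :
    wt g ν (t, Sum.inl (Sum.inr r)) = ν (vr N t r) := rfl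
@[simp] lemma wt_s (g : Finset (τ × Yv N R) → ℝ) (ν : τ × Yv N R → ℝ) (t : τ) (v : N) :
    wt g ν (t, Sum.inr v) = ν (vs R t v) := rfl

/-- Denoised entropy of a main variable. -/
def fx (g : Finset (τ × Yv N R) → ℝ) (ν : τ × Yv N R → ℝ) (t : τ) (v : N) : ℝ :=
  g {vx R t v} - ν (vx R t v)

/-- The approximate constraints for one step. -/
structure Hyp [Fintype N] [Fintype R] (A B : R → Finset N) (up : R → N → Bool)
    (g : Finset (τ × Yv N R) → ℝ) (ν : τ × Yv N R → ℝ) (Δ : ℝ) (t t' : τ) : Prop where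
  fd3 : ∀ v, cnd g {vx R t' v} {vx R t v, vs R t v} ≤ ν (vx R t' v) + Δ
  fd4 : ∀ v, cnd g {vs R t v} {vx R t v, vx R t' v} ≤ ν (vs R t v) + Δ
  fd1 : ∀ r, cnd g (xs R t (B r)) (xs R t (A r) ∪ {vr N t r}) ≤ ∑ b ∈ B r, ν (vx R t b) + Δ
  fdb : ∀ r, cnd g (xs R t (A r)) (xs R t (B r) ∪ {vr N t r}) ≤ ∑ a ∈ A r, ν (vx R t a) + Δ
  fd6 : ∀ r, cnd g {vr N t r} (xs R t (A r ∪ B r)) ≤ ν (vr N t r) + Δ
  fdc : ∀ r, cnd g (ss R t (B r)) (ss R t (A r) ∪ {vr N t r, vr N t' r})
    ≤ ∑ b ∈ B r, ν (vs R t b) + Δ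
  ca : ∀ r, cnd g (ss R t ((A r ∪ B r).filter fun v => up r v)) {vr N t r}
    ≤ ∑ v ∈ (A r ∪ B r).filter (fun v => up r v), (ν (vs R t v) + fx g ν t' v) + Δ
  cb1 : ∀ r, cnd g {vr N t r} (ss R t ((A r).filter fun v => up r v))
    ≤ ν (vr N t r) + ∑ b ∈ B r, fx g ν t b + Δ
  cb2 : ∀ r, cnd g (ss R t ((B r).filter fun v => up r v))
      (ss R t ((A r).filter fun v => up r v) ∪ {vr N t r})
    ≤ ∑ v ∈ (B r).filter (fun v => up r v), (ν (vs R t v) + fx g ν t' v) + Δ
  h0 : ∑ l, wt g ν (t, Sum.inl l) - Δ ≤ g (lev N t)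
  h1 : ∑ l, wt g ν (t', Sum.inl l) + ∑ v, wt g ν (t, Sum.inr v) - Δ ≤ g (cop t t') - g (lev N t)

/-- History of the main variable of a node. -/
def hX (R : Type) [DecidableEq R] (v : N) (k : ℕ) : Finset (ℕ × Yv N R) :=
  (Finset.range (k + 1)).image fun t => vx R t v
/-- History of the step syndrome of a node. -/
def hS (R : Type) [DecidableEq R] (v : N) (k : ℕ) : Finset (ℕ × Yv N R) :=
  (Finset.range k).image fun t => vs R t v
/-- History of the syndrome of a relation. -/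
def hR (N : Type) [DecidableEq N] (r : R) (n : ℕ) : Finset (ℕ × Yv N R) :=
  (Finset.range (n + 1)).image fun t => vr N t r

@[simp] lemma mem_hX (v : N) (k : ℕ) (c : ℕ × Yv N R) :
    c ∈ hX R v k ↔ c.1 ≤ k ∧ c.2 = Sum.inl (Sum.inl v) := by
  obtain ⟨a, b⟩ := c
  simp only [hX, Finset.mem_image, Prod.mk.injEq, Finset.mem_range]
  constructor
  · rintro ⟨t, ht, rfl, rfl⟩
    exact ⟨by omega, rfl⟩
  · rintro ⟨h, rfl⟩
    exact ⟨a, by omega, rfl, rfl⟩

@[simp] lemma mem_hS (v : N) (k : ℕ) (c : ℕ × Yv N R) :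
    c ∈ hS R v k ↔ c.1 < k ∧ c.2 = Sum.inr v := by
  obtain ⟨a, b⟩ := c
  simp only [hS, Finset.mem_image, Prod.mk.injEq, Finset.mem_range]
  constructor
  · rintro ⟨t, ht, rfl, rfl⟩
    exact ⟨ht, rfl⟩
  · rintro ⟨h, rfl⟩
    exact ⟨a, h, rfl, rfl⟩

@[simp] lemma mem_hR (r : R) (k : ℕ) (c : ℕ × Yv N R) :
    c ∈ hR N r k ↔ c.1 ≤ k ∧ c.2 = Sum.inl (Sum.inr r) := by
  obtain ⟨a, b⟩ := c
  simp only [hR, Finset.mem_image, Prod.mk.injEq, Finset.mem_range]
  constructor
  · rintro ⟨t, ht, rfl, rfl⟩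
    exact ⟨by omega, rfl⟩
  · rintro ⟨h, rfl⟩
    exact ⟨a, by omega, rfl, rfl⟩

/-- The remaining entropy of a node after `k` steps. -/
def zz (g : Finset (ℕ × Yv N R) → ℝ) (ν : ℕ × Yv N R → ℝ) (k : ℕ) (v : N) : ℝ :=
  cnd g (hX R v k) (hS R v k) - ∑ t ∈ Finset.range (k + 1), ν (vx R t v)

lemma sum_shift (E : Finset N) (u : N → Bool) (n : ℕ) (ψ : ℕ → N → ℝ) :
    ∑ v ∈ E, ∑ t ∈ Finset.range (n + (u v).toNat), ψ t v
      = ∑ t ∈ Finset.range n, ∑ v ∈ E, ψ t v + ∑ v ∈ E.filter (fun v => u v), ψ n v := by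
  rw [Finset.sum_comm (s := Finset.range n), Finset.sum_filter, ← Finset.sum_add_distrib]
  refine Finset.sum_congr rfl fun v _ => ?_
  cases h : u v <;> simp [Finset.sum_range_succ]

end defs

section key
variable {N R : Type} [DecidableEq N] [DecidableEq R] [Fintype N] [Fintype R]
  {A B : R → Finset N} {up : R → N → Bool} {g : Finset (ℕ × Yv N R) → ℝ}
  {ν : ℕ × Yv N R → ℝ} {Δ : ℝ} {m : ℕ}

lemma sum_upTo (k : ℕ) (φ : ℕ × Yv N R → ℝ) :
    ∑ c ∈ upTo k, φ c = ∑ t ∈ Finset.range k, ∑ y, φ (t, y) + ∑ l, φ (k, Sum.inl l) := by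
  unfold upTo
  rw [Finset.sum_union, Finset.sum_product]
  · congr 1
    exact Finset.sum_image fun a _ b _ h => by simpa using h
  · rw [Finset.disjoint_left]
    intro c hc hc'
    simp at hc hc'
    omega

lemma card_upTo_le (k : ℕ) :
    ((upTo k : Finset (ℕ × Yv N R)).card : ℝ) ≤ (k + 1) * Fintype.card (Yv N R) := by
  have : (upTo k : Finset (ℕ × Yv N R)) ⊆ Finset.range (k + 1) ×ˢ Finset.univ := by
    intro c hc
    rw [mem_upTo] at hc
    simp
    omega
  have h := Finset.card_le_card this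
  rw [Finset.card_product, Finset.card_range, Finset.card_univ] at h
  exact_mod_cast h

theorem low (hg : Poly g) (hΔ : 0 ≤ Δ) (H : ∀ t < m, Hyp A B up g ν Δ t (t + 1))
    (hm : ∀ k < m, g (upTo (k + 1)) + g (lev N k) = g (upTo k) + g (cop k (k + 1)))
    {k : ℕ} (hk : k < m) {T : Finset (ℕ × Yv N R)} (hT : T ⊆ upTo k) :
    ∑ c ∈ T, wt g ν c - (k + 1) * (1 + Fintype.card (Yv N R)) * Δ ≤ g T := by
  have tot : ∀ j ≤ k, ∑ c ∈ upTo j, wt g ν c - (j + 1) * Δ ≤ g (upTo j) := by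
    intro j
    induction j with
    | zero =>
      intro _
      have h0 := (H 0 (by omega)).h0
      have : (upTo 0 : Finset (ℕ × Yv N R)) = lev N 0 := by simp [upTo]
      rw [sum_upTo, this]
      simpa using h0
    | succ j ih =>
      intro hj
      have h1 := ih (by omega)
      have h2 := (H j (by omega)).h1
      have h3 := hm j (by omega)
      rw [sum_upTo] at h1 ⊢
      rw [Finset.sum_range_succ, Fintype.sum_sum_type (fun y => wt g ν (j, y))]
      push_cast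
      linarith
  let U : Finset (ℕ × Yv N R) := upTo k
  let isM : ℕ × Yv N R → Prop := fun c => ∃ v, c.2 = Sum.inl (Sum.inl v)
  classical
  have h1 : g U ≤ g T + cnd g (U \ T) T := hg.le_add_cnd _ _ (by
    intro c hc
    simp only [Finset.mem_union, Finset.mem_sdiff]
    tauto)
  have h2 := hg.split (A := U \ T) (B := T) ((U \ T).filter isM) ((U \ T).filter fun c => ¬ isM c)
    (by
      intro c hc
      simp only [Finset.mem_union, Finset.mem_filter]
      tauto)
  have h3 : cnd g ((U \ T).filter isM) T ≤ ∑ c ∈ (U \ T).filter isM, wt g ν c := by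
    refine (hg.cnd_le_val _ _).trans ((hg.le_sum _).trans (le_of_eq ?_))
    refine Finset.sum_congr rfl fun c hc => ?_
    obtain ⟨t, y⟩ := c
    obtain ⟨v, hv⟩ := (Finset.mem_filter.1 hc).2
    simp only at hv
    subst hv
    rfl
  have h4 : cnd g ((U \ T).filter fun c => ¬ isM c) ((U \ T).filter isM ∪ T)
      ≤ ∑ c ∈ (U \ T).filter (fun c => ¬ isM c), (wt g ν c + Δ) := by
    refine (hg.cover ((U \ T).filter fun c => ¬ isM c) (fun c => {c}) (fun _ => U.filter isM)
      (fun c hc => Or.inr ⟨c, hc, Finset.mem_singleton_self c⟩) (fun _ _ c hc => ?_)).trans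
      (Finset.sum_le_sum fun c hc => ?_)
    · simp only [Finset.mem_union, Finset.mem_filter, Finset.mem_sdiff] at *
      tauto
    · have hc1 := (Finset.mem_sdiff.1 (Finset.mem_filter.1 hc).1).1
      have hc2 := (Finset.mem_filter.1 hc).2
      rw [mem_upTo] at hc1
      obtain ⟨t, (v | r) | v⟩ := c
      · exact absurd ⟨v, rfl⟩ hc2
      · have ht : t ≤ k := by
          simp at hc1
          omega
        refine le_trans (hg.cnd_le Finset.subset_union_left ?_) ((H t (by omega)).fd6 r)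
        rintro ⟨t', y⟩ hc
        simp only [mem_xs] at hc
        obtain ⟨rfl, v, -, rfl⟩ := hc
        refine Finset.mem_filter.2 ⟨?_, v, rfl⟩
        rw [mem_upTo]
        simp
        omega
      · have ht : t < k := by simpa using hc1
        refine le_trans (hg.cnd_le Finset.subset_union_left ?_) ((H t (by omega)).fd4 v)
        intro c hc
        simp only [Finset.mem_insert, Finset.mem_singleton] at hc
        rcases hc with rfl | rfl
        · refine Finset.mem_filter.2 ⟨?_, v, rfl⟩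
          rw [mem_upTo]
          simp
          omega
        · refine Finset.mem_filter.2 ⟨?_, v, rfl⟩
          rw [mem_upTo]
          simp
          omega
  rw [Finset.sum_add_distrib, Finset.sum_const, nsmul_eq_mul] at h4
  have h5 := Finset.sum_filter_add_sum_filter_not (U \ T) isM (wt g ν)
  have h6 := Finset.sum_sdiff (f := wt g ν) hT
  have h7 : (((U \ T).filter fun c => ¬ isM c).card : ℝ) ≤ (k + 1) * Fintype.card (Yv N R) := by
    refine le_trans ?_ (card_upTo_le k)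
    exact_mod_cast Finset.card_le_card ((Finset.filter_subset _ _).trans Finset.sdiff_subset)
  have h8 := mul_le_mul_of_nonneg_right h7 hΔ
  have h9 := tot k le_rfl
  simp only [U] at *
  nlinarith

end key

end Pool.Agent.Lib.MP_3b2820_co
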