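import Pool.Agent.Lib.MP_3b2820_co.Key

/-!
The recursion satisfied by the conditional entropies along the chain, continued.
-/

set_option autoImplicit false
set_option linter.unusedSectionVars false

open Finset

namespace Pool.Agent.Lib.MP_3b2820_co

section key
variable {N R : Type} [DecidableEq N] [DecidableEq R] [Fintype N] [Fintype R]
  {A B : R → Finset N} {up : R → N → Bool} {g : Finset (ℕ × Yv N R) → ℝ}
  {ν : ℕ × Yv N R → ℝ} {Δ : ℝ} {m : ℕ}

/-- Histories of main variables with shifted lengths. -/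
def bX (R : Type) [DecidableEq R] (u : N → Bool) (n : ℕ) (E : Finset N) :
    Finset (ℕ × Yv N R) := E.biUnion fun v => hX R v (n + (u v).toNat)
/-- Histories of step syndromes with shifted lengths. -/
def bS (R : Type) [DecidableEq R] (u : N → Bool) (n : ℕ) (E : Finset N) :
    Finset (ℕ × Yv N R) := E.biUnion fun v => hS R v (n + (u v).toNat)

@[simp] lemma mem_bX (u : N → Bool) (n : ℕ) (E : Finset N) (c : ℕ × Yv N R) :
    c ∈ bX R u n E ↔ ∃ v ∈ E, c.1 ≤ n + (u v).toNat ∧ c.2 = Sum.inl (Sum.inl v) := by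
  simp [bX]

@[simp] lemma mem_bS (u : N → Bool) (n : ℕ) (E : Finset N) (c : ℕ × Yv N R) :
    c ∈ bS R u n E ↔ ∃ v ∈ E, c.1 < n + (u v).toNat ∧ c.2 = Sum.inr v := by
  simp [bS]

lemma card_le_cY (E : Finset N) : (E.card : ℝ) ≤ Fintype.card (Yv N R) := by
  have h1 := Finset.card_le_univ E
  have h2 : Fintype.card N ≤ Fintype.card (Yv N R) := by simp
  exact_mod_cast h1.trans h2

lemma upper (hg : Poly g) (hΔ : 0 ≤ Δ) (u : N → Bool) (r : R) (n : ℕ) {D E E' : Finset N}
    (hD : D ⊆ E ∪ E') (hE : E ⊆ D) (hE' : E' ⊆ D)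
    (hfd : ∀ t ≤ n, cnd g (xs R t E) (xs R t E' ∪ {vr N t r}) ≤ ∑ a ∈ E, ν (vx R t a) + Δ)
    (h3 : ∀ v, cnd g {vx R (n + 1) v} {vx R n v, vs R n v} ≤ ν (vx R (n + 1) v) + Δ) :
    cnd g (bX R u n D) (hR N r n ∪ bS R u n D)
      ≤ ∑ b ∈ E', cnd g (hX R b (n + (u b).toNat)) (hS R b (n + (u b).toNat))
        + ∑ a ∈ E, ∑ t ∈ Finset.range (n + (u a).toNat + 1), ν (vx R t a)
        + (n + 1 + Fintype.card (Yv N R)) * Δ := by
  set Y := hR N r n ∪ bS R u n D with hY
  let L1 : Finset (ℕ × Yv N R) := (Finset.range (n + 1)).biUnion fun t => xs R t E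
  let L2 : Finset (ℕ × Yv N R) := xs R (n + 1) (E.filter fun v => u v)
  have h1 := hg.split (A := bX R u n D) (B := Y) (bX R u n E') (L1 ∪ L2) (by
    rintro ⟨t, y⟩ hc
    obtain ⟨v, hv, ht, hy⟩ := (mem_bX _ _ _ _).1 hc
    simp only at hy ht
    subst hy
    rcases Finset.mem_union.1 (hD hv) with h | h
    · by_cases h2 : t ≤ n
      · simp [L1, h, Nat.lt_succ_iff, h2]
      · cases h3 : u v
        · simp [h3] at ht
          omega
        · simp [h3] at ht
          have : t = n + 1 := by omega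
          simp [L2, h, h3, this]
    · simp [h, ht])
  have h2 := cnd_union (g := g) L1 L2 (bX R u n E' ∪ Y)
  have h4 : cnd g (bX R u n E') Y
      ≤ ∑ b ∈ E', cnd g (hX R b (n + (u b).toNat)) (hS R b (n + (u b).toNat)) := by
    refine hg.cover E' _ _ (fun c hc => Or.inr ?_) (fun b hb c hc => ?_)
    · simpa [bX] using hc
    · rw [mem_hS] at hc
      exact Finset.mem_union_right _ ((mem_bS _ _ _ _).2 ⟨b, hE' hb, hc⟩)
  have h5 : cnd g L1 (bX R u n E' ∪ Y)
      ≤ ∑ t ∈ Finset.range (n + 1), (∑ a ∈ E, ν (vx R t a) + Δ) := by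
    refine (hg.cover (Finset.range (n + 1)) (fun t => xs R t E)
      (fun t => xs R t E' ∪ {vr N t r}) (fun c hc => Or.inr ?_) (fun t ht c hc => ?_)).trans
      (Finset.sum_le_sum fun t ht => hfd t (by simpa [Nat.lt_succ_iff] using ht))
    · simpa [L1] using hc
    · have ht' : t ≤ n := by simpa [Nat.lt_succ_iff] using ht
      rcases Finset.mem_union.1 hc with h | h
      · obtain ⟨h1, v, hv, h2⟩ := (mem_xs _ _ _).1 h
        exact Finset.mem_union_left _ ((mem_bX _ _ _ _).2 ⟨v, hv, by omega, h2⟩)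
      · rw [Finset.mem_singleton.1 h]
        simp [hY, ht']
  have h6 : cnd g L2 (L1 ∪ (bX R u n E' ∪ Y))
      ≤ ∑ v ∈ E.filter (fun v => u v), (ν (vx R (n + 1) v) + Δ) := by
    refine (hg.cover (E.filter fun v => u v) (fun v => {vx R (n + 1) v})
      (fun v => {vx R n v, vs R n v}) (fun c hc => Or.inr ?_) (fun v hv c hc => ?_)).trans
      (Finset.sum_le_sum fun v _ => h3 v)
    · obtain ⟨v, hv, rfl⟩ := Finset.mem_image.1 hc
      exact ⟨v, hv, Finset.mem_singleton_self _⟩
    · obtain ⟨hv1, hv2⟩ := Finset.mem_filter.1 hv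
      simp only [Finset.mem_insert, Finset.mem_singleton] at hc
      rcases hc with rfl | rfl
      · simp [L1, hv1]
      · simp [hY, hE hv1, hv2]
  have h7 : ∑ a ∈ E, ∑ t ∈ Finset.range (n + (u a).toNat + 1), ν (vx R t a)
      = ∑ t ∈ Finset.range (n + 1), ∑ a ∈ E, ν (vx R t a)
        + ∑ v ∈ E.filter (fun v => u v), ν (vx R (n + 1) v) := by
    rw [← sum_shift E u (n + 1) (fun t a => ν (vx R t a))]
    refine Finset.sum_congr rfl fun a _ => ?_
    rw [Nat.add_right_comm]
  rw [Finset.sum_add_distrib, Finset.sum_const, nsmul_eq_mul] at h5 h6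
  have h8 := mul_le_mul_of_nonneg_right (card_le_cY (R := R) (E.filter fun v => u v)) hΔ
  rw [Finset.card_range] at h5
  push_cast at h5
  nlinarith

lemma hist_le (hg : Poly g) (v : N) (k : ℕ)
    (h4 : ∀ t < k, cnd g {vs R t v} {vx R t v, vx R (t + 1) v} ≤ ν (vs R t v) + Δ) :
    g (hS R v k) ≤ ∑ t ∈ Finset.range (k + 1), g {vx R t v}
      + ∑ t ∈ Finset.range k, ν (vs R t v) + k * Δ - cnd g (hX R v k) (hS R v k) := by
  have h1 := hg.le_add_cnd (A := hX R v k ∪ hS R v k) (hS R v k) (hX R v k)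
    (by rw [Finset.union_comm])
  have h2 : g (hX R v k) ≤ ∑ t ∈ Finset.range (k + 1), g {vx R t v} := by
    refine (hg.le_sum _).trans (le_of_eq ?_)
    exact Finset.sum_image fun a _ b _ h => by simpa using h
  have h3 : cnd g (hS R v k) (hX R v k) ≤ ∑ t ∈ Finset.range k, (ν (vs R t v) + Δ) := by
    refine (hg.cover (Finset.range k) (fun t => {vs R t v})
      (fun t => {vx R t v, vx R (t + 1) v}) (fun c hc => Or.inr ?_) (fun t ht c hc => ?_)).trans
      (Finset.sum_le_sum fun t ht => h4 t (Finset.mem_range.1 ht))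
    · obtain ⟨t, ht, rfl⟩ := Finset.mem_image.1 hc
      exact ⟨t, ht, Finset.mem_singleton_self _⟩
    · have ht' := Finset.mem_range.1 ht
      simp only [Finset.mem_insert, Finset.mem_singleton] at hc
      rcases hc with rfl | rfl <;> simp <;> omega
  rw [Finset.sum_add_distrib, Finset.sum_const, nsmul_eq_mul, Finset.card_range] at h3
  unfold cnd at *
  linarith

lemma lower (hg : Poly g) (hΔ : 0 ≤ Δ) (H : ∀ t < m, Hyp A B up g ν Δ t (t + 1)) (r : R)
    {n : ℕ} (hn : n < m) :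
    g (hR N r n ∪ bS R (up r) n (A r ∪ B r))
      ≤ ∑ a ∈ A r, (∑ t ∈ Finset.range (n + (up r a).toNat + 1), g {vx R t a}
          + ∑ t ∈ Finset.range (n + (up r a).toNat), ν (vs R t a)
          - cnd g (hX R a (n + (up r a).toNat)) (hS R a (n + (up r a).toNat)))
        + ∑ t ∈ Finset.range (n + 1), ν (vr N t r)
        + ∑ b ∈ B r, ∑ t ∈ Finset.range (n + (up r b).toNat + 1), fx g ν t b
        + ∑ b ∈ B r, ∑ t ∈ Finset.range (n + (up r b).toNat), ν (vs R t b)
        + (n + 1) * (2 + Fintype.card (Yv N R)) * Δ := by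
  set u := up r with hu
  let L1 : Finset (ℕ × Yv N R) := (Finset.range n).biUnion fun t => ss R t (B r)
  let L2 : Finset (ℕ × Yv N R) := ss R n ((B r).filter fun v => u v)
  have h1 := hg.le_add_cnd (A := hR N r n ∪ bS R u n (A r ∪ B r)) (hR N r n ∪ (L1 ∪ L2))
    (bS R u n (A r)) (by
      rintro ⟨t, y⟩ hc
      rcases Finset.mem_union.1 hc with h | h
      · exact Finset.mem_union_left _ (Finset.mem_union_left _ h)
      obtain ⟨v, hv, ht, hy⟩ := (mem_bS _ _ _ _).1 h
      simp only at hy ht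
      subst hy
      rcases Finset.mem_union.1 hv with h | h
      · simp [h, ht]
      · by_cases h2 : t < n
        · simp [L1, h, h2]
        · cases h3 : u v
          · simp [h3] at ht
            omega
          · simp [h3] at ht
            have : t = n := by omega
            simp [L2, h, h3, this])
  have h2 := cnd_union (g := g) (hR N r n) (L1 ∪ L2) (bS R u n (A r))
  have h2' := hg.cnd_union_le L1 L2 (hR N r n ∪ bS R u n (A r))
  have h3 : g (bS R u n (A r)) ≤ ∑ a ∈ A r, (∑ t ∈ Finset.range (n + (u a).toNat + 1), g {vx R t a}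
      + ∑ t ∈ Finset.range (n + (u a).toNat), ν (vs R t a)
      - cnd g (hX R a (n + (u a).toNat)) (hS R a (n + (u a).toNat)) + (n + 1) * Δ) := by
    rw [← hg.cnd_empty]
    refine (hg.cnd_biUnion_le _ _ _).trans (Finset.sum_le_sum fun a _ => ?_)
    rw [hg.cnd_empty]
    have hk : n + (u a).toNat ≤ n + 1 := by cases u a <;> simp
    have := hist_le hg (ν := ν) (Δ := Δ) a (n + (u a).toNat)
      (fun t ht => (H t (by omega)).fd4 a)
    have hk' : ((n + (u a).toNat : ℕ) : ℝ) ≤ n + 1 := by exact_mod_cast hk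
    have := mul_le_mul_of_nonneg_right hk' hΔ
    linarith
  have h4 : cnd g (hR N r n) (bS R u n (A r))
      ≤ ∑ t ∈ Finset.range (n + 1), (ν (vr N t r) + ∑ b ∈ B r, fx g ν t b + Δ) := by
    refine (hg.cover (Finset.range (n + 1)) (fun t => {vr N t r})
      (fun t => ss R t ((A r).filter fun v => u v)) (fun c hc => Or.inr ?_)
      (fun t ht c hc => ?_)).trans
      (Finset.sum_le_sum fun t ht => (H t (by have := Finset.mem_range.1 ht; omega)).cb1 r)
    · obtain ⟨t, ht, rfl⟩ := Finset.mem_image.1 hc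
      exact ⟨t, ht, Finset.mem_singleton_self _⟩
    · obtain ⟨v, hv, rfl⟩ := Finset.mem_image.1 hc
      obtain ⟨hv1, hv2⟩ := Finset.mem_filter.1 hv
      have := Finset.mem_range.1 ht
      simp [hv1, hv2, this]
  have h5 : cnd g L1 (hR N r n ∪ bS R u n (A r))
      ≤ ∑ t ∈ Finset.range n, (∑ b ∈ B r, ν (vs R t b) + Δ) := by
    refine (hg.cover (Finset.range n) (fun t => ss R t (B r))
      (fun t => ss R t (A r) ∪ {vr N t r, vr N (t + 1) r}) (fun c hc => Or.inr ?_)
      (fun t ht c hc => ?_)).trans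
      (Finset.sum_le_sum fun t ht => (H t (by have := Finset.mem_range.1 ht; omega)).fdc r)
    · simpa [L1] using hc
    · have := Finset.mem_range.1 ht
      rcases Finset.mem_union.1 hc with h | h
      · obtain ⟨v, hv, rfl⟩ := Finset.mem_image.1 h
        simp [hv]
        omega
      · simp only [Finset.mem_insert, Finset.mem_singleton] at h
        rcases h with rfl | rfl <;> simp <;> omega
  have h6 : cnd g L2 (hR N r n ∪ bS R u n (A r))
      ≤ ∑ v ∈ (B r).filter (fun v => u v), (ν (vs R n v) + fx g ν (n + 1) v) + Δ := by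
    refine le_trans (hg.cnd_le Finset.subset_union_left fun c hc => ?_) ((H n hn).cb2 r)
    rcases Finset.mem_union.1 hc with h | h
    · obtain ⟨v, hv, rfl⟩ := Finset.mem_image.1 h
      obtain ⟨hv1, hv2⟩ := Finset.mem_filter.1 hv
      simp [hv1, hu, hv2]
    · rw [Finset.mem_singleton.1 h]
      simp
  have h7 : ∑ b ∈ B r, ∑ t ∈ Finset.range (n + (u b).toNat + 1), fx g ν t b
      = ∑ t ∈ Finset.range (n + 1), ∑ b ∈ B r, fx g ν t b
        + ∑ v ∈ (B r).filter (fun v => u v), fx g ν (n + 1) v := by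
    rw [← sum_shift (B r) u (n + 1) (fun t a => fx g ν t a)]
    refine Finset.sum_congr rfl fun a _ => ?_
    rw [Nat.add_right_comm]
  have h8 := sum_shift (B r) u n (fun t b => ν (vs R t b))
  rw [Finset.sum_add_distrib, Finset.sum_const, nsmul_eq_mul] at h3 h4 h5
  rw [Finset.sum_add_distrib] at h4 h6
  rw [Finset.card_range] at h4 h5
  have h9 := mul_le_mul_of_nonneg_right (card_le_cY (R := R) (A r))
    (mul_nonneg (by positivity : (0 : ℝ) ≤ n + 1) hΔ)
  push_cast at h4
  nlinarith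

lemma sum_hist (u : N → Bool) (r : R) (n : ℕ) (D : Finset N) (φ : ℕ × Yv N R → ℝ) :
    ∑ c ∈ bX R u n D ∪ (hR N r n ∪ bS R u n D), φ c
      = ∑ v ∈ D, ∑ t ∈ Finset.range (n + (u v).toNat + 1), φ (vx R t v)
        + ∑ t ∈ Finset.range (n + 1), φ (vr N t r)
        + ∑ v ∈ D, ∑ t ∈ Finset.range (n + (u v).toNat), φ (vs R t v) := by
  rw [Finset.sum_union, Finset.sum_union, add_assoc]
  · congr 1
    · unfold bX
      rw [Finset.sum_biUnion]
      · exact Finset.sum_congr rfl fun v _ => Finset.sum_image fun a _ b _ h => by simpa using h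
      · intro a _ b _ hab
        simp only [Function.onFun, Finset.disjoint_left, mem_hX]
        rintro c ⟨_, h1⟩ ⟨_, h2⟩
        rw [h1] at h2
        exact hab (by simpa using h2)
    congr 1
    · exact Finset.sum_image fun a _ b _ h => by simpa using h
    · unfold bS
      rw [Finset.sum_biUnion]
      · exact Finset.sum_congr rfl fun v _ => Finset.sum_image fun a _ b _ h => by simpa using h
      · intro a _ b _ hab
        simp only [Function.onFun, Finset.disjoint_left, mem_hS]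
        rintro c ⟨_, h1⟩ ⟨_, h2⟩
        rw [h1] at h2
        exact hab (by simpa using h2)
  · rw [Finset.disjoint_left]
    rintro ⟨t, (v | r') | v⟩ <;> simp
  · rw [Finset.disjoint_left]
    rintro ⟨t, (v | r') | v⟩ <;> simp

lemma low_hist (hg : Poly g) (hΔ : 0 ≤ Δ) (H : ∀ t < m, Hyp A B up g ν Δ t (t + 1))
    (hm : ∀ k < m, g (upTo (k + 1)) + g (lev N k) = g (upTo k) + g (cop k (k + 1)))
    (u : N → Bool) (r : R) {n : ℕ} (hn : n + 1 < m) (D : Finset N) :
    ∑ v ∈ D, ∑ t ∈ Finset.range (n + (u v).toNat + 1), g {vx R t v}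
        + ∑ t ∈ Finset.range (n + 1), ν (vr N t r)
        + ∑ v ∈ D, ∑ t ∈ Finset.range (n + (u v).toNat), ν (vs R t v)
        - (n + 2) * (1 + Fintype.card (Yv N R)) * Δ
      ≤ g (bX R u n D ∪ (hR N r n ∪ bS R u n D)) := by
  have h := low hg hΔ H hm hn (T := bX R u n D ∪ (hR N r n ∪ bS R u n D)) (by
    intro c hc
    rw [mem_upTo]
    simp only [Finset.mem_union, mem_bX, mem_hR, mem_bS] at hc
    rcases hc with ⟨v, -, h1, h2⟩ | ⟨h1, h2⟩ | ⟨v, -, h1, h2⟩
    · have : (u v).toNat ≤ 1 := Bool.toNat_le _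
      simp [h2]
      omega
    · omega
    · have : (u v).toNat ≤ 1 := Bool.toNat_le _
      omega)
  rw [sum_hist] at h
  simp only [wt_x, wt_r, wt_s] at h
  push_cast at h
  have e : ((n : ℝ) + 1 + 1) = n + 2 := by ring
  rw [e] at h
  exact h

theorem key_rec (hg : Poly g) (hΔ : 0 ≤ Δ) (H : ∀ t < m, Hyp A B up g ν Δ t (t + 1))
    (hm : ∀ k < m, g (upTo (k + 1)) + g (lev N k) = g (upTo k) + g (cop k (k + 1)))
    (r : R) (hd : Disjoint (A r) (B r)) {n : ℕ} (hn : n + 1 < m) :
    ∑ a ∈ A r, zz g ν (n + (up r a).toNat) a ≤ ∑ b ∈ B r, zz g ν (n + (up r b).toNat) b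
      + (n + 2) * (4 + 3 * Fintype.card (Yv N R)) * Δ := by
  have h1 := low_hist hg hΔ H hm (up r) r hn (A r ∪ B r)
  have h2 := lower hg hΔ H r (n := n) (by omega)
  have h3 := upper hg hΔ (up r) r n (D := A r ∪ B r) (E := A r) (E' := B r) subset_rfl
    Finset.subset_union_left Finset.subset_union_right
    (fun t ht => (H t (by omega)).fdb r) (H n (by omega)).fd3
  rw [Finset.sum_union hd, Finset.sum_union hd] at h1
  simp only [zz, fx, Finset.sum_sub_distrib, Finset.sum_add_distrib] at *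
  unfold cnd at h3
  have hc : (0 : ℝ) ≤ Fintype.card (Yv N R) := Nat.cast_nonneg _
  have hn0 : (0 : ℝ) ≤ n := Nat.cast_nonneg _
  have := mul_nonneg hc hΔ
  have := mul_nonneg hn0 hΔ
  have := mul_nonneg hn0 (mul_nonneg hc hΔ)
  unfold cnd at *
  nlinarith

theorem key_low (hg : Poly g) (hΔ : 0 ≤ Δ) (H : ∀ t < m, Hyp A B up g ν Δ t (t + 1))
    (hm : ∀ k < m, g (upTo (k + 1)) + g (lev N k) = g (upTo k) + g (cop k (k + 1)))
    (r : R) (hd : Disjoint (A r) (B r)) {n : ℕ} (hn : n + 1 < m) :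
    ∑ v ∈ A r ∪ B r, ∑ t ∈ Finset.range (n + (up r v).toNat + 1), fx g ν t v
      - ∑ a ∈ A r, zz g ν (n + (up r a).toNat) a
      - (n + 2) * (2 + 2 * Fintype.card (Yv N R)) * Δ
      ≤ g (hR N r n ∪ bS R (up r) n (A r ∪ B r)) - ∑ t ∈ Finset.range (n + 1), ν (vr N t r)
        - ∑ v ∈ A r ∪ B r, ∑ t ∈ Finset.range (n + (up r v).toNat), ν (vs R t v) := by
  have h1 := low_hist hg hΔ H hm (up r) r hn (A r ∪ B r)
  have h3 := upper hg hΔ (up r) r n (D := A r ∪ B r) (E := B r) (E' := A r)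
    (by rw [Finset.union_comm]) Finset.subset_union_right Finset.subset_union_left
    (fun t ht => (H t (by omega)).fd1 r) (H n (by omega)).fd3
  rw [Finset.sum_union hd] at h1 ⊢
  simp only [zz, fx, Finset.sum_sub_distrib] at *
  have hc : (0 : ℝ) ≤ Fintype.card (Yv N R) := Nat.cast_nonneg _
  have hn0 : (0 : ℝ) ≤ n := Nat.cast_nonneg _
  have := mul_nonneg hc hΔ
  have := mul_nonneg hn0 hΔ
  have := mul_nonneg hn0 (mul_nonneg hc hΔ)
  unfold cnd at *
  nlinarith

end key

end Pool.Agent.Lib.MP_3b2820_co
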