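import Pool.Agent.Lib.MP_3b2820_co.ConcLB
import Pool.Agent.Lib.MP_3b2820_co.Graphon

/-!
The exponent of the encoding graphs.
-/

set_option autoImplicit false
set_option linter.unusedSectionVars false

open Finset

namespace Pool.Agent.Lib.MP_3b2820_co

theorem enc_isLeast {X J : Type} [DecidableEq X] [DecidableEq J] [Fintype X] [Fintype J]
    {T U : J → Finset X} {b : J → ℕ} {b0 : ℕ} {θ : ℝ} (hb : ∀ j, b j + 1 ≤ b0) (hb0 : 2 ≤ b0)
    (hθ : 0 < θ) (hθ1 : θ ≤ 1) (key : KeyIneq T U b b0 θ)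
    (hlb : ∀ θ', 0 ≤ θ' → θ' < θ → ∀ C : ℝ,
      ∃ (Ω : Type) (_ : AddCommGroup Ω) (_ : Finite Ω) (L : X → AddSubgroup Ω),
        (∀ ω, (∀ y, ω ∈ L y) → ω = 0) ∧
        Wf T U b (rk L) + θ' * Df T U (rk L) + C < b0 * rk L Finset.univ) :
    ∃ (k l m : ℕ) (G : SimpleGraph (Fin k)) (H : SimpleGraph (Fin l)),
      IsLeast {c : ℝ | 0 ≤ c ∧ ∀ W, IsGraphon W → homDensity G W ^ c ≤ homDensity H W}
        (m + θ) := by
  have hb0' : (2 : ℝ) ≤ b0 := by exact_mod_cast hb0
  have hc1 : (1 : ℝ) ≤ Fintype.card (Vt T U) * b0 + b0 + θ := by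
    have : (0 : ℝ) ≤ Fintype.card (Vt T U) * b0 := by positivity
    linarith
  refine ⟨_, _, Fintype.card (Vt T U) * b0 + b0, (encG T U).comap (Fintype.equivFin _).symm,
    (encH T U b b0).comap (Fintype.equivFin _).symm, ⟨by positivity, fun W hW => ?_⟩,
    fun c hc => ?_⟩
  · push_cast
    refine graphon_of_finite _ _ hc1 (fun n hn Tg => ?_) hW
    have : Nonempty (Fin n) := ⟨⟨0, hn⟩⟩
    rw [dens_comap, dens_comap]
    exact enc_ub hb hb0 hθ.le hθ1 key Tg
  · by_contra hlt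
    push_cast at hlt
    rw [not_le] at hlt
    obtain ⟨Ω, _, _, L, hL, hineq⟩ := hlb (max 0 (c - (Fintype.card (Vt T U) * b0 + b0)))
      (le_max_left _ _) (max_lt hθ (by linarith))
      ((b0 + max 0 (c - (Fintype.card (Vt T U) * b0 + b0)))
        * (Fintype.card (Anc (Ty X J) ⊕ Vt T U) * Real.log (Fintype.card (Anc (Ty X J) ⊕ Ty X J))))
    have := Fintype.ofFinite Ω
    obtain ⟨W, hW, hWF⟩ := exists_step_graphon (modG T U L)
    have h1 := hc.2 W hW
    rw [hWF, hWF, dens_comap, dens_comap] at h1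
    have h2 := enc_lb hL (fun j => by have := hb j; omega) (le_max_left _ _)
      (by have := le_max_right 0 (c - (Fintype.card (Vt T U) * b0 + b0)); linarith) h1
    linarith

theorem main_irrational :
    ∃ (k l : ℕ) (G : SimpleGraph (Fin k)) (H : SimpleGraph (Fin l)) (ρ : ℝ),
      IsLeast {c : ℝ | 0 ≤ c ∧ ∀ W, IsGraphon W → homDensity G W ^ c ≤ homDensity H W} ρ ∧
      Irrational ρ := by
  obtain ⟨K, hK⟩ : ∃ K : ℕ, 4000000 ≤ K := ⟨_, le_rfl⟩
  have ht := theta_bounds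
  let _ : DecidableEq (Ctr F8 F8) := Classical.decEq _
  obtain ⟨k, l, m, G, H, h⟩ := enc_isLeast (T := cT sA sB sU) (U := cU sA sB sU)
    (b := cW (sL K) (145 * K + 1) K) (b0 := 145 * K + 2) (θ := theta) (by
      rintro (⟨e, v | v⟩ | j | j) <;> simp only [cW, sL] <;> omega) (by omega) ht.1
    (by linarith [ht.2]) (by
      intro Ω α ζ _ p Y Z ν f hp hf hP
      have := ub_conc hp Y Z ν hf hP hK
      push_cast
      exact this) (by
      intro θ' h0 h1 C
      have := lb_conc K h0 h1 C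
      push_cast
      exact this)
  exact ⟨k, l, G, H, m + theta, h, theta_irrational.natCast_add m⟩

end Pool.Agent.Lib.MP_3b2820_co
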