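import Pool.Agent.Lib.MP_3b2820_co.EncLB

/-!
Linear models of a two level system.
-/

set_option autoImplicit false
set_option linter.unusedSectionVars false

open Finset

namespace Pool.Agent.Lib.MP_3b2820_co

section cost
variable {X Ω : Type} [AddCommGroup Ω] [Finite Ω]

lemma lgi_eq (L : AddSubgroup Ω) : lgi L = Real.log L.index := by
  have h := AddSubgroup.index_mul_card L
  have h1 : (0 : ℝ) < Nat.card L := by exact_mod_cast Nat.card_pos
  have h2 : (L.index : ℝ) ≠ 0 := by exact_mod_cast AddSubgroup.index_ne_zero_of_finite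
  unfold lgi
  rw [← h]
  push_cast
  rw [Real.log_mul h2 h1.ne']
  ring

lemma lgi_inf (L L' : AddSubgroup Ω) : lgi (L ⊓ L') ≤ lgi L + lgi L' := by
  have h1 : (L.index : ℝ) ≠ 0 := by exact_mod_cast AddSubgroup.index_ne_zero_of_finite
  have h2 : (L'.index : ℝ) ≠ 0 := by exact_mod_cast AddSubgroup.index_ne_zero_of_finite
  have h3 : (0 : ℝ) < (L ⊓ L').index := by
    exact_mod_cast Nat.pos_of_ne_zero AddSubgroup.index_ne_zero_of_finite
  rw [lgi_eq, lgi_eq, lgi_eq, ← Real.log_mul h1 h2]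
  exact Real.log_le_log h3 (by exact_mod_cast AddSubgroup.index_inf_le)

lemma lgi_anti {L L' : AddSubgroup Ω} (h : L ≤ L') : lgi L' ≤ lgi L := by
  have h1 : (0 : ℝ) < Nat.card L := by exact_mod_cast Nat.card_pos
  have h2 : (Nat.card L : ℝ) ≤ Nat.card L' := by exact_mod_cast AddSubgroup.card_le_of_le h
  have := Real.log_le_log h1 h2
  unfold lgi
  linarith

lemma lgi_top : lgi (⊤ : AddSubgroup Ω) = 0 := by simp [lgi]

lemma lgi_ker (ψ : Ω →+ ZMod 2) : lgi ψ.ker ≤ Real.log 2 := by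
  rw [lgi_eq, AddSubgroup.index_ker]
  have h1 : (0 : ℝ) < Nat.card ψ.range := by exact_mod_cast Nat.card_pos
  refine Real.log_le_log h1 ?_
  have := AddSubgroup.card_le_card_addGroup ψ.range
  rw [Nat.card_zmod] at this
  exact_mod_cast this

/-- A property that holds on a subgroup of bounded index. -/
def Cost (P : Ω → Prop) (c : ℝ) : Prop := ∃ L : AddSubgroup Ω, (∀ δ ∈ L, P δ) ∧ lgi L ≤ c

lemma Cost.and {P Q : Ω → Prop} {c c' : ℝ} (h : Cost P c) (h' : Cost Q c') :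
    Cost (fun δ => P δ ∧ Q δ) (c + c') := by
  obtain ⟨L, h1, h2⟩ := h
  obtain ⟨L', h3, h4⟩ := h'
  exact ⟨L ⊓ L', fun δ hδ => ⟨h1 δ hδ.1, h3 δ hδ.2⟩, (lgi_inf L L').trans (add_le_add h2 h4)⟩

lemma Cost.imp {P Q : Ω → Prop} {c c' : ℝ} (h : Cost P c) (h' : ∀ δ, P δ → Q δ) (hc : c ≤ c') :
    Cost Q c' := by
  obtain ⟨L, h1, h2⟩ := h
  exact ⟨L, fun δ hδ => h' δ (h1 δ hδ), h2.trans hc⟩

lemma cost_true : Cost (fun _ : Ω => True) 0 := ⟨⊤, fun _ _ => trivial, lgi_top.le⟩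

lemma cost_forall {κ : Type} (s : Finset κ) {P : κ → Ω → Prop} {c : κ → ℝ}
    (h : ∀ i ∈ s, Cost (P i) (c i)) : Cost (fun δ => ∀ i ∈ s, P i δ) (∑ i ∈ s, c i) := by
  classical
  induction s using Finset.induction_on with
  | empty => exact cost_true.imp (by simp) (by simp)
  | insert a s ha ih =>
    rw [Finset.sum_insert ha]
    refine ((h a (Finset.mem_insert_self a s)).and
      (ih fun i hi => h i (Finset.mem_insert_of_mem hi))).imp (fun δ hδ i hi => ?_) le_rfl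
    rcases Finset.mem_insert.1 hi with rfl | hi
    exacts [hδ.1, hδ.2 i hi]

lemma cost_block {Γ : Type} [Fintype Γ] (φ ψ : Γ → ℕ → (Ω →+ ZMod 2)) (lo hi : Γ → ℕ) :
    Cost (fun δ => ∀ γ d, lo γ ≤ d → d < hi γ → φ γ d δ = ψ γ d δ)
      ((∑ γ, ((hi γ - lo γ : ℕ) : ℝ)) * Real.log 2) := by
  have h := cost_forall (Finset.univ : Finset Γ)
    (P := fun γ δ => ∀ d ∈ Finset.Ico (lo γ) (hi γ), φ γ d δ = ψ γ d δ)
    (fun γ _ => cost_forall (Finset.Ico (lo γ) (hi γ)) (c := fun _ => Real.log 2) fun d _ =>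
      ⟨(φ γ d - ψ γ d).ker, fun δ hδ => by simpa [sub_eq_zero] using hδ, lgi_ker _⟩)
  refine h.imp (fun δ hδ γ d h1 h2 => hδ γ (Finset.mem_univ _) d (Finset.mem_Ico.2 ⟨h1, h2⟩)) ?_
  simp [Finset.sum_mul]

lemma Cost.rk_le {K : X → AddSubgroup Ω} {P : Ω → Prop} {c : ℝ} (h : Cost P c) {S : Finset X}
    (hS : ∀ δ, P δ → ∀ y ∈ S, δ ∈ K y) : rk K S ≤ c := by
  obtain ⟨L, h1, h2⟩ := h
  exact (lgi_anti fun δ hδ => mem_KS.2 (hS δ (h1 δ hδ))).trans h2

lemma Cost.cnd_le [DecidableEq X] {K : X → AddSubgroup Ω} {P : Ω → Prop} {c : ℝ} (h : Cost P c)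
    {T U : Finset X} (hS : ∀ δ, (∀ y ∈ U, δ ∈ K y) → P δ → ∀ y ∈ T, δ ∈ K y) :
    cnd (rk K) T U ≤ c := by
  obtain ⟨L, h1, h2⟩ := h
  have h3 : KS K U ⊓ L ≤ KS K (T ∪ U) := by
    intro δ hδ
    refine mem_KS.2 fun y hy => ?_
    rcases Finset.mem_union.1 hy with h | h
    · exact hS δ (mem_KS.1 hδ.1) (h1 δ hδ.2) y h
    · exact mem_KS.1 hδ.1 y h
  have := (lgi_anti h3).trans (lgi_inf _ _)
  unfold cnd rk
  linarith

lemma rk_empty (K : X → AddSubgroup Ω) : rk K ∅ = 0 := by simp [rk, KS, lgi_top]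

end cost

section model
variable {N R Γ : Type} [DecidableEq N] [DecidableEq R] [Fintype N] [Fintype R] [Fintype Γ]
  (τ : N → ℕ) (len : Γ → ℕ)

/-- The group of the model. -/
abbrev MG : Type := ((x : Bool × N × Γ) × Fin (len x.2.2 - τ x.2.1)) → ZMod 2

/-- Coordinates, extended by zero. -/
def co (e : Bool) (v : N) (γ : Γ) (d : ℕ) : MG τ len →+ ZMod 2 :=
  if h : d < len γ - τ v then Pi.evalAddMonoidHom (fun _ => ZMod 2) ⟨(e, v, γ), ⟨d, h⟩⟩ else 0

/-- Shifted coordinates. -/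
def prev (e : Bool) (v : N) (γ : Γ) : ℕ → (MG τ len →+ ZMod 2)
  | 0 => 0
  | d + 1 => co τ len e v γ d

/-- Matched coordinates. -/
def mat (e : Bool) (o : Option (N × Γ)) (d : ℕ) : MG τ len →+ ZMod 2 :=
  o.elim 0 fun x => co τ len e x.1 x.2 d

/-- Solutions of a family of equations. -/
def sol {κ : Type} (P : κ → Prop) (φ ψ : κ → (MG τ len →+ ZMod 2)) : AddSubgroup (MG τ len) :=
  ⨅ i, ⨅ _ : P i, (φ i - ψ i).ker

lemma mem_sol {κ : Type} (P : κ → Prop) (φ ψ : κ → (MG τ len →+ ZMod 2)) (δ : MG τ len) :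
    δ ∈ sol τ len P φ ψ ↔ ∀ i, P i → φ i δ = ψ i δ := by
  simp [sol, AddSubgroup.mem_iInf, sub_eq_zero]

variable (A B : R → Finset N) (up : R → N → Bool) (src : R → N → Γ → Option (N × Γ))

/-- The subgroups of the model. -/
def mK : Bool × Yv N R → AddSubgroup (MG τ len)
  | (e, .inl (.inl v)) => sol τ len (fun _ : Γ × ℕ => True) (fun i => co τ len e v i.1 i.2)
      (fun _ => 0)
  | (e, .inr v) => sol τ len (fun _ : Γ × ℕ => True) (fun i => co τ len (!e) v i.1 i.2)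
      (fun i => prev τ len e v i.1 i.2)
  | (e, .inl (.inr r)) =>
      sol τ len (fun i : N × Γ × ℕ => i.1 ∈ A r ∧ len i.2.1 - τ i.1 - (up r i.1).toNat ≤ i.2.2)
        (fun i => co τ len e i.1 i.2.1 i.2.2) (fun _ => 0) ⊓
      sol τ len (fun i : N × Γ × ℕ => i.1 ∈ B r)
        (fun i => co τ len e i.1 i.2.1 i.2.2) (fun i => mat τ len e (src r i.1 i.2.1) i.2.2)

/-- Dimension counts. -/
noncomputable def mz (k : ℕ) (v : N) : ℝ := (∑ γ, ((len γ - τ v - k : ℕ) : ℝ)) * Real.log 2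

variable {τ len A B up src}

lemma co_zero {e : Bool} {v : N} {γ : Γ} {d : ℕ} (h : len γ - τ v ≤ d) (δ : MG τ len) :
    co τ len e v γ d δ = 0 := by
  simp [co, not_lt.2 h]

lemma mem_x {e : Bool} {v : N} {δ : MG τ len} :
    δ ∈ mK τ len A B up src (vx R e v) ↔ ∀ γ d, co τ len e v γ d δ = 0 := by
  simp [mK, mem_sol]

lemma mem_s {e : Bool} {v : N} {δ : MG τ len} :
    δ ∈ mK τ len A B up src (vs R e v)
      ↔ ∀ γ d, co τ len (!e) v γ d δ = prev τ len e v γ d δ := by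
  simp [mK, mem_sol]

lemma mem_r {e : Bool} {r : R} {δ : MG τ len} :
    δ ∈ mK τ len A B up src (vr N e r) ↔
      (∀ a ∈ A r, ∀ γ d, len γ - τ a - (up r a).toNat ≤ d → co τ len e a γ d δ = 0) ∧
      ∀ b ∈ B r, ∀ γ d, co τ len e b γ d δ = mat τ len e (src r b γ) d δ := by
  simp only [mK, AddSubgroup.mem_inf, mem_sol, Prod.forall, AddMonoidHom.zero_apply, and_imp]
  exact and_congr ⟨fun h a ha γ d => h a γ d ha, fun h a γ d ha => h a ha γ d⟩
    ⟨fun h a ha γ d => h a γ d ha, fun h a γ d ha => h a ha γ d⟩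

lemma cost_full (e : Bool) (v : N) :
    Cost (fun δ => ∀ γ d, co τ len e v γ d δ = 0) (mz τ len 0 v) := by
  refine (cost_block (co τ len e v) (fun _ _ => 0) (fun _ => 0) (fun γ => len γ - τ v)).imp
    (fun δ h γ d => ?_) (by simp [mz])
  by_cases hd : d < len γ - τ v
  · exact h γ d (Nat.zero_le _) hd
  · exact co_zero (not_lt.1 hd) δ

lemma cost_zero (e : Bool) (v : N) (k : ℕ) :
    Cost (fun δ => ∀ γ d, len γ - τ v - k ≤ d → co τ len e v γ d δ = 0)
      (mz τ len 0 v - mz τ len k v) := by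
  refine (cost_block (co τ len e v) (fun _ _ => 0) (fun γ => len γ - τ v - k)
    (fun γ => len γ - τ v)).imp (fun δ h γ d h1 => ?_) (le_of_eq ?_)
  · by_cases hd : d < len γ - τ v
    · exact h γ d h1 hd
    · exact co_zero (not_lt.1 hd) δ
  · unfold mz
    rw [← sub_mul, ← Finset.sum_sub_distrib]
    congr 1
    refine Finset.sum_congr rfl fun γ _ => ?_
    rw [Nat.cast_sub (Nat.sub_le _ _), Nat.sub_zero]

lemma cost_eq (e : Bool) (v : N) (ψ : Γ → ℕ → (MG τ len →+ ZMod 2)) :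
    Cost (fun δ => ∀ γ d, d < len γ - τ v → co τ len e v γ d δ = ψ γ d δ) (mz τ len 0 v) :=
  (cost_block (co τ len e v) ψ (fun _ => 0) (fun γ => len γ - τ v)).imp
    (fun δ h γ d hd => h γ d (Nat.zero_le _) hd) (by simp [mz])

lemma step_of {e : Bool} {v : N} {δ : MG τ len}
    (h1 : ∀ γ d, len γ - τ v - 1 ≤ d → co τ len e v γ d δ = 0)
    (h2 : ∀ γ d, d < len γ - τ v → co τ len (!e) v γ d δ = prev τ len e v γ d δ) :
    δ ∈ mK τ len A B up src (vs R e v) := by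
  refine mem_s.2 fun γ d => ?_
  by_cases hd : d < len γ - τ v
  · exact h2 γ d hd
  · rw [co_zero (not_lt.1 hd)]
    rcases d with _ | d
    · rfl
    · exact (h1 γ d (by omega)).symm

lemma zero_of_step {e : Bool} {v : N} {δ : MG τ len} (h : δ ∈ mK τ len A B up src (vs R e v))
    (γ : Γ) (d : ℕ) (hd : len γ - τ v - 1 ≤ d) : co τ len e v γ d δ = 0 := by
  have := mem_s.1 h γ (d + 1)
  rw [co_zero (by omega)] at this
  exact this.symm

/-- The matching respects lengths and covers the left side. -/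
structure Match (τ : N → ℕ) (len : Γ → ℕ) (A B : R → Finset N) (up : R → N → Bool)
    (src : R → N → Γ → Option (N × Γ)) : Prop where
  m1 : ∀ r, ∀ b ∈ B r, ∀ γ' a γ, src r b γ' = some (a, γ) →
    a ∈ A r ∧ len γ - τ a - (up r a).toNat = len γ' - τ b - (up r b).toNat
  m2 : ∀ r, ∀ a ∈ A r, ∀ γ, 0 < len γ - τ a - (up r a).toNat →
    ∃ b ∈ B r, ∃ γ', src r b γ' = some (a, γ)

lemma mat_zero (hm : Match τ len A B up src) {e : Bool} {r : R} {δ : MG τ len}
    (h1 : ∀ a ∈ A r, ∀ γ d, len γ - τ a - (up r a).toNat ≤ d → co τ len e a γ d δ = 0)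
    {b : N} (hb : b ∈ B r) {γ : Γ} {d : ℕ} (hd : len γ - τ b - (up r b).toNat ≤ d) :
    mat τ len e (src r b γ) d δ = 0 := by
  rcases h : src r b γ with _ | ⟨a, γ'⟩
  · rfl
  · obtain ⟨h2, h3⟩ := hm.m1 r b hb γ a γ' h
    exact h1 a h2 γ' d (by omega)

lemma rel_of (hm : Match τ len A B up src) {e : Bool} {r : R} {δ : MG τ len}
    (h1 : ∀ a ∈ A r, ∀ γ d, len γ - τ a - (up r a).toNat ≤ d → co τ len e a γ d δ = 0)
    (h2 : ∀ b ∈ B r, ∀ γ d, d < len γ - τ b → co τ len e b γ d δ = mat τ len e (src r b γ) d δ) :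
    δ ∈ mK τ len A B up src (vr N e r) := by
  refine mem_r.2 ⟨h1, fun b hb γ d => ?_⟩
  by_cases hd : d < len γ - τ b
  · exact h2 b hb γ d hd
  · rw [co_zero (not_lt.1 hd), mat_zero hm h1 hb (by omega)]

lemma zero_of_rel (hm : Match τ len A B up src) {e : Bool} {r : R} {δ : MG τ len}
    (h : δ ∈ mK τ len A B up src (vr N e r)) {v : N} (hv : v ∈ A r ∪ B r) (γ : Γ) (d : ℕ)
    (hd : len γ - τ v - (up r v).toNat ≤ d) : co τ len e v γ d δ = 0 := by
  obtain ⟨h1, h2⟩ := mem_r.1 h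
  rcases Finset.mem_union.1 hv with hv | hv
  · exact h1 v hv γ d hd
  · rw [h2 v hv, mat_zero hm h1 hv hd]

lemma rel_of_zero (hm : Match τ len A B up src) {e : Bool} {r : R} {δ : MG τ len}
    (h : ∀ v ∈ A r ∪ B r, ∀ γ d, co τ len e v γ d δ = 0) :
    δ ∈ mK τ len A B up src (vr N e r) := by
  refine mem_r.2 ⟨fun a ha γ d _ => h a (Finset.mem_union_left _ ha) γ d, fun b hb γ d => ?_⟩
  rw [h b (Finset.mem_union_right _ hb)]
  rcases h' : src r b γ with _ | ⟨a, γ'⟩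
  · rfl
  · exact (h a (Finset.mem_union_left _ (hm.m1 r b hb γ a γ' h').1) γ' d).symm

lemma step_of_zero {e : Bool} {v : N} {δ : MG τ len} (h1 : ∀ γ d, co τ len e v γ d δ = 0)
    (h2 : ∀ γ d, co τ len (!e) v γ d δ = 0) : δ ∈ mK τ len A B up src (vs R e v) := by
  refine mem_s.2 fun γ d => ?_
  rw [h2]
  rcases d with _ | d
  · rfl
  · exact (h1 γ d).symm

lemma step_comm (hm : Match τ len A B up src) {e : Bool} {r : R} {δ : MG τ len}
    (h1 : δ ∈ mK τ len A B up src (vr N e r)) (h2 : δ ∈ mK τ len A B up src (vr N (!e) r))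
    (h3 : ∀ a ∈ A r, δ ∈ mK τ len A B up src (vs R e a)) {b : N} (hb : b ∈ B r) :
    δ ∈ mK τ len A B up src (vs R e b) := by
  refine mem_s.2 fun γ d => ?_
  rw [(mem_r.1 h2).2 b hb]
  rcases d with _ | d
  · rcases h' : src r b γ with _ | ⟨a, γ'⟩
    · rfl
    · exact mem_s.1 (h3 a (hm.m1 r b hb γ a γ' h').1) γ' 0
  · have := (mem_r.1 h1).2 b hb γ d
    simp only [prev]
    rw [this]
    rcases h' : src r b γ with _ | ⟨a, γ'⟩
    · rfl
    · exact mem_s.1 (h3 a (hm.m1 r b hb γ a γ' h').1) γ' (d + 1)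

end model

end Pool.Agent.Lib.MP_3b2820_co
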