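import Pool.Agent.Lib.MP_3b2820_co.Model

/-!
Rank bounds in linear models.
-/

set_option autoImplicit false
set_option linter.unusedSectionVars false

open Finset

namespace Pool.Agent.Lib.MP_3b2820_co

section model
variable {N R Γ : Type} [DecidableEq N] [DecidableEq R] [Fintype N] [Fintype R] [Fintype Γ]
  {τ : N → ℕ} {len : Γ → ℕ} {A B : R → Finset N} {up : R → N → Bool}
  {src : R → N → Γ → Option (N × Γ)}

lemma forall_xs {τ' : Type} [DecidableEq τ'] (t : τ') (E : Finset N) (P : τ' × Yv N R → Prop) :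
    (∀ y ∈ xs R t E, P y) ↔ ∀ v ∈ E, P (vx R t v) := Finset.forall_mem_image

lemma forall_ss {τ' : Type} [DecidableEq τ'] (t : τ') (E : Finset N) (P : τ' × Yv N R → Prop) :
    (∀ y ∈ ss R t E, P y) ↔ ∀ v ∈ E, P (vs R t v) := Finset.forall_mem_image

lemma model_sep (δ : MG τ len) (h : ∀ y, δ ∈ mK τ len A B up src y) : δ = 0 := by
  funext ⟨⟨e, v, γ⟩, ⟨d, hd⟩⟩
  have := mem_x.1 (h (vx R e v)) γ d
  simpa [co, hd] using this

lemma model_univ : rk (mK τ len A B up src) Finset.univ = ∑ _e : Bool, ∑ v, mz τ len 0 v := by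
  have : KS (mK τ len A B up src) Finset.univ = ⊥ := by
    rw [eq_bot_iff]
    intro ω hω
    exact model_sep ω fun y => mem_KS.1 hω y (Finset.mem_univ y)
  simp only [rk, lgi, this, AddSubgroup.card_bot, Nat.cast_one, Real.log_one, sub_zero]
  rw [Nat.card_fun, Nat.card_zmod, Nat.card_eq_fintype_card, Fintype.card_sigma]
  simp [mz, Fintype.sum_prod_type, ← Finset.sum_mul, mul_assoc]

lemma model_fm (e : Bool) (v : N) : fm (rk (mK τ len A B up src)) e v ≤ mz τ len 0 v :=
  (cost_full e v).rk_le fun δ h y hy => by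
    rw [Finset.mem_singleton.1 hy]
    exact mem_x.2 h

lemma model_fd (hm : Match τ len A B up src) : fdAll A B (rk (mK τ len A B up src)) ≤ 0 := by
  refine Finset.sum_nonpos fun e _ => ?_
  have a3 : ∀ v, fd3 (rk (mK τ len A B up src)) e v ≤ 0 := fun v =>
    cost_true.cnd_le fun δ h _ y hy => by
      rw [Finset.mem_singleton.1 hy]
      refine mem_x.2 fun γ d => ?_
      rw [mem_s.1 (h (vs R e v) (by simp))]
      rcases d with _ | d
      · rfl
      · exact mem_x.1 (h (vx R e v) (by simp)) γ d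
  have a4 : ∀ v, fd4 (rk (mK τ len A B up src)) e v ≤ 0 := fun v =>
    cost_true.cnd_le fun δ h _ y hy => by
      rw [Finset.mem_singleton.1 hy]
      exact step_of_zero (mem_x.1 (h (vx R e v) (by simp))) (mem_x.1 (h (vx R (!e) v) (by simp)))
  have a1 : ∀ r, fd1 A B (rk (mK τ len A B up src)) e r ≤ 0 := fun r =>
    cost_true.cnd_le fun δ h _ => (forall_xs _ _ _).2 fun b hb => mem_x.2 fun γ d => by
      rw [(mem_r.1 (h (vr N e r) (by simp))).2 b hb]
      rcases h' : src r b γ with _ | ⟨a, γ'⟩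
      · rfl
      · exact mem_x.1 (h (vx R e a) (by simp [(hm.m1 r b hb γ a γ' h').1])) γ' d
  have ab : ∀ r, fdb A B (rk (mK τ len A B up src)) e r ≤ 0 := fun r =>
    cost_true.cnd_le fun δ h _ => (forall_xs _ _ _).2 fun a ha => mem_x.2 fun γ d => by
      obtain ⟨h1, h2⟩ := mem_r.1 (h (vr N e r) (by simp))
      by_cases h0 : 0 < len γ - τ a - (up r a).toNat
      · obtain ⟨b, hb, γ', h'⟩ := hm.m2 r a ha γ h0
        have := h2 b hb γ' d
        rw [h', mem_x.1 (h (vx R e b) (by simp [hb]))] at this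
        exact this.symm
      · exact h1 a ha γ d (by omega)
  have a6 : ∀ r, fd6 A B (rk (mK τ len A B up src)) e r ≤ 0 := fun r =>
    cost_true.cnd_le fun δ h _ y hy => by
      rw [Finset.mem_singleton.1 hy]
      exact rel_of_zero hm fun v hv => mem_x.1 ((forall_xs _ _ _).1 h v hv)
  have ac : ∀ r, fdc A B (rk (mK τ len A B up src)) e r ≤ 0 := fun r =>
    cost_true.cnd_le fun δ h _ => (forall_ss _ _ _).2 fun b hb =>
      step_comm hm (h (vr N e r) (by simp)) (h (vr N (!e) r) (by simp))
        (fun a ha => h (vs R e a) (by simp [ha])) hb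
  have := Finset.sum_nonpos fun v (_ : v ∈ Finset.univ) => a3 v
  have := Finset.sum_nonpos fun v (_ : v ∈ Finset.univ) => a4 v
  have := Finset.sum_nonpos fun v (_ : v ∈ Finset.univ) => a1 v
  have := Finset.sum_nonpos fun v (_ : v ∈ Finset.univ) => ab v
  have := Finset.sum_nonpos fun v (_ : v ∈ Finset.univ) => a6 v
  have := Finset.sum_nonpos fun v (_ : v ∈ Finset.univ) => ac v
  linarith

lemma step_of_rel (hm : Match τ len A B up src) {e : Bool} {r : R} {δ : MG τ len}
    (h : δ ∈ mK τ len A B up src (vr N e r)) {v : N} (hv : v ∈ A r ∪ B r) (hu : up r v = true)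
    (h2 : ∀ γ d, d < len γ - τ v → co τ len (!e) v γ d δ = prev τ len e v γ d δ) :
    δ ∈ mK τ len A B up src (vs R e v) :=
  step_of (fun γ d hd => zero_of_rel hm h hv γ d (by simpa [hu] using hd)) h2

lemma model_cA (hm : Match τ len A B up src) (e : Bool) (r : R) :
    cA A B up (rk (mK τ len A B up src)) e r
      ≤ ∑ v ∈ (A r ∪ B r).filter (fun v => up r v), mz τ len 0 v :=
  (cost_forall _ fun v _ => cost_eq (!e) v (prev τ len e v)).cnd_le fun δ h h' =>
    (forall_ss _ _ _).2 fun v hv => step_of_rel hm (h _ (Finset.mem_singleton_self _))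
      (Finset.mem_filter.1 hv).1 (Finset.mem_filter.1 hv).2 (h' v hv)

lemma model_cB (hm : Match τ len A B up src) (e : Bool) (r : R) :
    cB A B up (rk (mK τ len A B up src)) e r
      ≤ ∑ v ∈ B r, mz τ len 0 v + ∑ v ∈ (B r).filter (fun v => up r v), mz τ len 0 v := by
  refine ((cost_forall _ fun v _ => cost_eq e v (fun γ d => mat τ len e (src r v γ) d)).and
    (cost_forall _ fun v _ => cost_eq (!e) v (prev τ len e v))).cnd_le fun δ h h' => ?_
  have h1 : δ ∈ mK τ len A B up src (vr N e r) := by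
    refine rel_of hm (fun a ha γ d hd => ?_) h'.1
    cases hu : up r a
    · exact co_zero (by simpa [hu] using hd) δ
    · exact zero_of_step (h (vs R e a) (by simp [ha, hu])) γ d (by simpa [hu] using hd)
  intro y hy
  rcases Finset.mem_union.1 hy with hy | hy
  · rw [Finset.mem_singleton.1 hy]
    exact h1
  · obtain ⟨v, hv, rfl⟩ := Finset.mem_image.1 hy
    exact step_of_rel hm h1 (Finset.mem_union_right _ (Finset.mem_filter.1 hv).1)
      (Finset.mem_filter.1 hv).2 (h'.2 v hv)

lemma cost_rel (hm : Match τ len A B up src) (hd : ∀ r, Disjoint (A r) (B r)) (e : Bool) (r : R) :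
    Cost (fun δ => δ ∈ mK τ len A B up src (vr N e r))
      (∑ v ∈ A r ∪ B r, mz τ len 0 v - ∑ a ∈ A r, mz τ len (up r a).toNat a) := by
  refine ((cost_forall (A r) fun a _ => cost_zero e a (up r a).toNat).and
    (cost_forall (B r) fun v _ => cost_eq e v (fun γ d => mat τ len e (src r v γ) d))).imp
    (fun δ h => rel_of hm h.1 h.2) (le_of_eq ?_)
  rw [Finset.sum_union (hd r), Finset.sum_sub_distrib]
  ring

lemma model_φ (hm : Match τ len A B up src) (hd : ∀ r, Disjoint (A r) (B r))
    (y : Bool × Yv N R) :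
    rk (mK τ len A B up src) {y} ≤ nφ A B up (fun _ => mz τ len) y := by
  obtain ⟨e, (v | r) | v⟩ := y
  · exact model_fm e v
  · exact (cost_rel hm hd e r).rk_le fun δ h y hy => by
      rw [Finset.mem_singleton.1 hy]
      exact h
  · refine (((cost_zero e v 1).and (cost_eq (!e) v (prev τ len e v))).imp (fun _ h => h)
      (by simp only [nφ, ns]; linarith)).rk_le fun δ h y hy => ?_
    rw [Finset.mem_singleton.1 hy]
    exact step_of h.1 h.2

lemma model_ψ (hm : Match τ len A B up src) (hd : ∀ r, Disjoint (A r) (B r)) (j : Ctr N R) :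
    rk (mK τ len A B up src) (cT A B up j ∪ cU A B up j) ≤ nψ A B up (fun _ => mz τ len) j := by
  rw [cT_union_cU]
  have l1 : ∀ e v, rk (mK τ len A B up src) {vx R e v, vx R (!e) v, vs R e v}
      ≤ mz τ len 0 v + mz τ len 0 v := fun e v =>
    ((cost_full e v).and (cost_full (!e) v)).rk_le fun δ h y hy => by
      simp only [Finset.mem_insert, Finset.mem_singleton] at hy
      rcases hy with rfl | rfl | rfl
      exacts [mem_x.2 h.1, mem_x.2 h.2, step_of_zero h.1 h.2]
  have l2 : ∀ e r, rk (mK τ len A B up src) ({vr N e r} ∪ xs R e (A r ∪ B r))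
      ≤ ∑ v ∈ A r ∪ B r, mz τ len 0 v := fun e r =>
    (cost_forall _ fun v _ => cost_full e v).rk_le fun δ h y hy => by
      rcases Finset.mem_union.1 hy with hy | hy
      · rw [Finset.mem_singleton.1 hy]
        exact rel_of_zero hm h
      · obtain ⟨v, hv, rfl⟩ := Finset.mem_image.1 hy
        exact mem_x.2 (h v hv)
  have l3 : ∀ e r, rk (mK τ len A B up src)
      ({vr N e r} ∪ ss R e ((A r ∪ B r).filter fun v => up r v))
      ≤ ∑ v ∈ A r ∪ B r, mz τ len 0 v + ∑ v ∈ (A r ∪ B r).filter (fun v => up r v), mz τ len 0 v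
        - ∑ a ∈ A r, mz τ len (up r a).toNat a := fun e r =>
    (((cost_rel hm hd e r).and (cost_forall ((A r ∪ B r).filter fun v => up r v)
      fun v _ => cost_eq (!e) v (prev τ len e v))).imp (fun _ h => h) (by linarith)).rk_le
      fun δ h y hy => by
      rcases Finset.mem_union.1 hy with hy | hy
      · rw [Finset.mem_singleton.1 hy]
        exact h.1
      · obtain ⟨v, hv, rfl⟩ := Finset.mem_image.1 hy
        exact step_of_rel hm h.1 (Finset.mem_filter.1 hv).1 (Finset.mem_filter.1 hv).2 (h.2 v hv)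
  have l4 : ∀ e r, rk (mK τ len A B up src) (ss R e (A r ∪ B r) ∪ {vr N e r, vr N (!e) r})
      ≤ ∑ v ∈ A r ∪ B r, mz τ len 0 v + ∑ v ∈ A r ∪ B r, mz τ len 0 v
        - ∑ a ∈ A r, mz τ len (1 + (up r a).toNat) a := by
    intro e r
    refine ((((cost_forall (A r) fun a _ => cost_zero e a (1 + (up r a).toNat)).and
      (cost_forall (A r) fun v _ => cost_eq (!e) v (prev τ len e v))).and
      ((cost_forall (B r) fun v _ => cost_eq e v (fun γ d => mat τ len e (src r v γ) d)).and
      (cost_forall (B r) fun v _ => cost_eq (!e) v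
        (fun γ d => mat τ len (!e) (src r v γ) d)))).imp (fun _ h => h) (le_of_eq ?_)).rk_le
      fun δ h => ?_
    · rw [Finset.sum_union (hd r), Finset.sum_sub_distrib]
      ring
    · obtain ⟨⟨h1, h2⟩, h3, h4⟩ := h
      have s1 : ∀ a ∈ A r, δ ∈ mK τ len A B up src (vs R e a) := fun a ha =>
        step_of (fun γ d hd => h1 a ha γ d (by omega)) (h2 a ha)
      have s2 : δ ∈ mK τ len A B up src (vr N e r) :=
        rel_of hm (fun a ha γ d hd => h1 a ha γ d (by omega)) h3
      have s3 : δ ∈ mK τ len A B up src (vr N (!e) r) := by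
        refine rel_of hm (fun a ha γ d hd => ?_) h4
        rw [mem_s.1 (s1 a ha)]
        rcases d with _ | d
        · rfl
        · exact h1 a ha γ d (by omega)
      intro y hy
      rcases Finset.mem_union.1 hy with hy | hy
      · obtain ⟨v, hv, rfl⟩ := Finset.mem_image.1 hy
        rcases Finset.mem_union.1 hv with hv | hv
        · exact s1 v hv
        · exact step_comm hm s2 s3 s1 hv
      · simp only [Finset.mem_insert, Finset.mem_singleton] at hy
        rcases hy with rfl | rfl
        exacts [s2, s3]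
  obtain ⟨e, v⟩ | ⟨i, e, (v | v) | (r | r) | (r | r)⟩ | ⟨e, r | r⟩ := j
  exacts [model_fm e v, l1 e v, l1 e v, l2 e r, l2 e r, l2 e r, l4 e r, l3 e r, l3 e r]

lemma model_Df (hm : Match τ len A B up src) (hd : ∀ r, Disjoint (A r) (B r)) :
    Df (cT A B up) (cU A B up) (rk (mK τ len A B up src))
      ≤ nD A B up (fun _ => mz τ len) - ∑ _e : Bool, ∑ v, mz τ len 0 v := by
  rw [← model_univ (A := A) (B := B) (up := up) (src := src)]
  exact Df_le _ _ _ _ _ (model_φ hm hd) (model_ψ hm hd)

lemma exists_src {α β : Type} [Fintype α] [Fintype β] (s : Finset α) (t : Finset β) (la : α → ℕ)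
    (lb : β → ℕ)
    (h : ∀ k, 0 < k → (s.filter fun x => la x = k).card ≤ (t.filter fun y => lb y = k).card) :
    ∃ src : β → Option α, (∀ y x, src y = some x → x ∈ s ∧ la x = lb y) ∧
      ∀ x ∈ s, 0 < la x → ∃ y ∈ t, src y = some x := by
  classical
  have h1 : ∀ k, 0 < k →
      Nonempty ((s.filter fun x => la x = k) ↪ (t.filter fun y => lb y = k)) := fun k hk =>
    Function.Embedding.nonempty_of_card_le (by
      rw [Fintype.card_coe, Fintype.card_coe]
      exact h k hk)
  let emb := fun k hk => Classical.choice (h1 k hk)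
  let P : β → α → Prop := fun y x => ∃ (k : ℕ) (hk : 0 < k) (hx : x ∈ s.filter fun x => la x = k),
    (emb k hk ⟨x, hx⟩).1 = y
  have P1 : ∀ y x, P y x → x ∈ s ∧ la x = lb y := by
    rintro y x ⟨k, hk, hx, rfl⟩
    exact ⟨(Finset.mem_filter.1 hx).1,
      (Finset.mem_filter.1 hx).2.trans (Finset.mem_filter.1 (emb k hk ⟨x, hx⟩).2).2.symm⟩
  have P2 : ∀ y x x', P y x → P y x' → x = x' := by
    intro y x x' h1 h2
    have e1 := (P1 y x h1).2
    have e2 := (P1 y x' h2).2
    obtain ⟨k, hk, hx, h1⟩ := h1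
    obtain ⟨k', hk', hx', h2⟩ := h2
    have : k = k' := by
      rw [← (Finset.mem_filter.1 hx).2, ← (Finset.mem_filter.1 hx').2, e1, e2]
    subst this
    exact congrArg Subtype.val ((emb k hk).injective (Subtype.ext (h1.trans h2.symm)))
  refine ⟨fun y => if h : ∃ x, P y x then some h.choose else none, fun y x hx => ?_,
    fun x hx h0 => ?_⟩
  · simp only at hx
    split_ifs at hx with h
    rw [← Option.some.inj hx]
    exact P1 y _ h.choose_spec
  · have hx' : x ∈ s.filter fun x' => la x' = la x := Finset.mem_filter.2 ⟨hx, rfl⟩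
    have hP : P (emb (la x) h0 ⟨x, hx'⟩).1 x := ⟨la x, h0, hx', rfl⟩
    refine ⟨_, (Finset.mem_filter.1 (emb (la x) h0 ⟨x, hx'⟩).2).1, ?_⟩
    have he : ∃ x', P (emb (la x) h0 ⟨x, hx'⟩).1 x' := ⟨x, hP⟩
    simp only [dif_pos he]
    rw [P2 _ _ _ he.choose_spec hP]

lemma exists_match
    (h : ∀ r k, 0 < k →
      ∑ a ∈ A r, (Finset.univ.filter fun γ => len γ = k + τ a + (up r a).toNat).card
        ≤ ∑ b ∈ B r, (Finset.univ.filter fun γ => len γ = k + τ b + (up r b).toNat).card) :
    ∃ src, Match τ len A B up src := by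
  classical
  have c : ∀ r (E : Finset N) k, 0 < k → ((E ×ˢ (Finset.univ : Finset Γ)).filter
      fun x => len x.2 - τ x.1 - (up r x.1).toNat = k).card
      = ∑ a ∈ E, (Finset.univ.filter fun γ => len γ = k + τ a + (up r a).toNat).card := by
    intro r E k hk
    simp only [Finset.card_filter, Finset.sum_product]
    refine Finset.sum_congr rfl fun a _ => Finset.sum_congr rfl fun γ _ => ?_
    refine if_congr ?_ rfl rfl
    omega
  have := fun r => exists_src (A r ×ˢ (Finset.univ : Finset Γ)) (B r ×ˢ Finset.univ)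
    (fun x => len x.2 - τ x.1 - (up r x.1).toNat) (fun x => len x.2 - τ x.1 - (up r x.1).toNat)
    (fun k hk => by rw [c r _ k hk, c r _ k hk]; exact h r k hk)
  choose s h1 h2 using this
  refine ⟨fun r b γ => s r (b, γ), fun r b _ γ' a γ hs => ?_, fun r a ha γ h0 => ?_⟩
  · have := h1 r _ _ hs
    exact ⟨(Finset.mem_product.1 this.1).1, this.2⟩
  · obtain ⟨⟨b, γ'⟩, hy, hs⟩ := h2 r (a, γ) (by simp [ha]) h0
    exact ⟨b, (Finset.mem_product.1 hy).1, γ', hs⟩

end model

end Pool.Agent.Lib.MP_3b2820_co
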