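import Pool.Agent.Lib.MP_3b2820_co.Ent

/-!
Polymatroid calculus and conditional entropy of families of random variables.
-/

set_option autoImplicit false

open Finset

namespace Pool.Agent.Lib.MP_3b2820_co

/-- Normalized monotone submodular set functions. -/
structure Poly {ι : Type} [DecidableEq ι] (g : Finset ι → ℝ) : Prop where
  empty : g ∅ = 0
  mono : ∀ A B, A ⊆ B → g A ≤ g B
  submod : ∀ A B, g (A ∪ B) + g (A ∩ B) ≤ g A + g B

/-- The conditional value. -/
def cnd {ι : Type} [DecidableEq ι] (g : Finset ι → ℝ) (A B : Finset ι) : ℝ := g (A ∪ B) - g B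

section poly
variable {ι : Type} [DecidableEq ι] {g : Finset ι → ℝ}

lemma Poly.nonneg (hg : Poly g) (A : Finset ι) : 0 ≤ g A := by
  have := hg.mono ∅ A (Finset.empty_subset A)
  rwa [hg.empty] at this

lemma Poly.cnd_nonneg (hg : Poly g) (A B : Finset ι) : 0 ≤ cnd g A B :=
  sub_nonneg.2 (hg.mono _ _ Finset.subset_union_right)

lemma Poly.cnd_empty (hg : Poly g) (A : Finset ι) : cnd g A ∅ = g A := by
  simp [cnd, hg.empty]

lemma cnd_empty_left (B : Finset ι) : cnd g ∅ B = 0 := by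
  simp [cnd]

lemma Poly.cnd_le (hg : Poly g) {A A' B B' : Finset ι} (hA : A ⊆ A' ∪ B) (hB : B' ⊆ B) :
    cnd g A B ≤ cnd g A' B' := by
  have h1 := hg.submod (A' ∪ B') B
  have h2 := hg.mono (A ∪ B) ((A' ∪ B') ∪ B) (by
    intro x hx
    have := @hA x
    simp only [Finset.mem_union] at *
    tauto)
  have h3 := hg.mono B' ((A' ∪ B') ∩ B) (by
    intro x hx
    have := hB hx
    simp only [Finset.mem_union, Finset.mem_inter] at *
    tauto)
  unfold cnd
  linarith

lemma Poly.cnd_le_val (hg : Poly g) (A B : Finset ι) : cnd g A B ≤ g A := by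
  rw [← hg.cnd_empty A]
  exact hg.cnd_le Finset.subset_union_left (Finset.empty_subset B)

lemma cnd_union (A A' B : Finset ι) : cnd g (A ∪ A') B = cnd g A B + cnd g A' (A ∪ B) := by
  unfold cnd
  have : A' ∪ (A ∪ B) = A ∪ A' ∪ B := by
    ext x
    simp only [Finset.mem_union]
    tauto
  rw [this]
  ring

lemma Poly.cnd_union_le (hg : Poly g) (A A' B : Finset ι) :
    cnd g (A ∪ A') B ≤ cnd g A B + cnd g A' B := by
  rw [cnd_union]
  have := hg.cnd_le (A := A') (A' := A') (B := A ∪ B) (B' := B) Finset.subset_union_left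
    Finset.subset_union_right
  linarith

lemma Poly.cnd_biUnion_le (hg : Poly g) {κ : Type} (s : Finset κ) (φ : κ → Finset ι)
    (B : Finset ι) : cnd g (s.biUnion φ) B ≤ ∑ i ∈ s, cnd g (φ i) B := by
  classical
  induction s using Finset.induction_on with
  | empty => simp [cnd_empty_left]
  | insert a s ha ih =>
    rw [Finset.biUnion_insert, Finset.sum_insert ha]
    exact (hg.cnd_union_le _ _ _).trans (by linarith)

lemma Poly.cover (hg : Poly g) {κ : Type} (s : Finset κ) (φ ψ : κ → Finset ι) {A B : Finset ι}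
    (hA : ∀ x ∈ A, x ∈ B ∨ ∃ i ∈ s, x ∈ φ i) (hψ : ∀ i ∈ s, ψ i ⊆ B) :
    cnd g A B ≤ ∑ i ∈ s, cnd g (φ i) (ψ i) := by
  have h1 : cnd g A B ≤ cnd g (s.biUnion φ) B := hg.cnd_le (by
    intro x hx
    simp only [Finset.mem_union, Finset.mem_biUnion]
    exact (hA x hx).symm) subset_rfl
  refine h1.trans ((hg.cnd_biUnion_le s φ B).trans (Finset.sum_le_sum fun i hi => ?_))
  exact hg.cnd_le Finset.subset_union_left (hψ i hi)

lemma Poly.split (hg : Poly g) {A B : Finset ι} (A₁ A₂ : Finset ι) (hA : A ⊆ A₁ ∪ A₂ ∪ B) :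
    cnd g A B ≤ cnd g A₁ B + cnd g A₂ (A₁ ∪ B) := by
  rw [← cnd_union]
  exact hg.cnd_le hA subset_rfl

lemma Poly.le_add_cnd (hg : Poly g) {A : Finset ι} (A' B : Finset ι) (h : A ⊆ A' ∪ B) :
    g A ≤ g B + cnd g A' B := by
  have := hg.mono _ _ h
  unfold cnd
  linarith

lemma Poly.le_sum (hg : Poly g) (A : Finset ι) : g A ≤ ∑ i ∈ A, g {i} := by
  have := hg.cover A (fun i => {i}) (fun _ => ∅) (A := A) (B := ∅)
    (fun x hx => Or.inr ⟨x, hx, Finset.mem_singleton_self x⟩) (fun _ _ => subset_rfl)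
  simpa [hg.cnd_empty] using this

/-- A lower bound for a conditional value by a chain of lower bounds. -/
lemma Poly.sum_le_cnd {κ : Type} [DecidableEq κ] (s : Finset κ) (φ : κ → ι) (B : Finset ι)
    (c : κ → ℝ)
    (hc : ∀ i ∈ s, ∀ s' ⊆ s, i ∉ s' → c i ≤ cnd g {φ i} (s'.image φ ∪ B)) :
    ∑ i ∈ s, c i ≤ cnd g (s.image φ) B := by
  have : ∀ s' ⊆ s, ∑ i ∈ s', c i ≤ cnd g (s'.image φ) B := by
    intro s'
    induction s' using Finset.induction_on with
    | empty => simp [cnd_empty_left]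
    | insert a t ha ih =>
      intro hs
      have h1 := ih ((Finset.subset_insert a t).trans hs)
      have h2 := hc a (hs (Finset.mem_insert_self a t)) t ((Finset.subset_insert a t).trans hs) ha
      rw [Finset.sum_insert ha, Finset.image_insert, Finset.insert_eq, Finset.union_comm,
        cnd_union]
      linarith
  exact this s subset_rfl

lemma Poly.image {κ : Type} [DecidableEq κ] (hg : Poly g) (φ : κ → ι) :
    Poly (fun A : Finset κ => g (A.image φ)) := by
  refine ⟨by simp [hg.empty], fun A B h => hg.mono _ _ (Finset.image_subset_image h),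
    fun A B => ?_⟩
  have h1 := hg.submod (A.image φ) (B.image φ)
  have h2 := hg.mono _ _ (Finset.image_inter_subset φ A B)
  rw [Finset.image_union]
  linarith

/-- Subtracting a modular function that is below all marginal gains keeps a polymatroid. -/
lemma Poly.sub_modular (hg : Poly g) (ν : ι → ℝ)
    (hν : ∀ y S, y ∉ S → ν y ≤ cnd g {y} S) : Poly (fun A => g A - ∑ i ∈ A, ν i) := by
  refine ⟨by simp [hg.empty], fun A B h => ?_, fun A B => ?_⟩
  · have h1 := Poly.sum_le_cnd (g := g) (B \ A) (fun x => x) A ν (by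
      intro i hi s' hs' hi'
      refine hν i _ ?_
      simp only [Finset.image_id', Finset.mem_union, not_or]
      exact ⟨hi', (Finset.mem_sdiff.1 hi).2⟩)
    rw [Finset.image_id'] at h1
    unfold cnd at h1
    rw [Finset.sdiff_union_of_subset h] at h1
    have h2 := Finset.sum_sdiff (f := ν) h
    linarith
  · have h1 := hg.submod A B
    have h2 := Finset.sum_union_inter (s₁ := A) (s₂ := B) (f := ν)
    linarith

end poly

/-- Two points agree on the conditioning variable and on the variables of `S`. -/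
def agr {Ω ι α ζ : Type} (Y : ι → Ω → α) (Z : Ω → ζ) (S : Finset ι) : Setoid Ω where
  r a b := Z a = Z b ∧ ∀ i ∈ S, Y i a = Y i b
  iseqv := ⟨fun _ => ⟨rfl, fun _ _ => rfl⟩, fun h => ⟨h.1.symm, fun i hi => (h.2 i hi).symm⟩,
    fun h h' => ⟨h.1.trans h'.1, fun i hi => (h.2 i hi).trans (h'.2 i hi)⟩⟩

lemma agr_iff {Ω ι α ζ : Type} (Y : ι → Ω → α) (Z : Ω → ζ) (S : Finset ι) (a b : Ω) :
    agr Y Z S a b ↔ Z a = Z b ∧ ∀ i ∈ S, Y i a = Y i b := Iff.rfl

/-- Joint entropy of the variables of `S` given the conditioning variable. -/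
noncomputable def cent {Ω ι α ζ : Type} [Fintype Ω] (p : Ω → ℝ) (Y : ι → Ω → α) (Z : Ω → ζ)
    (S : Finset ι) : ℝ := entR p (agr Y Z S) - entR p (agr Y Z ∅)

section cent
variable {Ω ι α ζ : Type} [Fintype Ω] [DecidableEq ι] {p : Ω → ℝ}

omit [Fintype Ω] [DecidableEq ι] in
lemma agr_anti (Y : ι → Ω → α) (Z : Ω → ζ) {A B : Finset ι} (h : A ⊆ B) :
    agr Y Z B ≤ agr Y Z A := fun _ _ hab => ⟨hab.1, fun i hi => hab.2 i (h hi)⟩

lemma cent_poly (hp : IsProb p) (Y : ι → Ω → α) (Z : Ω → ζ) : Poly (cent p Y Z) := by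
  refine ⟨by simp [cent], fun A B h => ?_, fun A B => ?_⟩
  · unfold cent
    have := entR_anti hp (agr_anti Y Z h)
    linarith
  · unfold cent
    have h1 := entR_submod hp (agr_anti Y Z (Finset.inter_subset_left (s₁ := A) (s₂ := B)))
      (agr_anti Y Z (Finset.inter_subset_right (s₁ := A) (s₂ := B)))
    have h2 : agr Y Z A ⊓ agr Y Z B = agr Y Z (A ∪ B) := by
      ext a b
      constructor
      · rintro ⟨h1, h2⟩
        refine ⟨h1.1, fun i hi => ?_⟩
        rcases Finset.mem_union.1 hi with h | h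
        exacts [h1.2 i h, h2.2 i h]
      · intro h
        exact ⟨agr_anti Y Z Finset.subset_union_left h, agr_anti Y Z Finset.subset_union_right h⟩
    rw [h2] at h1
    linarith

lemma cent_single_le (hp : IsProb p) [Fintype α] (Y : ι → Ω → α) (Z : Ω → ζ) (i : ι) :
    cent p Y Z {i} ≤ Real.log (Fintype.card α) := by
  have h1 := entR_submod hp (R := Setoid.ker (Y i)) (R' := agr Y Z ∅) (Q := ⊤) le_top le_top
  have h2 : Setoid.ker (Y i) ⊓ agr Y Z ∅ = agr Y Z {i} := by
    ext a b
    constructor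
    · rintro ⟨h1, h2⟩
      exact ⟨h2.1, fun j hj => by rw [Finset.mem_singleton.1 hj]; exact h1⟩
    · intro h
      exact ⟨h.2 i (Finset.mem_singleton_self i), h.1, fun j hj => by simp at hj⟩
  have h3 := entR_le_log_card hp (Y i) (R := Setoid.ker (Y i)) (fun a b h => h)
  rw [h2, entR_top hp] at h1
  unfold cent
  linarith

omit [DecidableEq ι] in
lemma cent_push {Ω' κ : Type} [Fintype Ω'] {p' : Ω' → ℝ} {π : Ω → Ω'} (h : Push p π p')
    {Y : ι → Ω → α} {Z : Ω → ζ} {Y' : κ → Ω' → α} {Z' : Ω' → ζ} [DecidableEq κ] (φ : ι → κ)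
    (S : Finset ι) (hZ : ∀ a, Z a = Z' (π a)) (hY : ∀ i ∈ S, ∀ a, Y i a = Y' (φ i) (π a)) :
    cent p Y Z S = cent p' Y' Z' (S.image φ) := by
  unfold cent
  rw [h.entR_eq (R := agr Y Z S) (R' := agr Y' Z' (S.image φ)),
    h.entR_eq (R := agr Y Z ∅) (R' := agr Y' Z' ∅)]
  · intro a b
    simp [agr_iff, hZ]
  · intro a b
    simp only [agr_iff, hZ, Finset.forall_mem_image]
    refine and_congr_right fun _ => forall_congr' fun i => forall_congr' fun hi => ?_
    rw [hY i hi, hY i hi]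

end cent

end Pool.Agent.Lib.MP_3b2820_co
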