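import Pool.Agent.Lib.MP_3b2820_co.Base2

/-!
The family of centers of a two level system and its nominal values.
-/

set_option autoImplicit false
set_option linter.unusedSectionVars false

open Finset

namespace Pool.Agent.Lib.MP_3b2820_co

/-- Weighted sum of conditional values. -/
def Wf {X J : Type} [DecidableEq X] [Fintype J] (T U : J → Finset X) (b : J → ℕ)
    (f : Finset X → ℝ) : ℝ := ∑ j, (b j : ℝ) * cnd f (T j) (U j)

/-- The density deficiency of the encoding graph. -/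
def Df {X J : Type} [DecidableEq X] [Fintype X] [Fintype J] (T U : J → Finset X)
    (f : Finset X → ℝ) : ℝ :=
  ∑ j, (f (T j ∪ U j) + ∑ y ∈ T j ∪ U j, f {y}) + 6 * ∑ y, f {y} - f Finset.univ

lemma Df_ge {X J : Type} [DecidableEq X] [Fintype X] [Fintype J] (T U : J → Finset X)
    (f : Finset X → ℝ) (φ : X → ℝ) (ψ : J → ℝ) {δ : ℝ} (hδ : 0 ≤ δ) (h1 : ∀ y, φ y - δ ≤ f {y})
    (h2 : ∀ j, ψ j - δ ≤ f (T j ∪ U j)) :
    ∑ j, (ψ j + ∑ y ∈ T j ∪ U j, φ y) + 6 * ∑ y, φ y - f Finset.univ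
      - (Fintype.card J * (1 + Fintype.card X) + 6 * Fintype.card X) * δ ≤ Df T U f := by
  have a1 : ∀ S : Finset X, ∑ y ∈ S, φ y - Fintype.card X * δ ≤ ∑ y ∈ S, f {y} := by
    intro S
    have b1 := Finset.sum_le_sum fun y (_ : y ∈ S) => h1 y
    rw [Finset.sum_sub_distrib, Finset.sum_const, nsmul_eq_mul] at b1
    have b2 : (S.card : ℝ) ≤ Fintype.card X := by exact_mod_cast Finset.card_le_univ S
    have := mul_le_mul_of_nonneg_right b2 hδ
    linarith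
  have a2 : ∑ j, (ψ j + ∑ y ∈ T j ∪ U j, φ y - (1 + Fintype.card X) * δ)
      ≤ ∑ j, (f (T j ∪ U j) + ∑ y ∈ T j ∪ U j, f {y}) := by
    refine Finset.sum_le_sum fun j _ => ?_
    have := a1 (T j ∪ U j)
    have := h2 j
    linarith
  rw [Finset.sum_sub_distrib, Finset.sum_const, nsmul_eq_mul, Finset.card_univ] at a2
  have a3 := a1 Finset.univ
  unfold Df
  linarith

lemma Df_le {X J : Type} [DecidableEq X] [Fintype X] [Fintype J] (T U : J → Finset X)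
    (f : Finset X → ℝ) (φ : X → ℝ) (ψ : J → ℝ) (h1 : ∀ y, f {y} ≤ φ y)
    (h2 : ∀ j, f (T j ∪ U j) ≤ ψ j) :
    Df T U f ≤ ∑ j, (ψ j + ∑ y ∈ T j ∪ U j, φ y) + 6 * ∑ y, φ y - f Finset.univ := by
  have a1 : ∀ S : Finset X, ∑ y ∈ S, f {y} ≤ ∑ y ∈ S, φ y :=
    fun S => Finset.sum_le_sum fun y _ => h1 y
  have a2 : ∑ j, (f (T j ∪ U j) + ∑ y ∈ T j ∪ U j, f {y}) ≤ ∑ j, (ψ j + ∑ y ∈ T j ∪ U j, φ y) :=
    Finset.sum_le_sum fun j _ => add_le_add (h2 j) (a1 _)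
  have a3 := a1 Finset.univ
  unfold Df
  linarith

/-- Index set of the centers. -/
abbrev Ctr (N R : Type) : Type :=
  (Bool × N) ⊕ (Bool × Bool × ((N ⊕ N) ⊕ (R ⊕ R) ⊕ (R ⊕ R))) ⊕ (Bool × (R ⊕ R))

section sys
variable {N R : Type} [DecidableEq N] [DecidableEq R] [Fintype N] [Fintype R]
  (A B : R → Finset N) (up : R → N → Bool)

/-- Target sets of the centers. -/
def cT : Ctr N R → Finset (Bool × Yv N R)
  | .inl (e, v) => {vx R e v}
  | .inr (.inl (_, e, .inl (.inl v))) => {vx R (!e) v}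
  | .inr (.inl (_, e, .inl (.inr v))) => {vs R e v}
  | .inr (.inl (_, e, .inr (.inl (.inl r)))) => xs R e (B r)
  | .inr (.inl (_, e, .inr (.inl (.inr r)))) => xs R e (A r)
  | .inr (.inl (_, e, .inr (.inr (.inl r)))) => {vr N e r}
  | .inr (.inl (_, e, .inr (.inr (.inr r)))) => ss R e (B r)
  | .inr (.inr (e, .inl r)) => ss R e ((A r ∪ B r).filter fun v => up r v)
  | .inr (.inr (e, .inr r)) => {vr N e r} ∪ ss R e ((B r).filter fun v => up r v)

/-- Conditioning sets of the centers. -/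
def cU : Ctr N R → Finset (Bool × Yv N R)
  | .inl _ => ∅
  | .inr (.inl (_, e, .inl (.inl v))) => {vx R e v, vs R e v}
  | .inr (.inl (_, e, .inl (.inr v))) => {vx R e v, vx R (!e) v}
  | .inr (.inl (_, e, .inr (.inl (.inl r)))) => xs R e (A r) ∪ {vr N e r}
  | .inr (.inl (_, e, .inr (.inl (.inr r)))) => xs R e (B r) ∪ {vr N e r}
  | .inr (.inl (_, e, .inr (.inr (.inl r)))) => xs R e (A r ∪ B r)
  | .inr (.inl (_, e, .inr (.inr (.inr r)))) => ss R e (A r) ∪ {vr N e r, vr N (!e) r}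
  | .inr (.inr (e, .inl r)) => {vr N e r}
  | .inr (.inr (e, .inr r)) => ss R e ((A r).filter fun v => up r v)

/-- Full sets of the centers. -/
def cS : Ctr N R → Finset (Bool × Yv N R)
  | .inl (e, v) => {vx R e v}
  | .inr (.inl (_, e, .inl (.inl v))) => {vx R e v, vx R (!e) v, vs R e v}
  | .inr (.inl (_, e, .inl (.inr v))) => {vx R e v, vx R (!e) v, vs R e v}
  | .inr (.inl (_, e, .inr (.inl (.inl r)))) => {vr N e r} ∪ xs R e (A r ∪ B r)
  | .inr (.inl (_, e, .inr (.inl (.inr r)))) => {vr N e r} ∪ xs R e (A r ∪ B r)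
  | .inr (.inl (_, e, .inr (.inr (.inl r)))) => {vr N e r} ∪ xs R e (A r ∪ B r)
  | .inr (.inl (_, e, .inr (.inr (.inr r)))) => ss R e (A r ∪ B r) ∪ {vr N e r, vr N (!e) r}
  | .inr (.inr (e, .inl r)) => {vr N e r} ∪ ss R e ((A r ∪ B r).filter fun v => up r v)
  | .inr (.inr (e, .inr r)) => {vr N e r} ∪ ss R e ((A r ∪ B r).filter fun v => up r v)

/-- Weights of the centers. -/
def cW (Lw : N → ℕ) (bF K : ℕ) : Ctr N R → ℕ
  | .inl (_, v) => Lw v
  | .inr (.inl _) => bF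
  | .inr (.inr _) => K

lemma cT_union_cU (j : Ctr N R) : cT A B up j ∪ cU A B up j = cS A B up j := by
  obtain ⟨e, v⟩ | ⟨i, e, (v | v) | (r | r) | (r | r)⟩ | ⟨e, r | r⟩ := j
  · simp [cT, cU, cS]
  all_goals
    simp only [cT, cU, cS]
  all_goals
    ext ⟨t, (v | r') | v⟩ <;> simp <;> tauto

/-- Nominal value of a relation syndrome. -/
def nσ (z : Bool → ℕ → N → ℝ) (e : Bool) (r : R) : ℝ :=
  ∑ v ∈ A r ∪ B r, z e 0 v - ∑ a ∈ A r, z e (up r a).toNat a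

/-- Nominal value of a step syndrome. -/
def ns (z : Bool → ℕ → N → ℝ) (e : Bool) (v : N) : ℝ := z e 0 v + z (!e) 0 v - z e 1 v

/-- Nominal values of variables. -/
def nφ (z : Bool → ℕ → N → ℝ) : Bool × Yv N R → ℝ
  | (e, .inl (.inl v)) => z e 0 v
  | (e, .inl (.inr r)) => nσ A B up z e r
  | (e, .inr v) => ns z e v

/-- Nominal values of centers. -/
def nψ (z : Bool → ℕ → N → ℝ) : Ctr N R → ℝ
  | .inl (e, v) => z e 0 v
  | .inr (.inl (_, e, .inl (.inl v))) => z e 0 v + z (!e) 0 v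
  | .inr (.inl (_, e, .inl (.inr v))) => z e 0 v + z (!e) 0 v
  | .inr (.inl (_, e, .inr (.inl (.inl r)))) => ∑ v ∈ A r ∪ B r, z e 0 v
  | .inr (.inl (_, e, .inr (.inl (.inr r)))) => ∑ v ∈ A r ∪ B r, z e 0 v
  | .inr (.inl (_, e, .inr (.inr (.inl r)))) => ∑ v ∈ A r ∪ B r, z e 0 v
  | .inr (.inl (_, e, .inr (.inr (.inr r)))) => ∑ v ∈ A r ∪ B r, z e 0 v
      + ∑ v ∈ A r ∪ B r, z (!e) 0 v - ∑ a ∈ A r, z e (1 + (up r a).toNat) a
  | .inr (.inr (e, .inl r)) => ∑ v ∈ A r ∪ B r, z e 0 v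
      + ∑ v ∈ (A r ∪ B r).filter (fun v => up r v), z (!e) 0 v - ∑ a ∈ A r, z e (up r a).toNat a
  | .inr (.inr (e, .inr r)) => ∑ v ∈ A r ∪ B r, z e 0 v
      + ∑ v ∈ (A r ∪ B r).filter (fun v => up r v), z (!e) 0 v - ∑ a ∈ A r, z e (up r a).toNat a

/-- Nominal deficiency without the last term. -/
def nD (z : Bool → ℕ → N → ℝ) : ℝ :=
  ∑ j, (nψ A B up z j + ∑ y ∈ cT A B up j ∪ cU A B up j, nφ A B up z y) + 6 * ∑ y, nφ A B up z y

lemma nD_eq (z : Bool → ℕ → N → ℝ) : nD A B up z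
    = ∑ e, (2 * ∑ v, z e 0 v
      + 4 * (2 * ∑ v, z e 0 v + 2 * ∑ v, z (!e) 0 v + ∑ v, ns z e v)
      + 6 * (2 * ∑ r, ∑ v ∈ A r ∪ B r, z e 0 v + ∑ r, nσ A B up z e r)
      + 2 * (∑ r, ∑ v ∈ A r ∪ B r, z e 0 v + ∑ r, ∑ v ∈ A r ∪ B r, z (!e) 0 v
        - ∑ r, ∑ a ∈ A r, z e (1 + (up r a).toNat) a + ∑ r, ∑ v ∈ A r ∪ B r, ns z e v
        + ∑ r, nσ A B up z e r + ∑ r, nσ A B up z (!e) r)
      + 2 * (∑ r, ∑ v ∈ A r ∪ B r, z e 0 v
        + ∑ r, ∑ v ∈ (A r ∪ B r).filter (fun v => up r v), z (!e) 0 v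
        - ∑ r, ∑ a ∈ A r, z e (up r a).toNat a + ∑ r, nσ A B up z e r
        + ∑ r, ∑ v ∈ (A r ∪ B r).filter (fun v => up r v), ns z e v)
      + 6 * (∑ v, z e 0 v + ∑ r, nσ A B up z e r + ∑ v, ns z e v)) := by
  have s1 : ∀ e v, ∑ y ∈ {vx R e v, vx R (!e) v, vs R e v}, nφ A B up z y
      = z e 0 v + z (!e) 0 v + ns z e v := by
    intro e v
    rw [Finset.sum_insert (by cases e <;> simp), Finset.sum_pair (by simp), add_assoc]
    rfl
  have s2 : ∀ e r E, ∑ y ∈ {vr N e r} ∪ xs R e E, nφ A B up z y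
      = nσ A B up z e r + ∑ v ∈ E, z e 0 v := by
    intro e r E
    rw [Finset.sum_union (by simp), sum_xs, Finset.sum_singleton]
    rfl
  have s3 : ∀ e r E, ∑ y ∈ {vr N e r} ∪ ss R e E, nφ A B up z y
      = nσ A B up z e r + ∑ v ∈ E, ns z e v := by
    intro e r E
    rw [Finset.sum_union (by simp), sum_ss, Finset.sum_singleton]
    rfl
  have s4 : ∀ e r E, ∑ y ∈ ss R e E ∪ {vr N e r, vr N (!e) r}, nφ A B up z y
      = ∑ v ∈ E, ns z e v + (nσ A B up z e r + nσ A B up z (!e) r) := by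
    intro e r E
    rw [Finset.sum_union (by simp), sum_ss, Finset.sum_pair (by cases e <;> simp)]
    rfl
  unfold nD
  simp only [cT_union_cU, Fintype.sum_sum_type, Fintype.sum_prod_type, cS, s1, s2, s3, s4,
    Finset.sum_singleton]
  simp only [nψ, nφ, Finset.sum_add_distrib, Finset.sum_sub_distrib, Fintype.sum_bool,
    Bool.not_true, Bool.not_false]
  ring

lemma Wf_eq {f : Finset (Bool × Yv N R) → ℝ} (hf : f ∅ = 0) (Lw : N → ℕ) (bF K : ℕ) :
    Wf (cT A B up) (cU A B up) (cW Lw bF K) f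
      = ∑ e, ∑ v, (Lw v : ℝ) * fm f e v + 2 * bF * fdAll A B f
        + K * (∑ e, ∑ r, cA A B up f e r + ∑ e, ∑ r, cB A B up f e r) := by
  have h0 : ∀ e v, cnd f {vx R e v} ∅ = fm f e v := fun e v => by simp [cnd, hf, fm]
  unfold Wf fdAll fd3 fd4 fd1 fdb fd6 fdc cA cB
  simp only [Fintype.sum_sum_type, Fintype.sum_prod_type, cT, cU, cW, h0, Fintype.sum_bool,
    ← Finset.mul_sum]
  ring

end sys

end Pool.Agent.Lib.MP_3b2820_co
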